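import Mathlib

/-!
A small language of stack programs, compiled to Mathlib's `FinTM2` machines.
-/

set_option autoImplicit false
set_option linter.unusedSimpArgs false
set_option linter.unusedSectionVars false

namespace Pool.Agent.helper62

open Turing Function

lemma initList_stk (tm : FinTM2) (s : List (tm.Γ tm.k₀)) :
    (initList tm s).stk = Function.update (fun _ => []) tm.k₀ s := by
  funext k
  by_cases hk : k = tm.k₀
  · subst hk
    simp [initList]
  · simp [initList, hk, Function.update_of_ne hk]

lemma haltList_stk (tm : FinTM2) (s : List (tm.Γ tm.k₁)) :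
    (haltList tm s).stk = Function.update (fun _ => []) tm.k₁ s := by
  funext k
  by_cases hk : k = tm.k₁
  · subst hk
    simp [haltList]
  · simp [haltList, hk, Function.update_of_ne hk]

/-- Programs over stacks of Booleans, indexed by `I`. `loop k p q` pops stack `k` until it is
empty; after each pop it runs `p` or `q` according to the symbol popped. `ifp k p q r` pops stack
`k` once and runs `p`, `q` or `r` if it was empty, had `false` on top, or had `true` on top. -/
inductive Prog (I : Type) where
  | skip
  | push (k : I) (b : Bool)
  | seq (p q : Prog I)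
  | loop (k : I) (pf pt : Prog I)
  | ifp (k : I) (pn pf pt : Prog I)

namespace Prog

variable {I : Type} [DecidableEq I]

/-- `Exec p S S' n`: program `p` started with stacks `S` stops after `n` steps with stacks `S'`. -/
inductive Exec : Prog I → (I → List Bool) → (I → List Bool) → ℕ → Prop
  | skip (S) : Exec .skip S S 1
  | push (k b S) : Exec (.push k b) S (update S k (b :: S k)) 1
  | seq {p q S S' S'' n m} (h1 : Exec p S S' n) (h2 : Exec q S' S'' m) :
      Exec (.seq p q) S S'' (n + m)
  | loop_nil {k pf pt S} (h : S k = []) : Exec (.loop k pf pt) S S 1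
  | loop_false {k pf pt S l S' S'' n m} (h : S k = false :: l)
      (h1 : Exec pf (update S k l) S' n) (h2 : Exec (.loop k pf pt) S' S'' m) :
      Exec (.loop k pf pt) S S'' (1 + n + m)
  | loop_true {k pf pt S l S' S'' n m} (h : S k = true :: l)
      (h1 : Exec pt (update S k l) S' n) (h2 : Exec (.loop k pf pt) S' S'' m) :
      Exec (.loop k pf pt) S S'' (1 + n + m)
  | ifp_nil {k pn pf pt S S' n} (h : S k = []) (h1 : Exec pn S S' n) :
      Exec (.ifp k pn pf pt) S S' (1 + n)
  | ifp_false {k pn pf pt S l S' n} (h : S k = false :: l) (h1 : Exec pf (update S k l) S' n) :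
      Exec (.ifp k pn pf pt) S S' (1 + n)
  | ifp_true {k pn pf pt S l S' n} (h : S k = true :: l) (h1 : Exec pt (update S k l) S' n) :
      Exec (.ifp k pn pf pt) S S' (1 + n)

/-- Labels. -/
def Lab : Prog I → Type
  | .skip => Unit
  | .push _ _ => Unit
  | .seq p q => Lab p ⊕ Lab q
  | .loop _ p q => Unit ⊕ (Lab p ⊕ Lab q)
  | .ifp _ o p q => Unit ⊕ (Lab o ⊕ (Lab p ⊕ Lab q))

noncomputable instance instFintypeLab : (p : Prog I) → Fintype (Lab p)
  | .skip => inferInstanceAs (Fintype Unit)
  | .push _ _ => inferInstanceAs (Fintype Unit)
  | .seq p q =>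
      letI := instFintypeLab p
      letI := instFintypeLab q
      inferInstanceAs (Fintype (Lab p ⊕ Lab q))
  | .loop _ p q =>
      letI := instFintypeLab p
      letI := instFintypeLab q
      inferInstanceAs (Fintype (Unit ⊕ (Lab p ⊕ Lab q)))
  | .ifp _ o p q =>
      letI := instFintypeLab o
      letI := instFintypeLab p
      letI := instFintypeLab q
      inferInstanceAs (Fintype (Unit ⊕ (Lab o ⊕ (Lab p ⊕ Lab q))))

def entry : (p : Prog I) → Lab p
  | .skip => ()
  | .push _ _ => ()
  | .seq p _ => Sum.inl (entry p)
  | .loop _ _ _ => Sum.inl ()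
  | .ifp _ _ _ _ => Sum.inl ()

/-- Code of a program. -/
def code {Λ : Type} : (p : Prog I) → (Lab p → Λ) → Λ → Lab p →
    TM2.Stmt (fun _ : I => Bool) Λ (Option Bool)
  | .skip, _, ex, _ => .goto (fun _ => ex)
  | .push k b, _, ex, _ => .push k (fun _ => b) (.goto (fun _ => ex))
  | .seq p q, emb, _, .inl l =>
      code p (fun l => emb (.inl l)) (emb (.inr (entry q))) l
  | .seq _ q, emb, ex, .inr l => code q (fun l => emb (.inr l)) ex l
  | .loop k p q, emb, ex, .inl _ =>
      .pop k (fun _ a => a) (.goto (fun v => match v with
        | none => ex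
        | some false => emb (.inr (.inl (entry p)))
        | some true => emb (.inr (.inr (entry q)))))
  | .loop _ p _, emb, _, .inr (.inl l) =>
      code p (fun l => emb (.inr (.inl l))) (emb (.inl ())) l
  | .loop _ _ q, emb, _, .inr (.inr l) =>
      code q (fun l => emb (.inr (.inr l))) (emb (.inl ())) l
  | .ifp k o p q, emb, _, .inl _ =>
      .pop k (fun _ a => a) (.goto (fun v => match v with
        | none => emb (.inr (.inl (entry o)))
        | some false => emb (.inr (.inr (.inl (entry p))))
        | some true => emb (.inr (.inr (.inr (entry q))))))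
  | .ifp _ o _ _, emb, ex, .inr (.inl l) => code o (fun l => emb (.inr (.inl l))) ex l
  | .ifp _ _ p _, emb, ex, .inr (.inr (.inl l)) => code p (fun l => emb (.inr (.inr (.inl l)))) ex l
  | .ifp _ _ _ q, emb, ex, .inr (.inr (.inr l)) => code q (fun l => emb (.inr (.inr (.inr l)))) ex l

lemma iterate_trans {α : Type*} {f : α → Option α} {a b : α} {c : Option α} {n m : ℕ}
    (h1 : (flip bind f)^[n] (some a) = some b) (h2 : (flip bind f)^[m] (some b) = c) :
    (flip bind f)^[n + m] (some a) = c := by
  rw [Nat.add_comm, Function.iterate_add_apply, h1, h2]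

theorem code_correct {Λ : Type} (M : Λ → TM2.Stmt (fun _ : I => Bool) Λ (Option Bool))
    {p : Prog I} {S S' : I → List Bool} {n : ℕ} (h : Exec p S S' n) :
    ∀ (emb : Lab p → Λ) (ex : Λ), (∀ l, M (emb l) = code p emb ex l) → ∀ v, ∃ v',
      (flip bind (TM2.step M))^[n] (some ⟨some (emb (entry p)), v, S⟩) = some ⟨some ex, v', S'⟩ := by
  induction h with
  | skip S =>
    intro emb ex hM v
    refine ⟨v, ?_⟩
    have := hM (entry .skip)
    simp only [code] at this
    change some (TM2.stepAux (M (emb (entry .skip))) v S) = _
    rw [this]; rfl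
  | push k b S =>
    intro emb ex hM v
    refine ⟨v, ?_⟩
    have := hM (entry (.push k b))
    simp only [code] at this
    change some (TM2.stepAux (M (emb (entry (.push k b)))) v S) = _
    rw [this]; rfl
  | @seq p q S S' S'' n m h1 h2 ih1 ih2 =>
    intro emb ex hM v
    obtain ⟨v1, h1⟩ := ih1 (fun l => emb (.inl l)) (emb (.inr (entry q)))
      (fun l => hM (.inl l)) v
    obtain ⟨v2, h2⟩ := ih2 (fun l => emb (.inr l)) ex (fun l => hM (.inr l)) v1
    exact ⟨v2, iterate_trans h1 h2⟩
  | @loop_nil k pf pt S h =>
    intro emb ex hM v
    refine ⟨none, ?_⟩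
    have hc := hM (.inl ())
    simp only [code] at hc
    change some (TM2.stepAux (M (emb (.inl ()))) v S) = _
    rw [hc]
    have e : update S k (S k).tail = S := by
      rw [h, List.tail_nil, ← h, update_eq_self]
    simp only [TM2.stepAux, e]
    simp only [h, List.head?_nil]
  | @loop_false k pf pt S l S' S'' n m h h1 h2 ih1 ih2 =>
    intro emb ex hM v
    have hc := hM (.inl ())
    simp only [code] at hc
    have s1 : (flip bind (TM2.step M))^[1]
        (some ⟨some (emb (entry (.loop k pf pt))), v, S⟩) =
        some ⟨some (emb (.inr (.inl (entry pf)))), some false, update S k l⟩ := by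
      change some (TM2.stepAux (M (emb (.inl ()))) v S) = _
      rw [hc]
      simp only [TM2.stepAux, h, List.head?_cons, List.tail_cons]
    obtain ⟨v1, s2⟩ := ih1 (fun l => emb (.inr (.inl l))) (emb (.inl ()))
      (fun l => hM (.inr (.inl l))) (some false)
    obtain ⟨v2, s3⟩ := ih2 emb ex hM v1
    exact ⟨v2, iterate_trans (iterate_trans s1 s2) s3⟩
  | @loop_true k pf pt S l S' S'' n m h h1 h2 ih1 ih2 =>
    intro emb ex hM v
    have hc := hM (.inl ())
    simp only [code] at hc
    have s1 : (flip bind (TM2.step M))^[1]
        (some ⟨some (emb (entry (.loop k pf pt))), v, S⟩) =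
        some ⟨some (emb (.inr (.inr (entry pt)))), some true, update S k l⟩ := by
      change some (TM2.stepAux (M (emb (.inl ()))) v S) = _
      rw [hc]
      simp only [TM2.stepAux, h, List.head?_cons, List.tail_cons]
    obtain ⟨v1, s2⟩ := ih1 (fun l => emb (.inr (.inr l))) (emb (.inl ()))
      (fun l => hM (.inr (.inr l))) (some true)
    obtain ⟨v2, s3⟩ := ih2 emb ex hM v1
    exact ⟨v2, iterate_trans (iterate_trans s1 s2) s3⟩
  | @ifp_nil k pn pf pt S S' n h h1 ih1 =>
    intro emb ex hM v
    have hc := hM (.inl ())
    simp only [code] at hc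
    have s1 : (flip bind (TM2.step M))^[1]
        (some ⟨some (emb (entry (.ifp k pn pf pt))), v, S⟩) =
        some ⟨some (emb (.inr (.inl (entry pn)))), none, S⟩ := by
      change some (TM2.stepAux (M (emb (.inl ()))) v S) = _
      rw [hc]
      have e : update S k (S k).tail = S := by
        rw [h, List.tail_nil, ← h, update_eq_self]
      simp only [TM2.stepAux, e]
      simp only [h, List.head?_nil]
    obtain ⟨v1, s2⟩ := ih1 (fun l => emb (.inr (.inl l))) ex (fun l => hM (.inr (.inl l))) none
    exact ⟨v1, iterate_trans s1 s2⟩
  | @ifp_false k pn pf pt S l S' n h h1 ih1 =>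
    intro emb ex hM v
    have hc := hM (.inl ())
    simp only [code] at hc
    have s1 : (flip bind (TM2.step M))^[1]
        (some ⟨some (emb (entry (.ifp k pn pf pt))), v, S⟩) =
        some ⟨some (emb (.inr (.inr (.inl (entry pf))))), some false, update S k l⟩ := by
      change some (TM2.stepAux (M (emb (.inl ()))) v S) = _
      rw [hc]
      simp only [TM2.stepAux, h, List.head?_cons, List.tail_cons]
    obtain ⟨v1, s2⟩ := ih1 (fun l => emb (.inr (.inr (.inl l)))) ex
      (fun l => hM (.inr (.inr (.inl l)))) (some false)
    exact ⟨v1, iterate_trans s1 s2⟩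
  | @ifp_true k pn pf pt S l S' n h h1 ih1 =>
    intro emb ex hM v
    have hc := hM (.inl ())
    simp only [code] at hc
    have s1 : (flip bind (TM2.step M))^[1]
        (some ⟨some (emb (entry (.ifp k pn pf pt))), v, S⟩) =
        some ⟨some (emb (.inr (.inr (.inr (entry pt))))), some true, update S k l⟩ := by
      change some (TM2.stepAux (M (emb (.inl ()))) v S) = _
      rw [hc]
      simp only [TM2.stepAux, h, List.head?_cons, List.tail_cons]
    obtain ⟨v1, s2⟩ := ih1 (fun l => emb (.inr (.inr (.inr l)))) ex
      (fun l => hM (.inr (.inr (.inr l)))) (some true)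
    exact ⟨v1, iterate_trans s1 s2⟩

/-- The machine of a program. -/
noncomputable def machine [Fintype I] (p : Prog I) (i o : I) : FinTM2 where
  K := I
  k₀ := i
  k₁ := o
  Γ := fun _ => Bool
  Λ := Option (Lab p)
  main := some (entry p)
  σ := Option Bool
  initialState := none
  Γk₀Fin := inferInstanceAs (Fintype Bool)
  m := fun l => match l with
    | none => .load (fun _ => none) .halt
    | some l => code p some none l

/-- **Compilation.** A program which computes `f` in polynomial time gives a `TM2` machine. -/
noncomputable def toPolyTime [Fintype I] (p : Prog I) (i o : I) {α β : Type}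
    (ea : α → List Bool) (eb : β → List Bool) (f : α → β) (time : Polynomial ℕ)
    (h : ∀ a, ∃ n ≤ time.eval (ea a).length,
      Exec p (update (fun _ => []) i (ea a)) (update (fun _ => []) o (eb (f a))) n) :
    TM2ComputableInPolyTime ea eb f where
  tm := machine p i o
  inputAlphabet := Equiv.refl Bool
  outputAlphabet := Equiv.refl Bool
  time := time + 1
  outputsFun := fun a => by
    have hh := (h a).choose_spec
    refine ⟨⟨(h a).choose + 1, ?_⟩, ?_⟩
    · obtain ⟨v', hv⟩ := code_correct (machine p i o).m hh.2 (fun l => some l) none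
        (fun l => rfl) none
      have hinit : initList (machine p i o) (List.map (Equiv.refl Bool).invFun (ea a)) =
          ⟨some (some (entry p)), none, update (fun _ => []) i (ea a)⟩ := by
        have e1 : (initList (machine p i o) (List.map (Equiv.refl Bool).invFun (ea a))).stk =
            (update (fun _ => []) i (ea a) : I → List Bool) := by
          refine (initList_stk (machine p i o) _).trans ?_
          exact congrArg (fun l : List Bool => (update (fun _ => []) i l : I → List Bool))
            (List.map_id (ea a))
        exact congrArg (fun s : I → List Bool => (⟨some (some (entry p)), none, s⟩ :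
          TM2.Cfg (fun _ : I => Bool) (Option (Lab p)) (Option Bool))) e1
      have hhalt : haltList (machine p i o) (List.map (Equiv.refl Bool).invFun (eb (f a))) =
          ⟨none, none, update (fun _ => []) o (eb (f a))⟩ := by
        have e1 : (haltList (machine p i o) (List.map (Equiv.refl Bool).invFun (eb (f a)))).stk =
            (update (fun _ => []) o (eb (f a)) : I → List Bool) := by
          refine (haltList_stk (machine p i o) _).trans ?_
          exact congrArg (fun l : List Bool => (update (fun _ => []) o l : I → List Bool))
            (List.map_id (eb (f a)))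
        exact congrArg (fun s : I → List Bool => (⟨none, none, s⟩ :
          TM2.Cfg (fun _ : I => Bool) (Option (Lab p)) (Option Bool))) e1
      rw [hinit]
      simp only [Option.map_some, hhalt]
      exact iterate_trans hv rfl
    · simp only [Polynomial.eval_add, Polynomial.eval_one]
      exact Nat.succ_le_succ hh.1

/-! ### Bounded execution -/

/-- `p` runs from `S` to `S'` in at most `t` steps. -/
def Runs (p : Prog I) (S S' : I → List Bool) (t : ℕ) : Prop := ∃ n ≤ t, Exec p S S' n

lemma Runs.mono {p : Prog I} {S S' : I → List Bool} {t t' : ℕ} (h : Runs p S S' t)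
    (ht : t ≤ t') : Runs p S S' t' := by
  obtain ⟨n, hn, h⟩ := h
  exact ⟨n, hn.trans ht, h⟩

lemma Runs.mono' {p : Prog I} {S S' S'' : I → List Bool} {t t' : ℕ} (h : Runs p S S' t)
    (hS : S' = S'') (ht : t ≤ t') : Runs p S S'' t' := hS ▸ h.mono ht

lemma Runs.skip (S : I → List Bool) : Runs .skip S S 1 := ⟨1, le_rfl, .skip S⟩

lemma Runs.push (k : I) (b : Bool) (S : I → List Bool) :
    Runs (.push k b) S (update S k (b :: S k)) 1 := ⟨1, le_rfl, .push k b S⟩

lemma Runs.seq {p q : Prog I} {S S' S'' : I → List Bool} {t t' : ℕ} (h1 : Runs p S S' t)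
    (h2 : Runs q S' S'' t') : Runs (.seq p q) S S'' (t + t') := by
  obtain ⟨n, hn, h1⟩ := h1
  obtain ⟨m, hm, h2⟩ := h2
  exact ⟨n + m, add_le_add hn hm, .seq h1 h2⟩

lemma Runs.loop_nil {k : I} {pf pt : Prog I} {S : I → List Bool} (h : S k = []) :
    Runs (.loop k pf pt) S S 1 := ⟨1, le_rfl, .loop_nil h⟩

lemma Runs.loop_cons {k : I} {pf pt : Prog I} {S S' S'' : I → List Bool} {b : Bool}
    {l : List Bool} {t t' : ℕ} (h : S k = b :: l)
    (h1 : Runs (if b then pt else pf) (update S k l) S' t)
    (h2 : Runs (.loop k pf pt) S' S'' t') : Runs (.loop k pf pt) S S'' (1 + t + t') := by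
  obtain ⟨n, hn, h1⟩ := h1
  obtain ⟨m, hm, h2⟩ := h2
  cases b
  · exact ⟨1 + n + m, by omega, .loop_false h h1 h2⟩
  · exact ⟨1 + n + m, by omega, .loop_true h h1 h2⟩

lemma Runs.ifp {k : I} {pn pf pt : Prog I} {S S' : I → List Bool} {b : Bool}
    {l : List Bool} {t : ℕ} (h : S k = b :: l)
    (h1 : Runs (if b then pt else pf) (update S k l) S' t) :
    Runs (.ifp k pn pf pt) S S' (1 + t) := by
  obtain ⟨n, hn, h1⟩ := h1
  cases b
  · exact ⟨1 + n, by omega, .ifp_false h h1⟩
  · exact ⟨1 + n, by omega, .ifp_true h h1⟩

/-- Loop rule for a unary counter. -/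
lemma Runs.loop_unary {k : I} {pf pt : Prog I} {t : ℕ} :
    ∀ (n : ℕ) (s : ℕ → I → List Bool), (∀ j ≤ n, s j k = List.replicate (n - j) true) →
    (∀ j < n, Runs pt (update (s j) k (List.replicate (n - (j + 1)) true)) (s (j + 1)) t) →
    Runs (.loop k pf pt) (s 0) (s n) (n * (t + 1) + 1) := by
  intro n
  induction n with
  | zero =>
    intro s h1 _
    exact (Runs.loop_nil (by simpa using h1 0 le_rfl)).mono (by simp)
  | succ n ih =>
    intro s h1 h2
    have h3 := ih (fun j => s (j + 1))
      (fun j hj => by
        have := h1 (j + 1) (by omega)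
        rw [this]; congr 1; omega)
      (fun j hj => by
        have := h2 (j + 1) (by omega)
        have e : n + 1 - (j + 1 + 1) = n - (j + 1) := by omega
        rw [e] at this
        exact this)
    have h4 := h1 0 (Nat.zero_le _)
    rw [Nat.sub_zero, List.replicate_succ] at h4
    have h5 := h2 0 (Nat.succ_pos _)
    have e : n + 1 - (0 + 1) = n := by omega
    rw [e] at h5
    refine (Runs.loop_cons h4 (by simpa using h5) h3).mono ?_
    rw [Nat.succ_mul]; omega

/-! ### Moving and clearing stacks -/

/-- Move stack `k` onto stack `k'` (reversing it). -/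
def pour (k k' : I) : Prog I := .loop k (.push k' false) (.push k' true)

lemma Runs.pour {k k' : I} (h : k ≠ k') : ∀ (l : List Bool) (S : I → List Bool), S k = l →
    Runs (pour k k') S (update (update S k []) k' (l.reverse ++ S k')) (2 * l.length + 1) := by
  intro l
  induction l with
  | nil =>
    intro S hS
    have e : update (update S k []) k' (([] : List Bool).reverse ++ S k') = S := by
      rw [← hS, update_eq_self, hS, List.reverse_nil, List.nil_append, update_eq_self]
    rw [e]
    exact Runs.loop_nil hS
  | cons b l ih =>
    intro S hS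
    have h1 : Runs (if b then (.push k' true) else (.push k' false)) (update S k l)
        (update (update S k l) k' (b :: (update S k l) k')) 1 := by
      cases b
      · exact Runs.push k' false _
      · exact Runs.push k' true _
    have h2 := ih (update (update S k l) k' (b :: (update S k l) k')) (by
      rw [update_of_ne h, update_self])
    have e : update (update (update (update S k l) k' (b :: (update S k l) k')) k []) k'
        (l.reverse ++ (update (update S k l) k' (b :: (update S k l) k')) k') =
        update (update S k []) k' ((b :: l).reverse ++ S k') := by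
      funext j
      by_cases hj : j = k'
      · subst hj; simp [update_of_ne h.symm]
      · by_cases hj' : j = k
        · subst hj'; simp [update_of_ne hj]
        · simp [update_of_ne hj, update_of_ne hj']
    rw [e] at h2
    exact (Runs.loop_cons hS h1 h2).mono (by simp; omega)

/-- Empty stack `k`. -/
def clear (k : I) : Prog I := .loop k .skip .skip

lemma Runs.clear {k : I} : ∀ (l : List Bool) (S : I → List Bool), S k = l →
    Runs (clear k) S (update S k []) (2 * l.length + 1) := by
  intro l
  induction l with
  | nil =>
    intro S hS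
    have e : update S k [] = S := by rw [← hS, update_eq_self]
    rw [e]
    exact Runs.loop_nil hS
  | cons b l ih =>
    intro S hS
    have h1 : Runs (if b then .skip else .skip) (update S k l) (update S k l) 1 := by
      cases b <;> exact Runs.skip _
    have h2 := ih (update S k l) (by rw [update_self])
    rw [update_idem] at h2
    exact (Runs.loop_cons hS h1 h2).mono (by simp; omega)

/-- Push the bits of a list one after the other. -/
def pushes (k : I) : List Bool → Prog I
  | [] => .skip
  | b :: l => .seq (.push k b) (pushes k l)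

lemma Runs.pushes {k : I} : ∀ (l : List Bool) (S : I → List Bool),
    Runs (pushes k l) S (update S k (l.reverse ++ S k)) (l.length + 1) := by
  intro l
  induction l with
  | nil =>
    intro S
    rw [List.reverse_nil, List.nil_append, update_eq_self]
    exact Runs.skip S
  | cons b l ih =>
    intro S
    have h1 := Runs.push k b S
    have h2 := ih (update S k (b :: S k))
    have e : update (update S k (b :: S k)) k (l.reverse ++ (update S k (b :: S k)) k) =
        update S k ((b :: l).reverse ++ S k) := by
      simp
    rw [e] at h2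
    exact (Runs.seq h1 h2).mono (by simp; omega)

end Prog

end Pool.Agent.helper62
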