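import Pool.Agent.helper62.Verifier
import Pool.Agent.helper62.Prog
import Pool.Prelude.Def_F_458e953d

/-!
From a language in `NP` to runs of a rule machine.
-/

set_option autoImplicit false
set_option linter.unusedSimpArgs false
set_option linter.unusedSectionVars false

namespace Pool.Agent.helper62

open Turing N68a2faeb

/-! ### Encodings -/

lemma bitEncode_bool (b : Bool) : N487b59b3.bitEncode b = [b] := rfl

lemma bitEncode_list_bool (w : List Bool) : N487b59b3.bitEncode w = trip w := by
  change ((w.map N487b59b3.bitEncode).map N487b59b3.delimit).flatten = trip w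
  unfold trip
  induction w with
  | nil => rfl
  | cons b w ih =>
    rw [List.map_cons, List.map_cons, List.flatten_cons, ih, List.flatMap_cons]
    rfl

lemma delimit_append_aux (l l' : List Bool) :
    N487b59b3.delimit (l ++ l') = (l.flatMap (fun b => [true, b])) ++ N487b59b3.delimit l' := by
  induction l with
  | nil => rfl
  | cons b l ih => simp [N487b59b3.delimit, ih]

lemma delimit_trip (x : List Bool) :
    N487b59b3.delimit (trip x) = (pushWord x).reverse ++ [false] := by
  induction x with
  | nil => rfl
  | cons b x ih =>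
    have e : trip (b :: x) = [true, b, false] ++ trip x := by simp [trip]
    rw [e, delimit_append_aux, ih]
    simp [pushWord]

lemma encode_pair (x w : List Bool) :
    (N487b59b3.toEncoding (α := List Bool × List Bool)).encode (x, w) = initWord x w := by
  change N487b59b3.delimit (N487b59b3.bitEncode x) ++ N487b59b3.bitEncode w = _
  rw [bitEncode_list_bool, bitEncode_list_bool, delimit_trip]
  simp [initWord]

lemma length_trip (w : List Bool) : (trip w).length = 3 * w.length := by
  induction w with
  | nil => rfl
  | cons b w ih => simp [trip] at ih ⊢; omega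

lemma length_pushWord (x : List Bool) : (pushWord x).length = 6 * x.length := by
  have : ∀ y : List Bool, (y.flatMap (fun b => [false, true, b, true, true, true])).length =
      6 * y.length := by
    intro y
    induction y with
    | nil => rfl
    | cons b y ih => simp at ih ⊢; omega
  rw [pushWord, this, List.length_reverse]

lemma length_initWord (x w : List Bool) :
    (initWord x w).length = 6 * x.length + 1 + 3 * w.length := by
  simp [initWord, length_trip, length_pushWord]; omega

lemma eval_mono (p : Polynomial ℕ) {a b : ℕ} (h : a ≤ b) : p.eval a ≤ p.eval b := by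
  rw [Polynomial.eval_eq_sum, Polynomial.eval_eq_sum, Polynomial.sum, Polynomial.sum]
  apply Finset.sum_le_sum
  intro i _
  exact Nat.mul_le_mul_left _ (Nat.pow_le_pow_left h i)

/-! ### Data of a reduction -/

/-- The rule lists and polynomials describing a reduction to runs of a rule machine. -/
structure RData where
  Q : Type
  K : Type
  A : Type
  fK : Fintype K
  dK : DecidableEq K
  q0 : Q
  qa : Q
  ks : List K
  as : List (Option A)
  A1 : List (Rule Q K A)
  A2 : List (Rule Q K A)
  A3 : List (Rule Q K A)
  B : List (Rule Q K A)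
  C : Bool → List (Rule Q K A)
  D : List (Rule Q K A)
  main : List (Rule Q K A)
  qp : Polynomial ℕ
  np : Polynomial ℕ

attribute [instance] RData.fK RData.dK

/-- The shape of the list of levels. -/
def shape {α : Type*} (a1 a2 a3 b : α) (c : Bool → α) (d mn : α) (q : ℕ) (x : List Bool) (N : ℕ) :
    List α :=
  (List.replicate q [a1, a2, a3]).flatten ++ (b ::
    (x.reverse.flatMap (fun e => [c false, c true, c e, c true, c true, c true]) ++
      (d :: List.replicate N mn)))

lemma length_shape {α : Type*} (a1 a2 a3 b : α) (c : Bool → α) (d mn : α) (q : ℕ) (x : List Bool)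
    (N : ℕ) : (shape a1 a2 a3 b c d mn q x N).length = 3 * q + 6 * x.length + 2 + N := by
  have h1 : ∀ y : List Bool,
      (y.flatMap (fun e => [c false, c true, c e, c true, c true, c true])).length =
      6 * y.length := by
    intro y
    induction y with
    | nil => rfl
    | cons b y ih => simp at ih ⊢; omega
  simp only [shape, List.length_append, List.length_cons, h1, List.length_reverse,
    List.length_replicate, List.length_flatten, List.map_replicate, List.sum_replicate,
    List.length_nil, smul_eq_mul]
  omega

lemma map_shape {α β : Type*} (f : α → β) (a1 a2 a3 b : α) (c : Bool → α) (d mn : α) (q : ℕ)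
    (x : List Bool) (N : ℕ) : (shape a1 a2 a3 b c d mn q x N).map f =
      shape (f a1) (f a2) (f a3) (f b) (fun e => f (c e)) (f d) (f mn) q x N := by
  simp [shape, List.map_flatMap, List.map_flatten]

lemma mem_shape {α : Type*} {a1 a2 a3 b : α} {c : Bool → α} {d mn : α} {q : ℕ} {x : List Bool}
    {N : ℕ} {r : α} (h : r ∈ shape a1 a2 a3 b c d mn q x N) :
    r = a1 ∨ r = a2 ∨ r = a3 ∨ r = b ∨ (∃ e, r = c e) ∨ r = d ∨ r = mn := by
  simp only [shape, List.mem_append, List.mem_flatten, List.mem_replicate, List.mem_cons,
    List.mem_flatMap, List.mem_reverse, List.not_mem_nil, or_false] at h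
  rcases h with ⟨l, ⟨_, rfl⟩, h⟩ | h | ⟨e, _, h⟩ | h | ⟨_, h⟩
  · simp only [List.mem_cons, List.not_mem_nil, or_false] at h
    tauto
  · tauto
  · rcases h with h | h | h | h | h | h <;> exact Or.inr (Or.inr (Or.inr (Or.inr (Or.inl ⟨_, h⟩))))
  · tauto
  · tauto

namespace RData

variable (D : RData)

/-- the list of levels for an input -/
def levels (x : List Bool) : List (List (Rule D.Q D.K D.A)) :=
  shape D.A1 D.A2 D.A3 D.B D.C D.D D.main (D.qp.eval x.length) x (D.np.eval x.length)

/-- Well-formedness -/
structure Ok : Prop where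
  hks : ∀ k, k ∈ D.ks
  hnd : D.ks.Nodup
  hnone : none ∈ D.as
  hasn : D.as.Nodup
  nodup : ∀ R, R = D.A1 ∨ R = D.A2 ∨ R = D.A3 ∨ R = D.B ∨ (∃ e, R = D.C e) ∨ R = D.D ∨
    R = D.main → R.Nodup ∧ ∀ ρ ∈ R, ∀ k a, ρ.op = .push k a → some a ∈ D.as

/-- `D` describes the language `L`. -/
def Decides (L : List Bool → Bool) : Prop :=
  ∀ x, L x = true ↔ ∃ Sa, Run (D.levels x) D.q0 (fun _ => []) D.qa Sa

end RData

/-! ### Determinism -/

lemma iterate_none {α : Type*} (f : α → Option α) (j : ℕ) :
    (flip bind f)^[j] (none : Option α) = none := by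
  induction j with
  | zero => rfl
  | succ j ih => rw [Function.iterate_succ_apply]; exact ih

lemma halt_unique {α : Type*} (f : α → Option α) {c c1 c2 : α} {a b : ℕ}
    (h1 : (flip bind f)^[a] (some c) = some c1) (h2 : (flip bind f)^[b] (some c) = some c2)
    (e1 : f c1 = none) (e2 : f c2 = none) : c1 = c2 := by
  have key : ∀ (a b : ℕ) (c1 c2 : α), a ≤ b → (flip bind f)^[a] (some c) = some c1 →
      (flip bind f)^[b] (some c) = some c2 → f c1 = none → c1 = c2 := by
    intro a b c1 c2 hab h1 h2 e1
    obtain ⟨d, rfl⟩ := Nat.exists_eq_add_of_le hab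
    rw [Nat.add_comm, Function.iterate_add_apply, h1] at h2
    cases d with
    | zero => simpa using h2
    | succ d =>
      rw [Function.iterate_succ_apply] at h2
      have : flip bind f (some c1) = none := e1
      rw [this, iterate_none] at h2
      cases h2
  rcases Nat.le_total a b with h | h
  · exact key a b c1 c2 h h1 h2 e1
  · exact (key b a c2 c1 h h2 h1 e2).symm

/-! ### The verifier -/

section verifier

variable {R : List Bool × List Bool → Bool}

variable (comp : TM2ComputableInPolyTime
  (N487b59b3.toEncoding (α := List Bool × List Bool)).encode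
  (N487b59b3.toEncoding (α := Bool)).encode R)

noncomputable def vLs : List comp.tm.Λ :=
  letI := comp.tm.ΛFin
  (Finset.univ : Finset comp.tm.Λ).toList

noncomputable def vVs : List comp.tm.σ :=
  letI := comp.tm.σFin
  (Finset.univ : Finset comp.tm.σ).toList

noncomputable def vAs : List (VA comp.tm.Γ) :=
  letI := comp.tm.Γk₀Fin
  ((Finset.univ : Finset (comp.tm.Γ comp.tm.k₀)).toList.map (Sigma.mk comp.tm.k₀)) ++
    (vLs comp).flatMap (fun l => pushes (vVs comp) (comp.tm.m l))

noncomputable def vMain : List (Rule (VQ comp.tm.Γ comp.tm.Λ comp.tm.σ) comp.tm.K (VA comp.tm.Γ)) :=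
  mainRules comp.tm.m (vAs comp) comp.tm.k₁ (comp.outputAlphabet.symm true) (vLs comp) (vVs comp)

/-- bound on the size of the statements -/
noncomputable def vB : ℕ := ((vLs comp).map (fun l => size (comp.tm.m l))).sum

lemma mem_vLs (l : comp.tm.Λ) : l ∈ vLs comp := by simp [vLs]
lemma mem_vVs (v : comp.tm.σ) : v ∈ vVs comp := by simp [vVs]

lemma size_le_vB (l : comp.tm.Λ) : size (comp.tm.m l) ≤ vB comp :=
  List.single_le_sum (by simp) _ (List.mem_map.2 ⟨l, mem_vLs comp l, rfl⟩)

lemma verifier_iff (q : ℕ) (x : List Bool) (N : ℕ)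
    (hN : comp.time.eval (6 * x.length + 1 + 3 * q) * vB comp + 1 ≤ N) :
    (∃ Sa, Run (levels comp.tm.m comp.tm.k₀ (fun b => comp.inputAlphabet.symm b) comp.tm.main
      comp.tm.initialState (vMain comp) q x N) .g0 (fun _ => []) .acc Sa) ↔
    ∃ w : List Bool, w.length ≤ q ∧ R (x, w) = true := by
  constructor
  · rintro ⟨Sa, h⟩
    obtain ⟨w, hw, h⟩ := (levels_iff _ _ _ _ _ _ _ _ _ _ _).1 h
    refine ⟨w, hw, ?_⟩
    obtain ⟨j, v', S', h1, h2⟩ := main_sound _ _ _ _ N _ _ _ _ h
    obtain ⟨⟨steps, hev⟩, hle⟩ := comp.outputsFun (x, w)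
    rw [encode_pair] at hev
    have hinit : (flip bind (TM2.step comp.tm.m))^[j+1]
        (some (initList comp.tm (List.map comp.inputAlphabet.invFun (initWord x w)))) =
        some ⟨none, v', S'⟩ := by
      rw [Function.iterate_succ_apply]
      have : flip bind (TM2.step comp.tm.m)
          (some (initList comp.tm (List.map comp.inputAlphabet.invFun (initWord x w)))) =
          some (TM2.stepAux (comp.tm.m comp.tm.main) comp.tm.initialState
            (initList comp.tm (List.map comp.inputAlphabet.invFun (initWord x w))).stk) := rfl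
      rw [this, initList_stk]
      exact h1
    have huniq := halt_unique (TM2.step comp.tm.m) hinit hev rfl rfl
    have hstk : S' = (haltList comp.tm (List.map comp.outputAlphabet.invFun
        (N487b59b3.toEncoding.encode (R (x, w))))).stk := by rw [← huniq]
    rw [hstk, haltList_stk] at h2
    have : (N487b59b3.toEncoding.encode (R (x, w)) : List Bool) = [R (x, w)] := rfl
    rw [this] at h2
    simpa using h2
  · rintro ⟨w, hw, hR⟩
    obtain ⟨⟨steps, hev⟩, hle⟩ := comp.outputsFun (x, w)
    simp only at hle
    rw [encode_pair] at hev hle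
    have hlen : (initWord x w).length ≤ 6 * x.length + 1 + 3 * q := by
      rw [length_initWord]; omega
    have hsteps : steps ≤ comp.time.eval (6 * x.length + 1 + 3 * q) :=
      hle.trans (eval_mono _ hlen)
    have hsym : SymOK (vAs comp)
        (initList comp.tm (List.map comp.inputAlphabet.invFun (initWord x w))).stk := by
      rw [initList_stk]
      intro k g hg
      by_cases hk : k = comp.tm.k₀
      · subst hk
        simp [vAs]
      · rw [Function.update_of_ne hk] at hg
        simp at hg
    obtain ⟨n, hn, hrun, _⟩ := main_complete_steps comp.tm.m (vAs comp) comp.tm.k₁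
      (comp.outputAlphabet.symm true) (mem_vLs comp) (mem_vVs comp)
      (fun l a ha => by
        simp only [vAs, List.mem_append, List.mem_flatMap]
        exact Or.inr ⟨l, mem_vLs comp l, ha⟩) (vB comp) (size_le_vB comp) steps _ _ hev hsym
    have hn' : n + 1 ≤ N := by
      have : steps * vB comp ≤ comp.time.eval (6 * x.length + 1 + 3 * q) * vB comp :=
        Nat.mul_le_mul_right _ hsteps
      omega
    obtain ⟨r, rfl⟩ := Nat.exists_eq_add_of_le hn'
    refine ⟨stkOf (haltList comp.tm (List.map comp.outputAlphabet.invFun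
      (N487b59b3.toEncoding.encode (R (x, w))))).stk, ?_⟩
    rw [levels_iff]
    refine ⟨w, hw, ?_⟩
    have e : n + 1 + r = n + (1 + r) := by omega
    rw [e, List.replicate_add]
    rw [initList_stk] at hrun
    refine Run.append hrun ?_
    rw [Nat.add_comm, List.replicate_succ]
    have hacc : ∀ (r : ℕ) (S : comp.tm.K → List (VA comp.tm.Γ)),
        Run (List.replicate r (vMain comp)) .acc S .acc S := by
      intro r S
      induction r with
      | zero => exact Run.nil _ _
      | succ r ih =>
        rw [List.replicate_succ]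
        exact Run.cons ⟨.acc, .nop, .acc⟩ ((mem_mainRules _ _ _ _).2 (Or.inr (Or.inr rfl))) rfl rfl ih
    refine Run.cons ⟨.run .halt comp.tm.initialState,
      .peek comp.tm.k₁ (some ⟨comp.tm.k₁, comp.outputAlphabet.symm true⟩), .acc⟩ ?_ rfl ⟨?_, rfl⟩
      (hacc _ _)
    · exact (mem_mainRules _ _ _ _).2 (Or.inr (Or.inl ⟨comp.tm.initialState, mem_vVs comp _,
        by simp [rulesOf]⟩))
    · rw [haltList_stk]
      have : (N487b59b3.toEncoding.encode (R (x, w)) : List Bool) = [R (x, w)] := rfl
      rw [this, hR]
      simp [stkOf]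

end verifier

lemma run_map_dedup {Q K A : Type} [DecidableEq K] [DecidableEq (Rule Q K A)] :
    ∀ (L : List (List (Rule Q K A))) (q q' : Q) (S S' : K → List A),
    Run (L.map List.dedup) q S q' S' ↔ Run L q S q' S' := by
  intro L
  induction L with
  | nil => intro q q' S S'; exact Iff.rfl
  | cons R L ih =>
    intro q q' S S'
    rw [List.map_cons, run_cons_iff, run_cons_iff]
    simp only [List.mem_dedup, ih]

/-- pushed symbols -/
def pushedSyms {Q K A : Type} (R : List (Rule Q K A)) : List (Option A) :=
  R.filterMap (fun ρ => match ρ.op with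
    | .push _ a => some (some a)
    | _ => none)

lemma mem_pushedSyms {Q K A : Type} {R : List (Rule Q K A)} {ρ : Rule Q K A} (h : ρ ∈ R) {k : K}
    {a : A} (hp : ρ.op = .push k a) : some a ∈ pushedSyms R := by
  rw [pushedSyms, List.mem_filterMap]
  exact ⟨ρ, h, by rw [hp]⟩

theorem exists_rdata {Q K A : Type} [Fintype K] [DecidableEq K] (q0 qa : Q)
    (A1 A2 A3 B : List (Rule Q K A)) (C : Bool → List (Rule Q K A)) (Dd mn : List (Rule Q K A))
    (qp np : Polynomial ℕ) (L : List Bool → Bool)
    (h : ∀ x, L x = true ↔ ∃ Sa, Run (shape A1 A2 A3 B C Dd mn (qp.eval x.length) x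
      (np.eval x.length)) q0 (fun _ => []) qa Sa) :
    ∃ D : RData, D.Ok ∧ D.Decides L := by
  classical
  let as : List (Option A) :=
    (none :: pushedSyms (A1 ++ A2 ++ A3 ++ B ++ C false ++ C true ++ Dd ++ mn)).dedup
  let D : RData :=
    { Q := Q, K := K, A := A, fK := inferInstance, dK := inferInstance
      q0 := q0, qa := qa
      ks := (Finset.univ : Finset K).toList
      as := as
      A1 := A1.dedup, A2 := A2.dedup, A3 := A3.dedup, B := B.dedup, C := fun b => (C b).dedup,
      D := Dd.dedup, main := mn.dedup
      qp := qp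
      np := np }
  refine ⟨D, ⟨?_, ?_, ?_, ?_, ?_⟩, ?_⟩
  · intro k; simp [D]
  · exact Finset.nodup_toList _
  · simp [D, as]
  · exact List.nodup_dedup _
  · intro R hR
    constructor
    · rcases hR with rfl | rfl | rfl | rfl | ⟨e, rfl⟩ | rfl | rfl <;> exact List.nodup_dedup _
    · intro ρ hρ k a hop
      simp only [D, as, List.mem_dedup, List.mem_cons]
      right
      refine mem_pushedSyms (ρ := ρ) ?_ hop
      simp only [List.mem_append]
      rcases hR with rfl | rfl | rfl | rfl | ⟨e, rfl⟩ | rfl | rfl <;>
        simp only [D, List.mem_dedup] at hρ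
      · tauto
      · tauto
      · tauto
      · tauto
      · cases e <;> tauto
      · tauto
      · tauto
  · intro x
    rw [h x]
    have hlev : D.levels x = (shape A1 A2 A3 B C Dd mn (qp.eval x.length) x
      (np.eval x.length)).map List.dedup := by
      rw [map_shape]
      rfl
    rw [hlev]
    exact exists_congr fun Sa => (run_map_dedup _ _ _ _ _).symm

/-- Every language in `NP` is described by rule data. -/
theorem np_rdata (L : List Bool → Bool) (hL : L ∈ NP) : ∃ D : RData, D.Ok ∧ D.Decides L := by
  obtain ⟨q, R, ⟨comp⟩, hR⟩ := hL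
  let _ : Fintype comp.tm.K := comp.tm.kFin
  refine exists_rdata VQ.g0 VQ.acc
    (lvA1 (Λ := comp.tm.Λ) (σ := comp.tm.σ) comp.tm.k₀ (fun b => comp.inputAlphabet.symm b))
    (lvA2 comp.tm.k₀ (fun b => comp.inputAlphabet.symm b))
    (lvA3 comp.tm.k₀ (fun b => comp.inputAlphabet.symm b))
    (lvB comp.tm.k₀ (fun b => comp.inputAlphabet.symm b))
    (lvC comp.tm.k₀ (fun b => comp.inputAlphabet.symm b))
    (lvD comp.tm.m comp.tm.main comp.tm.initialState) (vMain comp) q
    (comp.time.comp (6 * Polynomial.X + 1 + 3 * q) * (vB comp : Polynomial ℕ) + 1) L ?_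
  intro x
  rw [hR x]
  exact (verifier_iff comp (q.eval x.length) x _ (by simp [Polynomial.eval_comp])).symm

end Pool.Agent.helper62
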