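import Pool.Agent.H54.PT.Enc

/-!
# Polynomial-time predicates of two words, and membership in NP

`Cp2`, `Cq2` are the analogues of `Cp`, `Cq` for functions and predicates of two input words
(given as the code of the pair). `mem_NP` shows that a language is in `NP` when it has a verifier
in `Cq2`.
-/

set_option linter.unusedVariables false

namespace Pool.Agent.helper62.PairPT

open Pool.Agent.H54.PT Pool.Agent.helper62 Prog Function N68a2faeb N793a5b8e

/-- A function whose values are written by a program reading the code of the input. -/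
theorem isPolyTime_raw {α β : Type} [N487b59b3 α] [N487b59b3 β] {F : α → β} {w : Wd} (hw : Dp w)
    (h : ∀ a, N487b59b3.bitEncode (F a) = w (N487b59b3.bitEncode a) (fun _ => 0)) :
    IsPolyTime F := by
  obtain ⟨c, hc⟩ := hw
  obtain ⟨p, hp⟩ := hc (fun _ => 0) 1 (fun _ => Nat.one_pos)
  let P : Prog ℕ := .seq p (.seq (clear 0) (writeProg (fun b => [b])))
  let C : Polynomial ℕ := c + ((2 * Polynomial.X + 1) + (c * 4 + 1))
  have hP : ∀ x : List Bool, Runs P (update (fun _ => []) 0 x)
      (update (fun _ => []) 3 (w x (fun _ => 0))) (C.eval x.length) := by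
    intro x
    have g3 := hp x.length x [] 0 le_rfl (fun i => Nat.zero_le _) (fun i _ => rfl)
    have e : (fun _ : ℕ => (0 : ℕ → ℕ) ((fun _ => 0) (0 : ℕ))) = (fun _ => 0) := rfl
    have hlen : (w x (fun _ => 0)).length ≤ c.eval x.length := by
      have := runs_length_le g3 2
      simp only [st_2, List.append_nil, List.length_reverse, List.length_nil, Nat.zero_add] at this
      exact this
    have g4 : Runs (clear 0) (st x [] ((w x fun _ => 0).reverse ++ []) [] 0)
        (st [] [] ((w x fun _ => 0).reverse ++ []) [] 0) (2 * x.length + 1) := by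
      have := Runs.clear (k := 0) x (st x [] ((w x fun _ => 0).reverse ++ []) [] 0) rfl
      rw [upd_0] at this
      exact this
    have g5 := runs_write (fun b => [b]) 0 ((w x fun _ => 0).reverse ++ []) []
    rw [← st_in, ← st_out]
    refine (g3.seq (g4.seq g5)).mono' ?_ ?_
    · simp
    · have i1 : ((w x fun _ => 0).reverse ++ []).length * 4 ≤ c.eval x.length * 4 :=
        Nat.mul_le_mul_right _ (by simpa using hlen)
      simp only [C, Polynomial.eval_add, Polynomial.eval_mul, Polynomial.eval_X,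
        Polynomial.eval_ofNat, Polynomial.eval_one, List.length_append,
        List.length_reverse, List.length_nil, List.length_cons] at i1 ⊢
      omega
  obtain ⟨m0, hm0⟩ := exists_supp P
  let m := m0 + 4
  have hm : Supp (m + 1) P := hm0.mono (by omega)
  refine ⟨Prog.toPolyTime (toFin m P) (Fin.ofNat (m + 1) 0) (Fin.ofNat (m + 1) 3) _ _ F C
    (fun a => ?_)⟩
  obtain ⟨n, hn, he⟩ := hP (N487b59b3.bitEncode a)
  have h1 := exec_toFin he hm
  rw [update_val (by omega), update_val (by omega), ← h a] at h1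
  exact ⟨n, hn, h1⟩

/-! ### Functions of two words -/

/-- functions of two words and of variables -/
def Cp2 (f : List Bool → List Bool → (ℕ → ℕ) → ℕ) : Prop :=
  ∃ F : Fn, Cp F ∧ ∀ x y v, F (N487b59b3.bitEncode (x, y)) v = f x y v

/-- predicates of two words and of variables -/
def Cq2 (P : List Bool → List Bool → (ℕ → ℕ) → Prop) : Prop :=
  ∃ Q : Pr, Cq Q ∧ ∀ x y v, Q (N487b59b3.bitEncode (x, y)) v ↔ P x y v

section closure

variable {f g h : List Bool → List Bool → (ℕ → ℕ) → ℕ}
  {P Q : List Bool → List Bool → (ℕ → ℕ) → Prop}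

theorem Cp2.congr (hf : Cp2 f) (e : ∀ x y v, f x y v = g x y v) : Cp2 g := by
  obtain ⟨F, hF, e'⟩ := hf
  exact ⟨F, hF, fun x y v => (e' x y v).trans (e x y v)⟩

theorem Cq2.congr (hf : Cq2 P) (e : ∀ x y v, P x y v ↔ Q x y v) : Cq2 Q := by
  obtain ⟨F, hF, e'⟩ := hf
  exact ⟨F, hF, fun x y v => (e' x y v).trans (e x y v)⟩

theorem Cp2.var (i : ℕ) : Cp2 (fun _ _ v => v i) := ⟨_, Cp.var i, fun _ _ _ => rfl⟩

theorem Cp2.const (n : ℕ) : Cp2 (fun _ _ _ => n) := ⟨_, Cp.const n, fun _ _ _ => rfl⟩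

theorem Cp2.add (hf : Cp2 f) (hg : Cp2 g) : Cp2 (fun x y v => f x y v + g x y v) := by
  obtain ⟨F, hF, e⟩ := hf
  obtain ⟨G, hG, e'⟩ := hg
  exact ⟨_, hF.add hG, fun x y v => by rw [e, e']⟩

theorem Cp2.sub (hf : Cp2 f) (hg : Cp2 g) : Cp2 (fun x y v => f x y v - g x y v) := by
  obtain ⟨F, hF, e⟩ := hf
  obtain ⟨G, hG, e'⟩ := hg
  exact ⟨_, hF.sub hG, fun x y v => by rw [e, e']⟩

theorem Cp2.mul (hf : Cp2 f) (hg : Cp2 g) : Cp2 (fun x y v => f x y v * g x y v) := by
  obtain ⟨F, hF, e⟩ := hf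
  obtain ⟨G, hG, e'⟩ := hg
  exact ⟨_, hF.mul hG, fun x y v => by rw [e, e']⟩

theorem Cp2.div (hf : Cp2 f) (hg : Cp2 g) : Cp2 (fun x y v => f x y v / g x y v) := by
  obtain ⟨F, hF, e⟩ := hf
  obtain ⟨G, hG, e'⟩ := hg
  exact ⟨_, hF.div hG, fun x y v => by rw [e, e']⟩

theorem Cp2.mod (hf : Cp2 f) (hg : Cp2 g) : Cp2 (fun x y v => f x y v % g x y v) := by
  obtain ⟨F, hF, e⟩ := hf
  obtain ⟨G, hG, e'⟩ := hg
  exact ⟨_, hF.mod hG, fun x y v => by rw [e, e']⟩

theorem Cp2.rename (hf : Cp2 f) (σ : ℕ → ℕ) : Cp2 (fun x y v => f x y (fun i => v (σ i))) := by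
  obtain ⟨F, hF, e⟩ := hf
  exact ⟨_, hF.rename σ, fun x y v => by rw [e]⟩

theorem Cp2.letE (hf : Cp2 f) (hg : Cp2 g) : Cp2 (fun x y v => g x y (cons (f x y v) v)) := by
  obtain ⟨F, hF, e⟩ := hf
  obtain ⟨G, hG, e'⟩ := hg
  exact ⟨_, Cp.letE hF hG, fun x y v => by rw [e, e']⟩

theorem Cp2.sum {b : List Bool → List Bool → (ℕ → ℕ) → ℕ}
    {f : List Bool → List Bool → (ℕ → ℕ) → ℕ → ℕ} (hb : Cp2 b)
    (hf : Cp2 (fun x y v => f x y (fun i => v (i + 1)) (v 0))) :
    Cp2 (fun x y v => ∑ i ∈ Finset.range (b x y v), f x y v i) := by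
  obtain ⟨F, hF, e⟩ := hf
  obtain ⟨B, hB, e'⟩ := hb
  refine ⟨_, Cp.sum hB hF, fun x y v => ?_⟩
  rw [e']
  refine Finset.sum_congr rfl fun i _ => ?_
  rw [e]
  rfl

theorem Cq2.not (hP : Cq2 P) : Cq2 (fun x y v => ¬ P x y v) := by
  obtain ⟨F, hF, e⟩ := hP
  exact ⟨_, hF.not, fun x y v => by rw [e]⟩

theorem Cq2.and (hP : Cq2 P) (hQ : Cq2 Q) : Cq2 (fun x y v => P x y v ∧ Q x y v) := by
  obtain ⟨F, hF, e⟩ := hP
  obtain ⟨G, hG, e'⟩ := hQ
  exact ⟨_, hF.and hG, fun x y v => by rw [e, e']⟩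

theorem Cq2.or (hP : Cq2 P) (hQ : Cq2 Q) : Cq2 (fun x y v => P x y v ∨ Q x y v) := by
  obtain ⟨F, hF, e⟩ := hP
  obtain ⟨G, hG, e'⟩ := hQ
  exact ⟨_, hF.or hG, fun x y v => by rw [e, e']⟩

theorem Cq2.imp (hP : Cq2 P) (hQ : Cq2 Q) : Cq2 (fun x y v => P x y v → Q x y v) := by
  obtain ⟨F, hF, e⟩ := hP
  obtain ⟨G, hG, e'⟩ := hQ
  exact ⟨_, hF.imp hG, fun x y v => by rw [e, e']⟩

theorem Cq2.iff (hP : Cq2 P) (hQ : Cq2 Q) : Cq2 (fun x y v => P x y v ↔ Q x y v) := by
  obtain ⟨F, hF, e⟩ := hP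
  obtain ⟨G, hG, e'⟩ := hQ
  exact ⟨_, hF.iff hG, fun x y v => by rw [e, e']⟩

theorem Cq2.eq (hf : Cp2 f) (hg : Cp2 g) : Cq2 (fun x y v => f x y v = g x y v) := by
  obtain ⟨F, hF, e⟩ := hf
  obtain ⟨G, hG, e'⟩ := hg
  exact ⟨_, Cq.eq hF hG, fun x y v => by rw [e, e']⟩

theorem Cq2.lt (hf : Cp2 f) (hg : Cp2 g) : Cq2 (fun x y v => f x y v < g x y v) := by
  obtain ⟨F, hF, e⟩ := hf
  obtain ⟨G, hG, e'⟩ := hg
  exact ⟨_, Cq.lt hF hG, fun x y v => by rw [e, e']⟩

theorem Cq2.le (hf : Cp2 f) (hg : Cp2 g) : Cq2 (fun x y v => f x y v ≤ g x y v) := by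
  obtain ⟨F, hF, e⟩ := hf
  obtain ⟨G, hG, e'⟩ := hg
  exact ⟨_, Cq.le hF hG, fun x y v => by rw [e, e']⟩

theorem Cq2.ex {b : List Bool → List Bool → (ℕ → ℕ) → ℕ}
    {P : List Bool → List Bool → (ℕ → ℕ) → ℕ → Prop} (hb : Cp2 b)
    (hP : Cq2 (fun x y v => P x y (fun i => v (i + 1)) (v 0))) :
    Cq2 (fun x y v => ∃ i < b x y v, P x y v i) := by
  obtain ⟨F, hF, e⟩ := hP
  obtain ⟨B, hB, e'⟩ := hb
  refine ⟨_, Cq.ex hB hF, fun x y v => ?_⟩
  simp only [e', e]
  rfl

theorem Cq2.all {b : List Bool → List Bool → (ℕ → ℕ) → ℕ}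
    {P : List Bool → List Bool → (ℕ → ℕ) → ℕ → Prop} (hb : Cp2 b)
    (hP : Cq2 (fun x y v => P x y (fun i => v (i + 1)) (v 0))) :
    Cq2 (fun x y v => ∀ i < b x y v, P x y v i) := by
  obtain ⟨F, hF, e⟩ := hP
  obtain ⟨B, hB, e'⟩ := hb
  refine ⟨_, Cq.all hB hF, fun x y v => ?_⟩
  simp only [e', e]
  rfl

end closure

/-! ### Access to the two words -/

lemma bitEncode_pair (x y : List Bool) :
    N487b59b3.bitEncode (x, y) = dl (trp x) ++ false :: trp y := by
  change N487b59b3.delimit (N487b59b3.bitEncode x) ++ N487b59b3.bitEncode y = _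
  rw [delimit_eq, bitEncode_word, bitEncode_word, List.append_assoc]
  rfl

lemma dl_trp_cons (b : Bool) (x : List Bool) :
    dl (trp (b :: x)) = true :: true :: true :: b :: true :: false :: dl (trp x) := by
  rw [trp_cons]
  simp [dl]

lemma length_dl_trp (x : List Bool) : (dl (trp x)).length = 6 * x.length := by
  induction x with
  | nil => rfl
  | cons b x ih => rw [dl_trp_cons]; simp only [List.length_cons, ih]; omega

lemma getD_append_lt {l l' : List Bool} {i : ℕ} (h : i < l.length) :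
    (l ++ l').getD i false = l.getD i false := by
  simp [List.getD_eq_getElem?_getD, List.getElem?_append_left h]

lemma getD_append_ge (l l' : List Bool) (i : ℕ) :
    (l ++ l').getD (l.length + i) false = l'.getD i false := by
  simp [List.getD_eq_getElem?_getD, List.getElem?_append_right]

lemma getD_dl_trp (x z : List Bool) {i : ℕ} (h : i < x.length) :
    (dl (trp x) ++ z).getD (6 * i) false = true ∧
      (dl (trp x) ++ z).getD (6 * i + 3) false = x.getD i false := by
  induction x generalizing i with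
  | nil => simp at h
  | cons b x ih =>
    rw [dl_trp_cons]
    cases i with
    | zero => simp
    | succ i =>
      have := ih (i := i) (by simpa using h)
      have e1 : 6 * (i + 1) = 6 * i + 6 := by ring
      rw [e1]
      simpa using this

lemma getD_trp (y : List Bool) (i : ℕ) : (trp y).getD (3 * i + 1) false = y.getD i false := by
  induction y generalizing i with
  | nil => simp [trp]
  | cons b y ih =>
    rw [trp_cons]
    cases i with
    | zero => simp
    | succ i =>
      have e1 : 3 * (i + 1) + 1 = (3 * i + 1) + 3 := by ring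
      rw [e1]
      simpa using ih i

open Classical in
/-- the length of the first word -/
noncomputable def xlen (z : List Bool) : ℕ :=
  ((Finset.range z.length).filter (fun k => ∀ i < k + 1, z.getD (6 * i) false = true)).card

lemma xlen_pair (x y : List Bool) : xlen (N487b59b3.bitEncode (x, y)) = x.length := by
  classical
  unfold xlen
  rw [bitEncode_pair]
  have h : (Finset.range (dl (trp x) ++ false :: trp y).length).filter
      (fun k => ∀ i < k + 1, (dl (trp x) ++ false :: trp y).getD (6 * i) false = true) =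
      Finset.range x.length := by
    ext k
    simp only [Finset.mem_filter, Finset.mem_range]
    constructor
    · rintro ⟨_, h⟩
      by_contra hk
      have h1 := h x.length (by omega)
      have h2 := getD_append_ge (dl (trp x)) (false :: trp y) 0
      rw [length_dl_trp, Nat.add_zero, h1] at h2
      simp at h2
    · intro hk
      refine ⟨?_, fun i hi => (getD_dl_trp x _ (by omega)).1⟩
      rw [List.length_append, length_dl_trp]
      omega
  rw [h, Finset.card_range]

theorem Cp2.xlen : Cp2 (fun x _ _ => x.length) := by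
  classical
  refine ⟨fun z _ => PairPT.xlen z, ?_, fun x y v => xlen_pair x y⟩
  unfold PairPT.xlen
  refine Cp.count (b := fun z _ => z.length)
    (P := fun z _ k => ∀ i < k + 1, z.getD (6 * i) false = true) Cp.len ?_
  refine Cq.all' (b := fun _ v => v 0 + 1) (P := fun z _ i => z.getD (6 * i) false = true)
    (Cp.var 0).succ ?_
  exact Cq.bit ((Cp.const 6).mul (Cp.var 0))

theorem Cp2.ylen : Cp2 (fun _ y _ => y.length) := by
  obtain ⟨F, hF, e⟩ := Cp2.xlen
  refine ⟨fun z v => (z.length - (6 * F z v + 1)) / 3, ?_, fun x y v => ?_⟩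
  · exact (Cp.len.sub ((Cp.const 6).mul hF).succ).div (Cp.const 3)
  · beta_reduce
    rw [e, bitEncode_pair, List.length_append, length_dl_trp, List.length_cons, length_trp]
    beta_reduce
    omega

/-- bits of the first word -/
theorem Cq2.xbit {f : List Bool → List Bool → (ℕ → ℕ) → ℕ} (hf : Cp2 f) :
    Cq2 (fun x y v => x.getD (f x y v) false = true) := by
  obtain ⟨F, hF, e⟩ := Cp2.xlen
  obtain ⟨G, hG, e'⟩ := hf
  refine ⟨fun z v => G z v < F z v ∧ z.getD (6 * G z v + 3) false = true, ?_, fun x y v => ?_⟩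
  · exact (Cq.lt hG hF).and (Cq.bit (((Cp.const 6).mul hG).add (Cp.const 3)))
  · beta_reduce
    rw [e, e']
    constructor
    · rintro ⟨h1, h2⟩
      rw [bitEncode_pair, (getD_dl_trp x _ h1).2] at h2
      exact h2
    · intro h
      have h1 : f x y v < x.length := by
        by_contra h1
        rw [List.getD_eq_getElem?_getD, List.getElem?_eq_none (by omega)] at h
        simp at h
      refine ⟨h1, ?_⟩
      rw [bitEncode_pair, (getD_dl_trp x _ h1).2]
      exact h

/-- bits of the second word -/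
theorem Cq2.ybit {f : List Bool → List Bool → (ℕ → ℕ) → ℕ} (hf : Cp2 f) :
    Cq2 (fun x y v => y.getD (f x y v) false = true) := by
  obtain ⟨F, hF, e⟩ := Cp2.xlen
  obtain ⟨G, hG, e'⟩ := hf
  refine ⟨fun z v => z.getD (6 * F z v + (3 * G z v + 2)) false = true, ?_, fun x y v => ?_⟩
  · exact Cq.bit (((Cp.const 6).mul hF).add (((Cp.const 3).mul hG).add (Cp.const 2)))
  · beta_reduce
    rw [e, e', bitEncode_pair, ← length_dl_trp x, getD_append_ge, ← getD_trp y (f x y v)]
    rw [show 3 * f x y v + 2 = (3 * f x y v + 1) + 1 by ring, List.getD_cons_succ]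

/-! ### Membership in NP -/

/-- A language with a polynomial-time verifier is in `NP`. -/
theorem mem_NP {L : DecisionProblem} {V : List Bool → List Bool → Prop} (p : Polynomial ℕ)
    (hV : Cq2 (fun x y _ => V x y))
    (h : ∀ x, L x = true ↔ ∃ y : List Bool, y.length ≤ p.eval x.length ∧ V x y) : L ∈ NP := by
  classical
  obtain ⟨Q, hQ, e⟩ := hV
  refine ⟨p, fun z => decide (V z.1 z.2), ?_, fun x => ?_⟩
  · refine isPolyTime_raw (w := fun z v => if Q z v then [true] else [false])
      (Dp.iteP hQ (Dp.const _) (Dp.const _)) fun z => ?_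
    obtain ⟨x, y⟩ := z
    have h1 := e x y (fun _ => 0)
    change [decide (V x y)] = _
    by_cases h2 : V x y
    · rw [if_pos (h1.2 h2)]
      simp [h2]
    · rw [if_neg (fun h3 => h2 (h1.1 h3))]
      simp [h2]
  · rw [h x]
    simp

end Pool.Agent.helper62.PairPT
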