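import Pool.Agent.helper62.Regs

/-!
Programs writing letters, levels and documents.
-/

set_option autoImplicit false
set_option linter.unusedSimpArgs false
set_option linter.unusedSectionVars false

namespace Pool.Agent.helper62

open Function Prog

/-- Letter templates: a code, whether the level is raised, the position. -/
abbrev LT := ℕ × Bool × Pos

/-- The bits of a letter. -/
def letterBits (c i d : ℕ) : List Bool :=
  List.replicate c true ++ false :: (List.replicate i true ++ false :: List.replicate (d + 1) true)

def ltBits (t : LT) (i d : ℕ) : List Bool :=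
  letterBits t.1 (if t.2.1 then i + 1 else i) (t.2.2.val d)

/-- How bits and ends of letters are written. -/
structure Mode where
  code : Bool → List Bool
  fin : List Bool

def encLT (M : Mode) (i d : ℕ) (t : LT) : List Bool := (ltBits t i d).flatMap M.code ++ M.fin

def encLTs (M : Mode) (i d : ℕ) (l : List LT) : List Bool := l.flatMap (encLT M i d)

def encLevel (M : Mode) (i m : ℕ) (l : List LT) : List Bool :=
  (List.range (m + 1)).flatMap (fun d => encLTs M i d l)

def encLevels (M : Mode) (m : ℕ) : ℕ → List (List LT) → List Bool
  | _, [] => []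
  | i, l :: ls => encLevel M i m l ++ encLevels M m (i + 1) ls

lemma encLevels_append (M : Mode) (m : ℕ) (l1 l2 : List (List LT)) : ∀ i,
    encLevels M m i (l1 ++ l2) = encLevels M m i l1 ++ encLevels M m (i + l1.length) l2 := by
  induction l1 with
  | nil => intro i; simp [encLevels]
  | cons l ls ih =>
    intro i
    simp only [List.cons_append, encLevels, ih, List.append_assoc, List.length_cons]
    congr 3
    omega

/-! ### Output -/

/-- Append a word to the (reversed) output register. -/
def app (r : Regs) (l : List Bool) : Regs := { r with o := l.reverse ++ r.o }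

@[simp] lemma app_nil (r : Regs) : app r [] = r := by simp [app]
@[simp] lemma app_app (r : Regs) (l l' : List Bool) : app (app r l) l' = app r (l ++ l') := by
  simp [app]

def outp (l : List Bool) : Prog Stk := Prog.pushes Stk.ko l

lemma runs_outp (l : List Bool) (r : Regs) :
    Runs (outp l) (mkSt r) (mkSt (app r l)) (l.length + 1) := by
  have := Runs.pushes (k := Stk.ko) l (mkSt r)
  rwa [mk_o, set_o] at this

/-- Bounds on the registers used by writing programs. -/
def Bd (W : ℕ) (r : Regs) : Prop := r.tmp = 0 ∧ r.i ≤ W ∧ r.p ≤ W ∧ r.dd ≤ W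

lemma Bd.app {W : ℕ} {r : Regs} (h : Bd W r) (l : List Bool) : Bd W (app r l) := h

/-- `prog` writes the word `l i p`, with polynomial cost. -/
def Emits (prog : Prog Stk) (l : ℕ → ℕ → List Bool) : Prop :=
  ∃ c : Polynomial ℕ, ∀ W r, Bd W r → Runs prog (mkSt r) (mkSt (app r (l r.i r.p))) (c.eval W)

lemma Emits.congr {prog : Prog Stk} {l l' : ℕ → ℕ → List Bool} (h : Emits prog l)
    (e : ∀ i d, l i d = l' i d) : Emits prog l' := by
  have : l = l' := by funext i d; exact e i d
  exact this ▸ h

lemma Emits.outp (w : List Bool) : Emits (outp w) (fun _ _ => w) := by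
  refine ⟨((w.length + 1 : ℕ) : Polynomial ℕ), fun W r _ => ?_⟩
  rw [Polynomial.eval_natCast]
  exact runs_outp w r

lemma Emits.skip : Emits .skip (fun _ _ => []) := by
  refine ⟨1, fun W r _ => ?_⟩
  rw [Polynomial.eval_one, app_nil]
  exact Runs.skip _

lemma Emits.seq {p q : Prog Stk} {l l' : ℕ → ℕ → List Bool} (hp : Emits p l) (hq : Emits q l') :
    Emits (.seq p q) (fun i d => l i d ++ l' i d) := by
  obtain ⟨c, hc⟩ := hp
  obtain ⟨c', hc'⟩ := hq
  refine ⟨c + c', fun W r hr => ?_⟩
  rw [Polynomial.eval_add]
  have h1 := hc W r hr
  have h2 := hc' W (app r (l r.i r.p)) (hr.app _)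
  rw [app_app] at h2
  exact h1.seq h2

lemma reverse_replicate_true (n : ℕ) :
    (List.replicate n true).reverse = List.replicate n true := List.reverse_replicate ..

/-- pour the temporary counter back into `ki` -/
lemma pour_tmp_i (r : Regs) :
    Runs (pour .ktmp .ki) (mkSt r) (mkSt { r with tmp := 0, i := r.tmp + r.i })
      (2 * r.tmp + 1) := by
  have := Runs.pour (k := Stk.ktmp) (k' := Stk.ki) (by decide) (List.replicate r.tmp true)
    (mkSt r) rfl
  rw [zero_tmp, mk_i, reverse_replicate_true, List.replicate_append_replicate, set_i,
    List.length_replicate] at this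
  exact this

lemma pour_tmp_p (r : Regs) :
    Runs (pour .ktmp .kp) (mkSt r) (mkSt { r with tmp := 0, p := r.tmp + r.p })
      (2 * r.tmp + 1) := by
  have := Runs.pour (k := Stk.ktmp) (k' := Stk.kp) (by decide) (List.replicate r.tmp true)
    (mkSt r) rfl
  rw [zero_tmp, mk_p, reverse_replicate_true, List.replicate_append_replicate, set_p,
    List.length_replicate] at this
  exact this

/-- write `w` once for each unit of `ki` -/
def outI (w : List Bool) : Prog Stk :=
  .seq (.loop .ki .skip (.seq (outp w) (.push .ktmp true))) (pour .ktmp .ki)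

def outP (w : List Bool) : Prog Stk :=
  .seq (.loop .kp .skip (.seq (outp w) (.push .ktmp true))) (pour .ktmp .kp)

/-- `n` copies of `w` -/
def rep (n : ℕ) (w : List Bool) : List Bool := (List.replicate n w).flatten

lemma rep_succ (n : ℕ) (w : List Bool) : rep (n + 1) w = rep n w ++ w := by
  simp only [rep, List.replicate_succ', List.flatten_append, List.flatten_cons, List.flatten_nil,
    List.append_nil]

lemma Emits.outI (w : List Bool) : Emits (outI w) (fun i _ => rep i w) := by
  refine ⟨Polynomial.X * ((w.length + 3 : ℕ) : Polynomial ℕ) + 1 + (2 * Polynomial.X + 1),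
    fun W r hr => ?_⟩
  have h1 := Runs.loop_unary (k := Stk.ki) (pf := .skip)
    (pt := .seq (Pool.Agent.helper62.outp w) (.push .ktmp true)) (t := w.length + 2) r.i
    (fun j => mkSt (app { r with i := r.i - j, tmp := j } (rep j w)))
    (fun j _ => rfl) (fun j _ => by
      have e1 : update (mkSt (app { r with i := r.i - j, tmp := j } (rep j w))) Stk.ki
          (List.replicate (r.i - (j + 1)) true) =
          mkSt (app { r with i := r.i - (j + 1), tmp := j } (rep j w)) := set_i _ _
      rw [e1]
      have h2 := runs_outp w (app { r with i := r.i - (j + 1), tmp := j } (rep j w))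
      rw [app_app, ← rep_succ] at h2
      have h3 := push_tmp (app { r with i := r.i - (j + 1), tmp := j } (rep (j + 1) w))
      exact (h2.seq h3).mono (by omega))
  have h2 := pour_tmp_i (app { r with i := r.i - r.i, tmp := r.i } (rep r.i w))
  have e0 : mkSt (app { r with i := r.i - 0, tmp := 0 } (rep 0 w)) = mkSt r := by
    have : rep 0 w = [] := rfl
    rw [this, app_nil]
    have ht := hr.1
    cases r
    simp only at ht
    subst ht
    rfl
  have e1 : ({ app { r with i := r.i - r.i, tmp := r.i } (rep r.i w) with
      tmp := 0, i := (app { r with i := r.i - r.i, tmp := r.i } (rep r.i w)).tmp +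
        (app { r with i := r.i - r.i, tmp := r.i } (rep r.i w)).i } : Regs) =
      app r (rep r.i w) := by
    obtain ⟨ht, _⟩ := hr
    simp only [app, Nat.sub_self, Nat.add_zero]
    rw [← ht]
  rw [e1] at h2
  simp only [e0] at h1
  refine (h1.seq h2).mono ?_
  simp only [Polynomial.eval_add, Polynomial.eval_mul, Polynomial.eval_X, Polynomial.eval_one,
    Polynomial.eval_natCast, Polynomial.eval_ofNat, Nat.cast_id]
  have h3 : r.i * (w.length + 2 + 1) ≤ W * (w.length + 3) := Nat.mul_le_mul_right _ hr.2.1
  have h4 : 2 * (app { r with i := r.i - r.i, tmp := r.i } (rep r.i w)).tmp ≤ 2 * W :=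
    Nat.mul_le_mul_left _ hr.2.1
  omega

lemma Emits.outP (w : List Bool) : Emits (outP w) (fun _ d => rep d w) := by
  refine ⟨Polynomial.X * ((w.length + 3 : ℕ) : Polynomial ℕ) + 1 + (2 * Polynomial.X + 1),
    fun W r hr => ?_⟩
  have h1 := Runs.loop_unary (k := Stk.kp) (pf := .skip)
    (pt := .seq (Pool.Agent.helper62.outp w) (.push .ktmp true)) (t := w.length + 2) r.p
    (fun j => mkSt (app { r with p := r.p - j, tmp := j } (rep j w)))
    (fun j _ => rfl) (fun j _ => by
      have e1 : update (mkSt (app { r with p := r.p - j, tmp := j } (rep j w))) Stk.kp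
          (List.replicate (r.p - (j + 1)) true) =
          mkSt (app { r with p := r.p - (j + 1), tmp := j } (rep j w)) := set_p _ _
      rw [e1]
      have h2 := runs_outp w (app { r with p := r.p - (j + 1), tmp := j } (rep j w))
      rw [app_app, ← rep_succ] at h2
      have h3 := push_tmp (app { r with p := r.p - (j + 1), tmp := j } (rep (j + 1) w))
      exact (h2.seq h3).mono (by omega))
  have h2 := pour_tmp_p (app { r with p := r.p - r.p, tmp := r.p } (rep r.p w))
  have e0 : mkSt (app { r with p := r.p - 0, tmp := 0 } (rep 0 w)) = mkSt r := by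
    have : rep 0 w = [] := rfl
    rw [this, app_nil]
    have ht := hr.1
    cases r
    simp only at ht
    subst ht
    rfl
  have e1 : ({ app { r with p := r.p - r.p, tmp := r.p } (rep r.p w) with
      tmp := 0, p := (app { r with p := r.p - r.p, tmp := r.p } (rep r.p w)).tmp +
        (app { r with p := r.p - r.p, tmp := r.p } (rep r.p w)).p } : Regs) =
      app r (rep r.p w) := by
    obtain ⟨ht, _⟩ := hr
    simp only [app, Nat.sub_self, Nat.add_zero]
    rw [← ht]
  rw [e1] at h2
  simp only [e0] at h1
  refine (h1.seq h2).mono ?_
  simp only [Polynomial.eval_add, Polynomial.eval_mul, Polynomial.eval_X, Polynomial.eval_one,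
    Polynomial.eval_natCast, Polynomial.eval_ofNat, Nat.cast_id]
  have h3 : r.p * (w.length + 2 + 1) ≤ W * (w.length + 3) := Nat.mul_le_mul_right _ hr.2.2.1
  have h4 : 2 * (app { r with p := r.p - r.p, tmp := r.p } (rep r.p w)).tmp ≤ 2 * W :=
    Nat.mul_le_mul_left _ hr.2.2.1
  omega

/-- Program writing one letter. -/
def emitLT (M : Mode) (t : LT) : Prog Stk :=
  .seq (outp ((List.replicate t.1 true ++ [false]).flatMap M.code))
    (.seq (if t.2.1 then outp (M.code true) else .skip)
      (.seq (outI (M.code true))
        (.seq (outp (M.code false ++ M.code true))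
          (.seq (match t.2.2 with
              | .zero => .skip
              | .here => outP (M.code true)
              | .next => .seq (outp (M.code true)) (outP (M.code true)))
            (outp M.fin)))))

lemma flatMap_replicate (n : ℕ) (b : Bool) (f : Bool → List Bool) :
    (List.replicate n b).flatMap f = rep n (f b) := by
  rw [List.flatMap, List.map_replicate]; rfl

lemma rep_succ' (n : ℕ) (w : List Bool) : rep (n + 1) w = w ++ rep n w := by
  simp only [rep, List.replicate_succ, List.flatten_cons]

lemma Emits.emitLT (M : Mode) (t : LT) : Emits (emitLT M t) (fun i d => encLT M i d t) := by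
  obtain ⟨c, up, pos⟩ := t
  have h1 := Emits.outp ((List.replicate c true ++ [false]).flatMap M.code)
  have h2 : Emits (if up then Pool.Agent.helper62.outp (M.code true) else .skip)
      (fun _ _ => if up then M.code true else []) := by
    cases up
    · exact Emits.skip
    · exact Emits.outp _
  have h3 := Emits.outI (M.code true)
  have h4 := Emits.outp (M.code false ++ M.code true)
  have h6 := Emits.outp M.fin
  cases pos with
  | zero =>
    refine (h1.seq (h2.seq (h3.seq (h4.seq (Emits.skip.seq h6))))).congr (fun i d => ?_)
    have e0 : rep 0 (M.code true) = [] := rfl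
    cases up <;> simp [encLT, ltBits, letterBits, Pos.val, flatMap_replicate, rep_succ', e0]
  | here =>
    refine (h1.seq (h2.seq (h3.seq (h4.seq ((Emits.outP (M.code true)).seq h6))))).congr
      (fun i d => ?_)
    cases up <;> simp [encLT, ltBits, letterBits, Pos.val, flatMap_replicate, rep_succ']
  | next =>
    refine (h1.seq (h2.seq (h3.seq (h4.seq (((Emits.outp (M.code true)).seq
      (Emits.outP (M.code true))).seq h6))))).congr (fun i d => ?_)
    cases up <;> simp [encLT, ltBits, letterBits, Pos.val, flatMap_replicate, rep_succ']

/-- Program writing a list of letters. -/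
def emitLTs (M : Mode) : List LT → Prog Stk
  | [] => .skip
  | t :: l => .seq (emitLT M t) (emitLTs M l)

lemma Emits.emitLTs (M : Mode) (l : List LT) :
    Emits (emitLTs M l) (fun i d => encLTs M i d l) := by
  induction l with
  | nil => exact Emits.skip
  | cons t l ih => exact (Emits.emitLT M t).seq ih

end Pool.Agent.helper62
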