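import Pool.Agent.helper65.GCA.Defs

set_option autoImplicit false

namespace Pool.Agent.helper65.GCA

open Set Topology unitInterval

namespace T6

/-- Bump function of the disc of centre `c` and radius `r`. -/
noncomputable def bump (r : ℝ) (c z : ℂ) : ℝ := max (1 - ‖z - c‖ / r) 0

lemma bump_nonneg (r : ℝ) (c z : ℂ) : 0 ≤ bump r c z := le_max_right _ _

lemma bump_pos_iff {r : ℝ} (hr : 0 < r) {c z : ℂ} : 0 < bump r c z ↔ ‖z - c‖ < r := by
  unfold bump
  rw [lt_max_iff]
  constructor
  · rintro (h | h)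
    · rw [sub_pos, div_lt_one hr] at h
      exact h
    · exact absurd h (lt_irrefl _)
  · intro h
    left
    rw [sub_pos, div_lt_one hr]
    exact h

lemma bump_of_lt {r : ℝ} (hr : 0 < r) {c z : ℂ} (h : ‖z - c‖ < r) :
    bump r c z = 1 - ‖z - c‖ / r := by
  unfold bump
  apply max_eq_left
  rw [sub_nonneg, div_le_one hr]
  exact h.le

lemma bump_eq_zero {r : ℝ} (hr : 0 < r) {c z : ℂ} (h : ¬ 0 < bump r c z) : bump r c z = 0 :=
  le_antisymm (not_lt.1 h) (bump_nonneg _ _ _)

lemma abs_bump_sub {r : ℝ} (hr : 0 < r) (c z z' : ℂ) :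
    |bump r c z - bump r c z'| ≤ ‖z - z'‖ / r := by
  unfold bump
  refine (abs_max_sub_max_le_abs _ _ _).trans ?_
  have h1 : (1 - ‖z - c‖ / r) - (1 - ‖z' - c‖ / r) = (‖z' - c‖ - ‖z - c‖) / r := by ring
  rw [h1, abs_div, abs_of_pos hr]
  gcongr
  refine (abs_norm_sub_norm_le _ _).trans ?_
  rw [norm_sub_rev z z']
  apply le_of_eq
  congr 1
  ring

lemma continuous_bump (r : ℝ) (c : ℂ) : Continuous (bump r c) := by
  unfold bump
  fun_prop

variable {m : ℕ} {c : Fin m → ℂ} {r : ℝ}

lemma pos_unique (hr : 0 < r) (hsep : ∀ i j, i ≠ j → 2 * r ≤ ‖c i - c j‖) {z : ℂ} {i j : Fin m}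
    (hi : 0 < bump r (c i) z) (hj : 0 < bump r (c j) z) : i = j := by
  by_contra hij
  rw [bump_pos_iff hr] at hi hj
  have h1 := hsep i j hij
  have h2 : ‖c i - c j‖ ≤ ‖z - c i‖ + ‖z - c j‖ := by
    have : c i - c j = (z - c j) - (z - c i) := by ring
    rw [this]
    refine (norm_sub_le _ _).trans ?_
    linarith
  linarith

lemma sum_abs_le (hr : 0 < r) (hsep : ∀ i j, i ≠ j → 2 * r ≤ ‖c i - c j‖) (z z' : ℂ) :
    ∑ i, |bump r (c i) z - bump r (c i) z'| ≤ ‖z - z'‖ / r := by
  classical
  have hn : (0 : ℝ) ≤ ‖z - z'‖ / r := by positivity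
  by_cases h1 : ∃ i, 0 < bump r (c i) z
  · obtain ⟨i, hi⟩ := h1
    by_cases h2 : ∃ j, 0 < bump r (c j) z'
    · obtain ⟨j, hj⟩ := h2
      by_cases hij : i = j
      · subst hij
        rw [Finset.sum_eq_single i]
        · exact abs_bump_sub hr _ _ _
        · intro k _ hk
          rw [bump_eq_zero hr fun h => hk (pos_unique hr hsep h hi),
            bump_eq_zero hr fun h => hk (pos_unique hr hsep h hj), sub_zero, abs_zero]
        · intro h
          exact absurd (Finset.mem_univ _) h
      · have e1 : ∀ k ∈ Finset.univ, k ∉ ({i, j} : Finset (Fin m)) →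
            |bump r (c k) z - bump r (c k) z'| = 0 := by
          intro k _ hk
          rw [Finset.mem_insert, Finset.mem_singleton, not_or] at hk
          rw [bump_eq_zero hr fun h => hk.1 (pos_unique hr hsep h hi),
            bump_eq_zero hr fun h => hk.2 (pos_unique hr hsep h hj), sub_zero, abs_zero]
        rw [← Finset.sum_subset (Finset.subset_univ ({i, j} : Finset (Fin m))) e1,
          Finset.sum_pair hij]
        rw [bump_eq_zero (c := c i) (z := z') hr fun h => hij (pos_unique hr hsep h hj),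
          bump_eq_zero (c := c j) (z := z) hr fun h => hij (pos_unique hr hsep hi h)]
        rw [sub_zero, zero_sub, abs_neg, abs_of_pos hi, abs_of_pos hj,
          bump_of_lt hr ((bump_pos_iff hr).1 hi), bump_of_lt hr ((bump_pos_iff hr).1 hj)]
        have h3 := hsep i j hij
        have h4 : ‖c i - c j‖ ≤ ‖z - c i‖ + ‖z - z'‖ + ‖z' - c j‖ := by
          have : c i - c j = (z - z') + (z' - c j) - (z - c i) := by ring
          rw [this]
          refine (norm_sub_le _ _).trans ?_
          have := norm_add_le (z - z') (z' - c j)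
          linarith
        have e2 : 1 - ‖z - c i‖ / r + (1 - ‖z' - c j‖ / r) =
            (2 * r - ‖z - c i‖ - ‖z' - c j‖) / r := by
          field_simp
          ring
        rw [e2]
        gcongr
        linarith
    · rw [Finset.sum_eq_single i]
      · exact abs_bump_sub hr _ _ _
      · intro k _ hk
        rw [bump_eq_zero hr fun h => hk (pos_unique hr hsep h hi),
          bump_eq_zero hr fun h => h2 ⟨k, h⟩, sub_zero, abs_zero]
      · intro h
        exact absurd (Finset.mem_univ _) h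
  · by_cases h2 : ∃ j, 0 < bump r (c j) z'
    · obtain ⟨j, hj⟩ := h2
      rw [Finset.sum_eq_single j]
      · exact abs_bump_sub hr _ _ _
      · intro k _ hk
        rw [bump_eq_zero hr fun h => h1 ⟨k, h⟩,
          bump_eq_zero hr fun h => hk (pos_unique hr hsep h hj), sub_zero, abs_zero]
      · intro h
        exact absurd (Finset.mem_univ _) h
    · rw [Finset.sum_eq_zero]
      · exact hn
      · intro k _
        rw [bump_eq_zero hr fun h => h1 ⟨k, h⟩, bump_eq_zero hr fun h => h2 ⟨k, h⟩, sub_zero,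
          abs_zero]

/-- The displaced map. -/
noncomputable def push (r : ℝ) (c v : Fin m → ℂ) (z : ℂ) : ℂ :=
  z + ∑ i, (bump r (c i) z : ℂ) * v i

lemma continuous_push {T : Type*} [TopologicalSpace T] (r : ℝ) (c : Fin m → ℂ)
    (v : T → Fin m → ℂ) (hv : Continuous v) :
    Continuous fun y : T × ℂ => push r c (v y.1) y.2 := by
  unfold push
  refine continuous_snd.add (continuous_finsetSum _ fun i _ => ?_)
  refine (Complex.continuous_ofReal.comp ((continuous_bump r (c i)).comp continuous_snd)).mul ?_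
  exact (continuous_apply i).comp (hv.comp continuous_fst)

lemma push_center (hr : 0 < r) (hsep : ∀ i j, i ≠ j → 2 * r ≤ ‖c i - c j‖) (v : Fin m → ℂ)
    (i : Fin m) : push r c v (c i) = c i + v i := by
  unfold push
  have h0 : bump r (c i) (c i) = 1 := by
    unfold bump
    simp
  have hpos : 0 < bump r (c i) (c i) := by rw [h0]; exact one_pos
  rw [Finset.sum_eq_single i]
  · rw [h0]
    simp
  · intro k _ hk
    rw [bump_eq_zero hr fun h => hk (pos_unique hr hsep h hpos)]
    simp
  · intro h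
    exact absurd (Finset.mem_univ _) h

lemma push_zero (r : ℝ) (c : Fin m → ℂ) (z : ℂ) : push r c 0 z = z := by
  unfold push
  simp

lemma push_far (hr : 0 < r) (v : Fin m → ℂ) {z : ℂ} (hz : ∀ i, r ≤ ‖z - c i‖) :
    push r c v z = z := by
  unfold push
  rw [Finset.sum_eq_zero, add_zero]
  intro i _
  rw [bump_eq_zero hr fun h => absurd ((bump_pos_iff hr).1 h) (not_lt.2 (hz i))]
  simp

open NNReal in
/-- The displaced map as a homeomorphism of the plane. -/
lemma exists_homeo (hr : 0 < r) (hsep : ∀ i j, i ≠ j → 2 * r ≤ ‖c i - c j‖) (v : Fin m → ℂ)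
    (hv : ∀ i, ‖v i‖ < r) : ∃ g : ℂ ≃ₜ ℂ, ∀ z, g z = push r c v z := by
  classical
  set k : ℝ≥0 := Finset.univ.sup fun i => ‖v i‖₊ with hk
  have hrc : ((r.toNNReal : ℝ≥0) : ℝ) = r := Real.coe_toNNReal r hr.le
  have hr' : 0 < r.toNNReal := Real.toNNReal_pos.2 hr
  have hkr : k < r.toNNReal := by
    rw [hk, Finset.sup_lt_iff]
    · intro i _
      rw [← NNReal.coe_lt_coe, hrc]
      exact hv i
    · exact hr'
  have hvk : ∀ i, ‖v i‖ ≤ (k : ℝ) := by
    intro i
    have : ‖v i‖₊ ≤ k := Finset.le_sup (f := fun i => ‖v i‖₊) (Finset.mem_univ i)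
    exact this
  set κ : ℝ≥0 := k / r.toNNReal with hκ
  have hκ1 : κ < 1 := by
    rw [hκ, div_lt_one hr']
    exact hkr
  have hlip : ApproximatesLinearOn (push r c v) ((ContinuousLinearEquiv.refl ℝ ℂ : ℂ ≃L[ℝ] ℂ) : ℂ →L[ℝ] ℂ)
      univ κ := by
    intro z _ z' _
    have e1 : push r c v z - push r c v z' -
        ((ContinuousLinearEquiv.refl ℝ ℂ : ℂ ≃L[ℝ] ℂ) : ℂ →L[ℝ] ℂ) (z - z') =
        ∑ i, ((bump r (c i) z - bump r (c i) z' : ℝ) : ℂ) * v i := by
      unfold push
      simp only [ContinuousLinearEquiv.coe_refl, ContinuousLinearMap.id_apply]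
      rw [show (z + ∑ i, (bump r (c i) z : ℂ) * v i - (z' + ∑ i, (bump r (c i) z' : ℂ) * v i) -
        (z - z')) = ∑ i, (bump r (c i) z : ℂ) * v i - ∑ i, (bump r (c i) z' : ℂ) * v i by ring,
        ← Finset.sum_sub_distrib]
      refine Finset.sum_congr rfl fun i _ => ?_
      push_cast
      ring
    rw [e1]
    calc ‖∑ i, ((bump r (c i) z - bump r (c i) z' : ℝ) : ℂ) * v i‖
        ≤ ∑ i, ‖((bump r (c i) z - bump r (c i) z' : ℝ) : ℂ) * v i‖ := norm_sum_le _ _
      _ ≤ ∑ i, |bump r (c i) z - bump r (c i) z'| * k := by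
          refine Finset.sum_le_sum fun i _ => ?_
          rw [norm_mul, Complex.norm_real, Real.norm_eq_abs]
          exact mul_le_mul_of_nonneg_left (hvk i) (abs_nonneg _)
      _ = (∑ i, |bump r (c i) z - bump r (c i) z'|) * k := by rw [Finset.sum_mul]
      _ ≤ (‖z - z'‖ / r) * k := mul_le_mul_of_nonneg_right (sum_abs_le hr hsep z z') k.2
      _ = κ * ‖z - z'‖ := by
          rw [hκ, NNReal.coe_div, hrc]
          ring
  refine ⟨hlip.toHomeomorph (push r c v) (Or.inr ?_), fun z => rfl⟩
  refine hκ1.trans_le ?_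
  have h1 : ‖((ContinuousLinearEquiv.refl ℝ ℂ).symm : ℂ →L[ℝ] ℂ)‖₊ ≤ 1 :=
    ContinuousLinearMap.norm_id_le
  have h2 : ‖((ContinuousLinearEquiv.refl ℝ ℂ).symm : ℂ →L[ℝ] ℂ)‖₊ ≠ 0 := by
    rw [Ne, nnnorm_eq_zero]
    intro h
    have := congrArg (fun f : ℂ →L[ℝ] ℂ => f 1) h
    simp at this
  rw [le_inv_comm₀ one_pos (pos_iff_ne_zero.2 h2), inv_one]
  exact h1

end T6

/-- mod:T6. -/
theorem exists_push {m : ℕ} (p : I → Fin m → ℂ) (hp : Continuous p) (r : ℝ) (hr : 0 < r)
    (hsep : ∀ i j, i ≠ j → 2 * r ≤ ‖p 0 i - p 0 j‖) (hmove : ∀ s i, ‖p s i - p 0 i‖ < r) :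
    ∃ h : I → (S2 ≃ₜ S2), Continuous (fun y : I × S2 => h y.1 y.2) ∧
      h 0 = Homeomorph.refl S2 ∧ (∀ s, h s OnePoint.infty = OnePoint.infty) ∧
      ∀ s i, h s ((p 0 i : ℂ) : S2) = ((p s i : ℂ) : S2) := by
  classical
  have hv : Continuous fun (s : I) (i : Fin m) => p s i - p 0 i :=
    continuous_pi fun i => ((continuous_apply i).comp hp).sub continuous_const
  choose g hg using fun s : I => T6.exists_homeo hr hsep (fun i => p s i - p 0 i) (hmove s)
  refine ⟨fun s => (g s).onePointCongr, ?_, ?_, ?_, ?_⟩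
  · have hcont : Continuous fun y : I × ℂ => g y.1 y.2 := by
      simp only [hg]
      exact T6.continuous_push r (p 0) (fun s i => p s i - p 0 i) hv
    rw [continuous_iff_continuousAt]
    rintro ⟨s, x⟩
    induction x using OnePoint.rec with
    | infty =>
      -- near `∞` the maps are the identity
      obtain ⟨M, hM⟩ : ∃ M : ℝ, ∀ i, ‖p 0 i‖ ≤ M := by
        obtain ⟨M, hM⟩ := (Set.finite_range fun i => ‖p 0 i‖).bddAbove
        exact ⟨M, fun i => hM ⟨i, rfl⟩⟩
      have hU : ((↑) '' Metric.closedBall (0 : ℂ) (M + r) : Set S2)ᶜ ∈ 𝓝 (OnePoint.infty : S2) := by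
        apply IsOpen.mem_nhds
        · exact OnePoint.isOpen_compl_image_coe.2
            ⟨Metric.isClosed_closedBall, isCompact_closedBall _ _⟩
        · rintro ⟨z, -, hz⟩
          exact OnePoint.coe_ne_infty z hz
      have hV : (univ : Set I) ×ˢ ((↑) '' Metric.closedBall (0 : ℂ) (M + r) : Set S2)ᶜ ∈
          𝓝 (s, (OnePoint.infty : S2)) := prod_mem_nhds Filter.univ_mem hU
      refine ContinuousAt.congr (f := Prod.snd) continuousAt_snd ?_
      filter_upwards [hV]
      rintro ⟨t, x⟩ ⟨-, hx⟩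
      induction x using OnePoint.rec with
      | infty => rfl
      | coe z =>
        have hz : M + r < ‖z‖ := by
          by_contra hcon
          apply hx
          refine ⟨z, ?_, rfl⟩
          rw [mem_closedBall_zero_iff]
          exact not_lt.1 hcon
        change (z : S2) = ((g t z : ℂ) : S2)
        rw [hg, T6.push_far hr]
        intro i
        have := norm_sub_norm_le z (p 0 i)
        have := hM i
        linarith
    | coe z =>
      have h1 : IsOpenEmbedding (Prod.map (id : I → I) ((↑) : ℂ → S2)) :=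
        IsOpenEmbedding.id.prodMap OnePoint.isOpenEmbedding_coe
      have h2 := h1.continuousAt_iff (g := fun y : I × S2 => (g y.1).onePointCongr y.2)
        (x := (s, z))
      refine h2.1 ?_
      exact (OnePoint.continuous_coe.comp hcont).continuousAt
  · ext x
    induction x using OnePoint.rec with
    | infty => rfl
    | coe z =>
      change ((g 0 z : ℂ) : S2) = (z : S2)
      rw [hg]
      have : (fun i => p 0 i - p 0 i) = 0 := by
        ext i
        simp
      rw [this, T6.push_zero]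
  · intro s
    rfl
  · intro s i
    change ((g s (p 0 i) : ℂ) : S2) = _
    rw [hg, T6.push_center hr hsep]
    congr 1
    ring

end Pool.Agent.helper65.GCA
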