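import Pool.Agent.helper65.GCA.Defs

set_option autoImplicit false

namespace Pool.Agent.helper65.GCA

open Set Topology unitInterval

/-- mod:T7b. -/
theorem continuous_of_lift {X : Type*} [TopologicalSpace X] [T2Space X] [CompactSpace X]
    {ι κ : Type*} [Finite ι] [Finite κ]
    (R : I → X → X) (hR : Continuous fun y : I × X => R y.1 y.2)
    (p : I → ι → X) (hp : Continuous p) (q : I → κ → X) (hq : Continuous q)
    (hqinj : ∀ s, Function.Injective (q s)) (L : κ → ι) (hL : ∀ s l, R s (q s l) = p s (L l))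
    (hpre : ∀ s y, R s y ∈ range (p s) → y ∈ range (q s))
    (h : I → X ≃ₜ X) (hh : Continuous fun y : I × X => h y.1 y.2)
    (h0 : h 0 = Homeomorph.refl X) (hhp : ∀ s i, h s (p 0 i) = p s i)
    (K : I × X → X) (hK : ContinuousOn K {y | y.2 ∉ range (q 0)}) (hK0 : ∀ w, K (0, w) = w)
    (hKR : ∀ s w, R s (K (s, w)) = h s (R 0 w)) (hKq : ∀ s l, K (s, q 0 l) = q s l) :
    Continuous K := by
  classical
  have hqc : ∀ l, Continuous fun s => q s l := fun l => (continuous_apply l).comp hq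
  have hopen : IsOpen {y : I × X | y.2 ∉ range (q 0)} :=
    (Set.finite_range (q 0)).isClosed.isOpen_compl.preimage continuous_snd
  -- paths are continuous
  have hpath : ∀ w, Continuous fun s => K (s, w) := by
    intro w
    by_cases hw : w ∈ range (q 0)
    · obtain ⟨l, rfl⟩ := hw
      simpa only [hKq] using hqc l
    · exact hK.comp_continuous (by fun_prop) fun s => hw
  rw [continuous_iff_continuousAt]
  rintro ⟨s0, w⟩
  by_cases hw : w ∈ range (q 0)
  swap
  · exact hK.continuousAt (hopen.mem_nhds hw)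
  obtain ⟨l, rfl⟩ := hw
  rw [ContinuousAt, hKq, tendsto_nhds]
  intro Y hY hYl
  -- the graphs
  have hgc : ∀ m, IsCompact (range fun s : I => (s, q s m)) := fun m =>
    isCompact_range (continuous_id.prodMk (hqc m))
  have hG' : IsCompact (⋃ m ∈ {m | m ≠ l}, range fun s : I => (s, q s m)) :=
    (Set.toFinite {m | m ≠ l}).isCompact_biUnion fun m _ => hgc m
  have hdisj : Disjoint (range fun s : I => (s, q s l))
      (⋃ m ∈ {m | m ≠ l}, range fun s : I => (s, q s m)) := by
    rw [Set.disjoint_left]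
    rintro _ ⟨s, rfl⟩ h2
    simp only [mem_iUnion, mem_range, mem_ofPred_eq] at h2
    obtain ⟨m, hm, t, ht⟩ := h2
    have h3 : t = s := congrArg Prod.fst ht
    subst h3
    exact hm (hqinj t (congrArg Prod.snd ht))
  obtain ⟨O, O', hO, hO', hGO, hGO', hOO⟩ :=
    SeparatedNhds.of_isCompact_isCompact (hgc l) hG' hdisj
  -- a closed neighbourhood of `s0` on which `q s l` stays in `Y`
  have hpre0 : (fun s => q s l) ⁻¹' Y ∈ 𝓝 s0 := (hY.preimage (hqc l)).mem_nhds hYl
  obtain ⟨C, hC, hCc, hCY⟩ := exists_mem_nhds_isClosed_subset hpre0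
  set O1 : Set (I × X) := O ∩ {y | y.2 ∈ Y ∨ y.1 ∉ C} with hO1def
  have hO1 : IsOpen O1 :=
    hO.inter ((hY.preimage continuous_snd).union (hCc.isOpen_compl.preimage continuous_fst))
  have hG1 : ∀ s, (s, q s l) ∈ O1 := by
    intro s
    refine ⟨hGO ⟨s, rfl⟩, ?_⟩
    by_cases hs : s ∈ C
    · exact Or.inl (hCY hs)
    · exact Or.inr hs
  have hG2 : ∀ s m, m ≠ l → (s, q s m) ∈ O' := by
    intro s m hm
    apply hGO'
    simp only [mem_iUnion, mem_range]
    exact ⟨m, hm, s, rfl⟩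
  have hO1O' : ∀ y, y ∈ O1 → y ∉ O' := fun y hy hy' => (Set.disjoint_left.1 hOO) hy.1 hy'
  -- the image of the complement
  set Z : Set (I × X) := (O1 ∪ O')ᶜ with hZ
  have hZc : IsCompact Z := (hO1.union hO').isClosed_compl.isCompact
  have hf : Continuous fun y : I × X => (y.1, R y.1 y.2) := continuous_fst.prodMk hR
  have hfZ : IsClosed ((fun y : I × X => (y.1, R y.1 y.2)) '' Z) := (hZc.image hf).isClosed
  have hΨ : Continuous fun y : I × X => (y.1, h y.1 (R 0 y.2)) := by
    refine continuous_fst.prodMk ?_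
    exact hh.comp (continuous_fst.prodMk (hR.comp (continuous_const.prodMk continuous_snd)))
  set T : Set (I × X) := {y | (y.1, h y.1 (R 0 y.2)) ∉ (fun y : I × X => (y.1, R y.1 y.2)) '' Z}
    with hT
  have hTo : IsOpen T := hfZ.isOpen_compl.preimage hΨ
  have hTl : (univ : Set I) ×ˢ ({q 0 l} : Set X) ⊆ T := by
    rintro ⟨s, w⟩ ⟨-, hw⟩
    rw [mem_singleton_iff] at hw
    subst hw
    rintro ⟨⟨s', y⟩, hy, hye⟩
    simp only [Prod.mk.injEq] at hye
    obtain ⟨rfl, hye⟩ := hye
    rw [hL, hhp] at hye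
    obtain ⟨m, hm⟩ := hpre s' y ⟨L l, hye.symm⟩
    subst hm
    apply hy
    by_cases hml : m = l
    · subst hml
      exact Or.inl (hG1 s')
    · exact Or.inr (hG2 s' m hml)
  obtain ⟨U0, U, -, hU, hU0, hUl, hUT⟩ :=
    generalized_tube_lemma isCompact_univ isCompact_singleton hTo hTl
  have hU1 : {w | ((0 : I), w) ∈ O1} ∈ 𝓝 (q 0 l) :=
    (hO1.preimage (by fun_prop : Continuous fun w : X => ((0 : I), w))).mem_nhds (hG1 0)
  have hmain : ∀ w ∈ U, ((0 : I), w) ∈ O1 → ∀ s, (s, K (s, w)) ∈ O1 := by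
    intro w hw h01 s
    have hcov : ∀ s, (s, K (s, w)) ∈ O1 ∪ O' := by
      intro s
      by_contra hcon
      have h1 : (s, w) ∈ T := hUT ⟨hU0 (mem_univ s), hw⟩
      exact h1 ⟨(s, K (s, w)), hcon, by simp only [hKR]⟩
    have hcont : Continuous fun s => (s, K (s, w)) := continuous_id.prodMk (hpath w)
    have hpc : IsPreconnected (range fun s => (s, K (s, w))) := isPreconnected_range hcont
    have hsub : (range fun s => (s, K (s, w))) ⊆ O1 := by
      refine hpc.subset_left_of_subset_union hO1 hO' ?_ ?_ ?_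
      · rw [Set.disjoint_left]
        exact hO1O'
      · rintro _ ⟨s, rfl⟩
        exact hcov s
      · exact ⟨(0, K (0, w)), ⟨0, rfl⟩, by rw [hK0]; exact h01⟩
    exact hsub ⟨s, rfl⟩
  have hev : C ×ˢ (U ∩ {w | ((0 : I), w) ∈ O1}) ∈ 𝓝 (s0, q 0 l) := by
    apply prod_mem_nhds hC
    exact Filter.inter_mem (hU.mem_nhds (hUl rfl)) hU1
  filter_upwards [hev]
  rintro ⟨s, w⟩ ⟨hs, hw, hw1⟩
  rcases (hmain w hw hw1 s).2 with h1 | h1
  · exact h1
  · exact absurd hs h1

end Pool.Agent.helper65.GCA
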