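import Pool.Agent.helper62.Strip

/-!
A nondeterministic multi-stack machine with time-dependent rules, and its encoding by
balanced sets of items.
-/

set_option autoImplicit false
set_option linter.unusedSimpArgs false
set_option linter.unusedSectionVars false

namespace Pool.Agent.helper62

/-- Stack operations. -/
inductive Op (K A : Type) where
  | nop
  | push (k : K) (a : A)
  | pop (k : K) (a : A)
  | peek (k : K) (a : Option A)

/-- Rules. -/
structure Rule (Q K A : Type) where
  src : Q
  op : Op K A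
  dst : Q

variable {Q K A : Type}

/-- Semantics of operations. -/
def Op.Rel [DecidableEq K] : Op K A → (K → List A) → (K → List A) → Prop
  | .nop, S, S' => S' = S
  | .push k a, S, S' => S' = Function.update S k (a :: S k)
  | .pop k a, S, S' => (S k).head? = some a ∧ S' = Function.update S k (S k).tail
  | .peek k a, S, S' => (S k).head? = a ∧ S' = S

/-- Runs; the list of rule sets gives the rules allowed at successive times. -/
inductive Run [DecidableEq K] :
    List (List (Rule Q K A)) → Q → (K → List A) → Q → (K → List A) → Prop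
  | nil (q S) : Run [] q S q S
  | cons {R : List (Rule Q K A)} {L q S S' q'' S''} (ρ : Rule Q K A) (hρ : ρ ∈ R)
      (hs : ρ.src = q) (hr : ρ.op.Rel S S') (h : Run L ρ.dst S' q'' S'') :
      Run (R :: L) q S q'' S''

/-- Kinds of tokens. -/
inductive Kd (Q K A : Type) where
  | st (q : Q) | tp (k : K) | cell (k : K) (a : Option A)

/-- Tokens: kind, level, position. -/
abbrev Tok (Q K A : Type) := Kd Q K A × ℕ × ℕ

/-- Kinds of items. -/
inductive IK (Q K A : Type) where
  | start (q : Q) (ks : List K)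
  | rule (ρ : Rule Q K A)
  | idle (k : K)
  | keep (k : K) (a : Option A)
  | sinkTp (k : K)
  | sinkCell (k : K) (a : Option A)

/-- Positions in token templates. -/
inductive Pos where
  | zero | here | next

def Pos.val : Pos → ℕ → ℕ
  | .zero, _ => 0
  | .here, d => d
  | .next, d => d + 1

/-- Token templates. -/
structure Tm (Q K A : Type) where
  sign : Bool
  kd : Kd Q K A
  up : Bool
  pos : Pos

def Tm.inst (i d : ℕ) (t : Tm Q K A) : Bool × Tok Q K A :=
  (t.sign, t.kd, (if t.up then i + 1 else i), t.pos.val d)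

/-- The templates of the items. -/
def tmpl : IK Q K A → List (Tm Q K A)
  | .start q ks => ⟨true, .st q, false, .zero⟩ ::
      ks.flatMap (fun k => [⟨true, .tp k, false, .here⟩, ⟨true, .cell k none, false, .here⟩])
  | .rule ⟨q, .nop, q'⟩ => [⟨false, .st q, false, .zero⟩, ⟨true, .st q', true, .zero⟩]
  | .rule ⟨q, .push k a, q'⟩ => [⟨false, .st q, false, .zero⟩, ⟨false, .tp k, false, .next⟩,
      ⟨true, .st q', true, .zero⟩, ⟨true, .tp k, true, .here⟩, ⟨true, .cell k (some a), true, .here⟩]
  | .rule ⟨q, .pop k a, q'⟩ => [⟨false, .st q, false, .zero⟩, ⟨false, .tp k, false, .here⟩,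
      ⟨false, .cell k (some a), false, .here⟩,
      ⟨true, .st q', true, .zero⟩, ⟨true, .tp k, true, .next⟩]
  | .rule ⟨q, .peek k a, q'⟩ => [⟨false, .st q, false, .zero⟩, ⟨false, .tp k, false, .here⟩,
      ⟨false, .cell k a, false, .here⟩,
      ⟨true, .st q', true, .zero⟩, ⟨true, .tp k, true, .here⟩, ⟨true, .cell k a, true, .here⟩]
  | .idle k => [⟨false, .tp k, false, .here⟩, ⟨true, .tp k, true, .here⟩]
  | .keep k a => [⟨false, .cell k a, false, .here⟩, ⟨true, .cell k a, true, .here⟩]
  | .sinkTp k => [⟨false, .tp k, false, .here⟩]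
  | .sinkCell k a => [⟨false, .cell k a, false, .here⟩]

/-- names of items -/
abbrev Nm (Q K A : Type) := IK Q K A × ℕ × ℕ

/-- The item of a given kind at level `i` and position `d`. -/
def mk (c : IK Q K A) (i d : ℕ) : Item (Nm Q K A) (Tok Q K A) :=
  ⟨(c, i, d), (tmpl c).map (Tm.inst i d)⟩

/-- Tokens without level. -/
abbrev PT (Q K A : Type) := Kd Q K A × ℕ

def lev (i : ℕ) (x : PT Q K A) : Tok Q K A := (x.1, i, x.2)

/-- consumed tokens -/
def insL : IK Q K A → ℕ → List (PT Q K A)
  | .start _ _, _ => []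
  | .rule ⟨q, .nop, _⟩, _ => [(.st q, 0)]
  | .rule ⟨q, .push k _, _⟩, d => [(.st q, 0), (.tp k, d + 1)]
  | .rule ⟨q, .pop k a, _⟩, d => [(.st q, 0), (.tp k, d), (.cell k (some a), d)]
  | .rule ⟨q, .peek k a, _⟩, d => [(.st q, 0), (.tp k, d), (.cell k a, d)]
  | .idle k, d => [(.tp k, d)]
  | .keep k a, d => [(.cell k a, d)]
  | .sinkTp k, d => [(.tp k, d)]
  | .sinkCell k a, d => [(.cell k a, d)]

/-- produced tokens -/
def outsL : IK Q K A → ℕ → List (PT Q K A)
  | .start q ks, d => (.st q, 0) :: ks.flatMap (fun k => [(.tp k, d), (.cell k none, d)])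
  | .rule ⟨_, .nop, q⟩, _ => [(.st q, 0)]
  | .rule ⟨_, .push k a, q⟩, d => [(.st q, 0), (.tp k, d), (.cell k (some a), d)]
  | .rule ⟨_, .pop k _, q⟩, d => [(.st q, 0), (.tp k, d + 1)]
  | .rule ⟨_, .peek k a, q⟩, d => [(.st q, 0), (.tp k, d), (.cell k a, d)]
  | .idle k, d => [(.tp k, d)]
  | .keep k a, d => [(.cell k a, d)]
  | .sinkTp _, _ => []
  | .sinkCell _ _, _ => []

lemma ins_mk (c : IK Q K A) (i d : ℕ) : ins (mk c i d).toks = (insL c d).map (lev i) := by
  rcases c with ⟨q, ks⟩ | ⟨q, op, q'⟩ | k | ⟨k, a⟩ | k | ⟨k, a⟩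
  · simp only [mk, tmpl, List.map_cons, Tm.inst, ins_cons_true, insL, List.map_nil]
    induction ks with
    | nil => simp
    | cons k ks ih => simpa [Tm.inst] using ih
  · rcases op with _ | ⟨k, a⟩ | ⟨k, a⟩ | ⟨k, a⟩ <;>
      simp [mk, tmpl, Tm.inst, insL, lev, Pos.val]
  all_goals simp [mk, tmpl, Tm.inst, insL, lev, Pos.val]

/-- main kinds: those whose produced tokens are one level higher -/
def IsMain : IK Q K A → Prop
  | .rule _ => True
  | .idle _ => True
  | .keep _ _ => True
  | _ => False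

lemma outs_mk_main (c : IK Q K A) (hc : IsMain c) (i d : ℕ) :
    outs (mk c i d).toks = (outsL c d).map (lev (i+1)) := by
  rcases c with ⟨q, ks⟩ | ⟨q, op, q'⟩ | k | ⟨k, a⟩ | k | ⟨k, a⟩
  · exact absurd hc (by simp [IsMain])
  · rcases op with _ | ⟨k, a⟩ | ⟨k, a⟩ | ⟨k, a⟩ <;>
      simp [mk, tmpl, Tm.inst, outsL, lev, Pos.val]
  · simp [mk, tmpl, Tm.inst, outsL, lev, Pos.val]
  · simp [mk, tmpl, Tm.inst, outsL, lev, Pos.val]
  · exact absurd hc (by simp [IsMain])
  · exact absurd hc (by simp [IsMain])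

lemma outs_mk_start (q : Q) (ks : List K) (i d : ℕ) :
    outs (mk (.start q ks : IK Q K A) i d).toks = (outsL (.start q ks) d).map (lev i) := by
  simp only [mk, tmpl, List.map_cons, Tm.inst, outs_cons_true, outsL, lev, Pos.val]
  congr 1
  induction ks with
  | nil => simp
  | cons k ks ih => simpa [Tm.inst, Pos.val, lev] using ih

lemma outs_mk_sink (c : IK Q K A) (hc : (∃ k, c = .sinkTp k) ∨ ∃ k a, c = .sinkCell k a)
    (i d : ℕ) : outs (mk c i d).toks = [] := by
  rcases hc with ⟨k, rfl⟩ | ⟨k, a, rfl⟩ <;> simp [mk, tmpl, Tm.inst]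

/-! ### The tokens describing a configuration -/

def cells (k : K) : ℕ → List A → Multiset (PT Q K A)
  | d, [] => {(.cell k none, d)}
  | d, a :: l => (.cell k (some a), d) ::ₘ cells k (d+1) l

def stackM (k : K) (d : ℕ) (l : List A) : Multiset (PT Q K A) := (.tp k, d) ::ₘ cells k d l

def lvl [Fintype K] (q : Q) (S : K → List A) (ptr : K → ℕ) : Multiset (PT Q K A) :=
  (.st q, 0) ::ₘ ∑ k, stackM k (ptr k) (S k)

lemma mem_cells {k : K} {x : PT Q K A} : ∀ {l : List A} {d : ℕ}, x ∈ cells k d l →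
    ∃ j ≤ l.length, x = (.cell k (l[j]?), d + j) := by
  intro l
  induction l with
  | nil => intro d h; simp [cells] at h; exact ⟨0, by simp [h]⟩
  | cons a l ih =>
    intro d h
    simp only [cells, Multiset.mem_cons] at h
    rcases h with rfl | h
    · exact ⟨0, by simp⟩
    · obtain ⟨j, hj, rfl⟩ := ih h
      exact ⟨j+1, by simpa using hj, by simp; omega⟩

lemma mem_cells_head {k : K} {l : List A} {d : ℕ} {a : Option A}
    (h : ((.cell k a, d) : PT Q K A) ∈ cells k d l) : l.head? = a := by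
  obtain ⟨j, hj, h⟩ := mem_cells h
  simp only [Prod.mk.injEq, Kd.cell.injEq] at h
  obtain ⟨⟨_, h1⟩, h2⟩ := h
  have : j = 0 := by omega
  subst this
  rw [h1]
  cases l <;> simp

lemma mem_stackM {k : K} {x : PT Q K A} {l : List A} {d : ℕ} (h : x ∈ stackM k d l) :
    x = (.tp k, d) ∨ ∃ j ≤ l.length, x = (.cell k (l[j]?), d + j) := by
  simp only [stackM, Multiset.mem_cons] at h
  rcases h with h | h
  · exact Or.inl h
  · exact Or.inr (mem_cells h)

section lvl

variable [Fintype K] [DecidableEq K]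

lemma mem_lvl_st {q q' : Q} {n : ℕ} {S : K → List A} {ptr : K → ℕ}
    (h : ((.st q', n) : PT Q K A) ∈ lvl q S ptr) : q' = q ∧ n = 0 := by
  simp only [lvl, Multiset.mem_cons, Multiset.mem_sum, Finset.mem_univ, true_and] at h
  rcases h with h | ⟨k, h⟩
  · simpa using h
  · rcases mem_stackM h with h | ⟨j, _, h⟩ <;> simp at h

lemma mem_lvl_tp {q : Q} {k : K} {n : ℕ} {S : K → List A} {ptr : K → ℕ}
    (h : ((.tp k, n) : PT Q K A) ∈ lvl q S ptr) : n = ptr k := by
  simp only [lvl, Multiset.mem_cons, Multiset.mem_sum, Finset.mem_univ, true_and] at h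
  rcases h with h | ⟨k', h⟩
  · simp at h
  · rcases mem_stackM h with h | ⟨j, _, h⟩
    · simp at h; rw [h.2, h.1]
    · simp at h

lemma mem_lvl_cell {q : Q} {k : K} {a : Option A} {n : ℕ} {S : K → List A} {ptr : K → ℕ}
    (h : ((.cell k a, n) : PT Q K A) ∈ lvl q S ptr) :
    ((.cell k a, n) : PT Q K A) ∈ cells k (ptr k) (S k) := by
  simp only [lvl, Multiset.mem_cons, Multiset.mem_sum, Finset.mem_univ, true_and] at h
  rcases h with h | ⟨k', h⟩
  · simp at h
  · have h0 := h
    simp only [stackM, Multiset.mem_cons] at h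
    rcases h with h | h
    · simp at h
    · obtain ⟨j, _, h1⟩ := mem_cells h
      simp only [Prod.mk.injEq, Kd.cell.injEq] at h1
      rw [h1.1.1]
      exact h1.1.1 ▸ h

/-- The part of the level tokens not belonging to stack `k`. -/
def restM (k : K) (S : K → List A) (ptr : K → ℕ) : Multiset (PT Q K A) :=
  ∑ k' ∈ Finset.univ.erase k, stackM k' (ptr k') (S k')

lemma lvl_isolate (k : K) (q : Q) (S : K → List A) (ptr : K → ℕ) :
    lvl q S ptr = (.st q, 0) ::ₘ (stackM k (ptr k) (S k) + restM k S ptr) := by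
  unfold lvl restM
  congr 1
  exact (Finset.add_sum_erase _ (fun k => stackM k (ptr k) (S k)) (Finset.mem_univ k)).symm

lemma lvl_update (k : K) (q : Q) (S : K → List A) (ptr : K → ℕ) (l : List A) (d : ℕ) :
    lvl q (Function.update S k l) (Function.update ptr k d) =
      (.st q, 0) ::ₘ (stackM k d l + restM k S ptr) := by
  rw [lvl_isolate k]
  simp only [Function.update_self]
  congr 2
  apply Finset.sum_congr rfl
  intro k' hk'
  have : k' ≠ k := (Finset.mem_erase.1 hk').1
  simp [Function.update_of_ne this]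

lemma step_sound (ρ : Rule Q K A) (d : ℕ) (Y : Multiset (PT Q K A)) (q : Q) (S : K → List A)
    (ptr : K → ℕ) (h : (insL (.rule ρ) d : Multiset (PT Q K A)) + Y = lvl q S ptr) :
    ρ.src = q ∧ ∃ S' ptr', ρ.op.Rel S S' ∧
      (outsL (.rule ρ) d : Multiset (PT Q K A)) + Y = lvl ρ.dst S' ptr' := by
  obtain ⟨q1, op, q2⟩ := ρ
  have hst : q1 = q := by
    apply (mem_lvl_st (n := 0) (S := S) (ptr := ptr) _).1
    rw [← h]
    rcases op with _ | ⟨k, a⟩ | ⟨k, a⟩ | ⟨k, a⟩ <;> simp [insL]
  subst hst
  refine ⟨rfl, ?_⟩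
  rcases op with _ | ⟨k, a⟩ | ⟨k, a⟩ | ⟨k, a⟩
  · refine ⟨S, ptr, rfl, ?_⟩
    simp only [insL, outsL, lvl] at h ⊢
    simp only [← Multiset.cons_coe, Multiset.coe_nil, Multiset.cons_add, zero_add] at h ⊢
    rw [Multiset.cons_inj_right] at h
    rw [h]
  · have hd : d + 1 = ptr k := by
      apply mem_lvl_tp (q := q1) (S := S)
      rw [← h]; simp [insL]
    refine ⟨Function.update S k (a :: S k), Function.update ptr k d, rfl, ?_⟩
    rw [lvl_update]
    rw [lvl_isolate k, ← hd] at h
    simp only [insL, outsL, stackM, cells] at h ⊢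
    simp only [← Multiset.cons_coe, Multiset.coe_nil, Multiset.cons_add, zero_add] at h ⊢
    rw [Multiset.cons_inj_right, Multiset.cons_inj_right] at h
    rw [h]
  · have hd : d = ptr k := by
      apply mem_lvl_tp (q := q1) (S := S)
      rw [← h]; simp [insL]
    have hc : ((.cell k (some a), d) : PT Q K A) ∈ cells k (ptr k) (S k) := by
      apply mem_lvl_cell (q := q1)
      rw [← h]; simp [insL]
    rw [← hd] at hc
    have hhead := mem_cells_head hc
    refine ⟨Function.update S k (S k).tail, Function.update ptr k (d+1), ⟨hhead, rfl⟩, ?_⟩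
    rw [lvl_update]
    rw [lvl_isolate k, ← hd] at h
    have hS : S k = a :: (S k).tail := by
      cases hSk : S k with
      | nil => rw [hSk] at hhead; simp at hhead
      | cons b l => rw [hSk] at hhead; simp at hhead; simp [hhead]
    rw [hS] at h
    simp only [insL, outsL, stackM, cells] at h ⊢
    simp only [← Multiset.cons_coe, Multiset.coe_nil, Multiset.cons_add, zero_add] at h ⊢
    rw [Multiset.cons_inj_right, Multiset.cons_inj_right, Multiset.cons_inj_right] at h
    rw [h]
  · have hd : d = ptr k := by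
      apply mem_lvl_tp (q := q1) (S := S)
      rw [← h]; simp [insL]
    have hc : ((.cell k a, d) : PT Q K A) ∈ cells k (ptr k) (S k) := by
      apply mem_lvl_cell (q := q1)
      rw [← h]; simp [insL]
    rw [← hd] at hc
    have hhead := mem_cells_head hc
    refine ⟨S, ptr, ⟨hhead, rfl⟩, ?_⟩
    simp only [insL, outsL, lvl] at h ⊢
    simp only [← Multiset.cons_coe, Multiset.coe_nil, Multiset.cons_add, zero_add] at h ⊢
    rw [Multiset.cons_inj_right] at h
    rw [h]

end lvl

/-! ### The list of items -/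

def levelItems (m i : ℕ) (cs : List (IK Q K A)) : List (Item (Nm Q K A) (Tok Q K A)) :=
  (List.range (m+1)).flatMap (fun d => cs.map (fun c => mk c i d))

def mainItems (m : ℕ) : ℕ → List (List (IK Q K A)) → List (Item (Nm Q K A) (Tok Q K A))
  | _, [] => []
  | i, cs :: L => levelItems m i cs ++ mainItems m (i+1) L

def common (ks : List K) (as : List (Option A)) : List (IK Q K A) :=
  ks.map .idle ++ ks.flatMap (fun k => as.map (.keep k))

def kindsOf (ks : List K) (as : List (Option A)) (R : List (Rule Q K A)) : List (IK Q K A) :=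
  R.map .rule ++ common ks as

def sinks (ks : List K) (as : List (Option A)) : List (IK Q K A) :=
  ks.map .sinkTp ++ ks.flatMap (fun k => as.map (.sinkCell k))

def levelKinds (ks : List K) (as : List (Option A)) (L : List (List (Rule Q K A))) :
    List (List (IK Q K A)) := L.map (kindsOf ks as) ++ [sinks ks as]

def allItems (q0 : Q) (ks : List K) (as : List (Option A)) (m : ℕ)
    (L : List (List (Rule Q K A))) : List (Item (Nm Q K A) (Tok Q K A)) :=
  mk (.start q0 ks) 0 m :: mainItems m 0 (levelKinds ks as L)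

lemma sep {α : Type*} (p : α → Prop) [DecidablePred p] {A B X Y : Multiset α}
    (hA : ∀ a ∈ A, p a) (hB : ∀ b ∈ B, p b) (hX : ∀ a ∈ X, ¬ p a) (hY : ∀ b ∈ Y, ¬ p b)
    (h : A + X = B + Y) : A = B ∧ X = Y := by
  have h1 := congrArg (Multiset.filter p) h
  rw [Multiset.filter_add, Multiset.filter_add, Multiset.filter_eq_self.2 hA,
    Multiset.filter_eq_self.2 hB, Multiset.filter_eq_nil.2 hX, Multiset.filter_eq_nil.2 hY,
    add_zero, add_zero] at h1
  subst h1
  exact ⟨rfl, add_left_cancel h⟩

lemma mem_levelItems {m i : ℕ} {cs : List (IK Q K A)} {it : Item (Nm Q K A) (Tok Q K A)} :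
    it ∈ levelItems m i cs ↔ ∃ d ≤ m, ∃ c ∈ cs, it = mk c i d := by
  simp only [levelItems, List.mem_flatMap, List.mem_range, List.mem_map, Nat.lt_succ_iff]
  constructor
  · rintro ⟨d, hd, c, hc, rfl⟩; exact ⟨d, hd, c, hc, rfl⟩
  · rintro ⟨d, hd, c, hc, rfl⟩; exact ⟨d, hd, c, hc, rfl⟩

def IsSink (c : IK Q K A) : Prop := (∃ k, c = .sinkTp k) ∨ ∃ k a, c = .sinkCell k a

lemma isMain_of_mem_kindsOf {ks : List K} {as : List (Option A)} {R : List (Rule Q K A)}
    {c : IK Q K A} (h : c ∈ kindsOf ks as R) : IsMain c := by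
  simp only [kindsOf, common, List.mem_append, List.mem_map, List.mem_flatMap] at h
  rcases h with ⟨ρ, _, rfl⟩ | ⟨k, _, rfl⟩ | ⟨k, _, a, _, rfl⟩ <;> trivial

lemma isSink_of_mem_sinks {ks : List K} {as : List (Option A)}
    {c : IK Q K A} (h : c ∈ sinks ks as) : IsSink c := by
  simp only [sinks, List.mem_append, List.mem_map, List.mem_flatMap] at h
  rcases h with ⟨k, _, rfl⟩ | ⟨k, _, a, _, rfl⟩
  · exact Or.inl ⟨_, rfl⟩
  · exact Or.inr ⟨_, _, rfl⟩

/-- Items in `mainItems`. -/
lemma mem_mainItems {m : ℕ} {ks : List K} {as : List (Option A)} :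
    ∀ {L : List (List (Rule Q K A))} {i : ℕ} {it : Item (Nm Q K A) (Tok Q K A)},
    it ∈ mainItems m i (levelKinds ks as L) →
    ∃ i' ≥ i, ∃ d c, (IsMain c ∨ IsSink c) ∧ it = mk c i' d := by
  intro L
  induction L with
  | nil =>
    intro i it h
    simp only [levelKinds, List.map_nil, List.nil_append, mainItems, List.append_nil] at h
    obtain ⟨d, _, c, hc, rfl⟩ := mem_levelItems.1 h
    exact ⟨i, le_rfl, d, c, Or.inr (isSink_of_mem_sinks hc), rfl⟩
  | cons R L ih =>
    intro i it h
    simp only [levelKinds, List.map_cons, List.cons_append, mainItems, List.mem_append] at h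
    rcases h with h | h
    · obtain ⟨d, _, c, hc, rfl⟩ := mem_levelItems.1 h
      exact ⟨i, le_rfl, d, c, Or.inl (isMain_of_mem_kindsOf hc), rfl⟩
    · obtain ⟨i', hi', d, c, hc, rfl⟩ := ih h
      exact ⟨i', by omega, d, c, hc, rfl⟩

abbrev insI (it : Item (Nm Q K A) (Tok Q K A)) : Multiset (Tok Q K A) := (ins it.toks : List _)
abbrev outsI (it : Item (Nm Q K A) (Tok Q K A)) : Multiset (Tok Q K A) := (outs it.toks : List _)

lemma level_ins {c : IK Q K A} {i d : ℕ} {t : Tok Q K A} (h : t ∈ insI (mk c i d)) :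
    t.2.1 = i := by
  simp only [insI, Multiset.mem_coe, ins_mk, List.mem_map] at h
  obtain ⟨x, _, rfl⟩ := h
  rfl

lemma level_outs {c : IK Q K A} (hc : IsMain c ∨ IsSink c) {i d : ℕ} {t : Tok Q K A}
    (h : t ∈ outsI (mk c i d)) : t.2.1 = i + 1 := by
  rcases hc with hc | hc
  · simp only [outsI, Multiset.mem_coe, outs_mk_main c hc, List.mem_map] at h
    obtain ⟨x, _, rfl⟩ := h
    rfl
  · rw [outsI, outs_mk_sink c hc] at h
    simp at h

lemma insL_ne_nil {c : IK Q K A} (hc : IsMain c ∨ IsSink c) (d : ℕ) : insL c d ≠ [] := by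
  rcases c with ⟨q, ks⟩ | ⟨q, op, q'⟩ | k | ⟨k, a⟩ | k | ⟨k, a⟩
  · rcases hc with hc | ⟨k, hc⟩ | ⟨k, a, hc⟩
    · exact absurd hc (by simp [IsMain])
    · cases hc
    · cases hc
  · rcases op with _ | ⟨k, a⟩ | ⟨k, a⟩ | ⟨k, a⟩ <;> simp [insL]
  all_goals simp [insL]

lemma le_add_split {α : Type*} {E A B : Multiset α} (h : E ≤ A + B) :
    ∃ E1 E2, E1 ≤ A ∧ E2 ≤ B ∧ E = E1 + E2 := by
  classical
  refine ⟨E ∩ A, E - A, Multiset.inter_le_right, ?_, ?_⟩
  · rw [tsub_le_iff_left]; exact h
  · ext a
    rw [Multiset.count_add, Multiset.count_inter, Multiset.count_sub]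
    omega

lemma mem_of_le_levelItems {m i : ℕ} {cs : List (IK Q K A)}
    {F : Multiset (Item (Nm Q K A) (Tok Q K A))}
    (hF : F ≤ (levelItems m i cs : Multiset _)) {it} (h : it ∈ F) :
    ∃ d ≤ m, ∃ c ∈ cs, it = mk c i d :=
  mem_levelItems.1 (Multiset.mem_coe.1 (Multiset.mem_of_le hF h))

/-- Reading off kind and position. -/
def key (it : Item (Nm Q K A) (Tok Q K A)) : IK Q K A × ℕ := (it.name.1, it.name.2.2)

lemma eq_map_key {m i : ℕ} {cs : List (IK Q K A)}
    {F : Multiset (Item (Nm Q K A) (Tok Q K A))}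
    (hF : F ≤ (levelItems m i cs : Multiset _)) :
    F = (F.map key).map (fun x => mk x.1 i x.2) := by
  rw [Multiset.map_map]
  conv_lhs => rw [← Multiset.map_id F]
  apply Multiset.map_congr rfl
  intro it hit
  obtain ⟨d, _, c, _, rfl⟩ := mem_of_le_levelItems hF hit
  rfl

lemma bind_ins_eq (i : ℕ) (G : Multiset (IK Q K A × ℕ)) :
    (G.map (fun x => mk x.1 i x.2)).bind insI =
      (G.bind (fun x => (insL x.1 x.2 : Multiset (PT Q K A)))).map (lev i) := by
  rw [Multiset.bind_map, Multiset.map_bind]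
  apply Multiset.bind_congr
  intro x _
  simp only [insI, ins_mk, Multiset.map_coe]

lemma bind_outs_eq (i : ℕ) (G : Multiset (IK Q K A × ℕ)) (hG : ∀ x ∈ G, IsMain x.1) :
    (G.map (fun x => mk x.1 i x.2)).bind outsI =
      (G.bind (fun x => (outsL x.1 x.2 : Multiset (PT Q K A)))).map (lev (i+1)) := by
  rw [Multiset.bind_map, Multiset.map_bind]
  apply Multiset.bind_congr
  intro x hx
  simp only [outsI, outs_mk_main x.1 (hG x hx), Multiset.map_coe]

lemma lev_injective (i : ℕ) : Function.Injective (lev i : PT Q K A → Tok Q K A) := by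
  rintro ⟨a, b⟩ ⟨c, d⟩ h
  simp only [lev, Prod.mk.injEq, true_and] at h
  simp [h.1, h.2]

lemma no_outs_sinks {m i : ℕ} {ks : List K} {as : List (Option A)}
    {E : Multiset (Item (Nm Q K A) (Tok Q K A))}
    (hE : E ≤ (mainItems m i (levelKinds ks as ([] : List (List (Rule Q K A)))) : Multiset _)) :
    E.bind outsI = 0 := by
  simp only [levelKinds, List.map_nil, List.nil_append, mainItems, List.append_nil] at hE
  rw [Multiset.eq_zero_iff_forall_notMem]
  intro t ht
  obtain ⟨it, hit, ht⟩ := Multiset.mem_bind.1 ht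
  obtain ⟨d, _, c, hc, rfl⟩ := mem_of_le_levelItems hE hit
  rw [outsI, outs_mk_sink c (isSink_of_mem_sinks hc)] at ht
  simp at ht

/-- Splitting off the lowest level. -/
lemma peel {m i : ℕ} {ks : List K} {as : List (Option A)} {R : List (Rule Q K A)}
    {L : List (List (Rule Q K A))} {E : Multiset (Item (Nm Q K A) (Tok Q K A))}
    (hE : E ≤ (mainItems m i (levelKinds ks as (R :: L)) : Multiset _))
    (X : Multiset (PT Q K A)) (qa : Q)
    (h : X.map (lev i) + E.bind outsI = (.st qa, i + (R :: L).length, 0) ::ₘ E.bind insI) :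
    ∃ G : Multiset (IK Q K A × ℕ), ∃ E' : Multiset (Item (Nm Q K A) (Tok Q K A)),
      (∀ x ∈ G, x.1 ∈ kindsOf ks as R) ∧
      E' ≤ (mainItems m (i+1) (levelKinds ks as L) : Multiset _) ∧
      X = G.bind (fun x => (insL x.1 x.2 : Multiset (PT Q K A))) ∧
      (G.bind (fun x => (outsL x.1 x.2 : Multiset (PT Q K A)))).map (lev (i+1)) + E'.bind outsI =
        (.st qa, i + 1 + L.length, 0) ::ₘ E'.bind insI := by
  have e1 : (mainItems m i (levelKinds ks as (R :: L)) : Multiset (Item (Nm Q K A) (Tok Q K A))) =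
      (levelItems m i (kindsOf ks as R) : Multiset _) +
        (mainItems m (i+1) (levelKinds ks as L) : Multiset _) := by
    simp [levelKinds, mainItems]
  rw [e1] at hE
  obtain ⟨F, E', hF, hE', rfl⟩ := le_add_split hE
  have hFe := eq_map_key hF
  have hG : ∀ x ∈ F.map key, x.1 ∈ kindsOf ks as R := by
    intro x hx
    obtain ⟨it, hit, rfl⟩ := Multiset.mem_map.1 hx
    obtain ⟨d, _, c, hc, rfl⟩ := mem_of_le_levelItems hF hit
    exact hc
  have hi := bind_ins_eq i (F.map key)
  have ho := bind_outs_eq i (F.map key) (fun x hx => isMain_of_mem_kindsOf (hG x hx))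
  rw [← hFe] at hi ho
  have hE'lev : ∀ it ∈ E', ∃ i' ≥ i+1, ∃ d c, (IsMain c ∨ IsSink c) ∧ it = mk c i' d :=
    fun it hit => mem_mainItems (Multiset.mem_coe.1 (Multiset.mem_of_le hE' hit))
  rw [Multiset.add_bind, Multiset.add_bind] at h
  have h2 : X.map (lev i) + (F.bind outsI + E'.bind outsI) =
      F.bind insI + ((.st qa, i + 1 + L.length, 0) ::ₘ E'.bind insI) := by
    rw [h]
    have : i + (R :: L).length = i + 1 + L.length := by simp; omega
    rw [this, Multiset.add_cons]
  have hA : ∀ t ∈ X.map (lev i), t.2.1 = i := by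
    intro t ht
    obtain ⟨x, _, rfl⟩ := Multiset.mem_map.1 ht
    rfl
  have hB : ∀ t ∈ F.bind insI, t.2.1 = i := by
    intro t ht
    rw [hi] at ht
    obtain ⟨x, _, rfl⟩ := Multiset.mem_map.1 ht
    rfl
  have hX : ∀ t ∈ F.bind outsI + E'.bind outsI, ¬ t.2.1 = i := by
    intro t ht
    rcases Multiset.mem_add.1 ht with ht | ht
    · rw [ho] at ht
      obtain ⟨x, _, rfl⟩ := Multiset.mem_map.1 ht
      simp [lev]
    · obtain ⟨it, hit, ht⟩ := Multiset.mem_bind.1 ht
      obtain ⟨i', hi', d, c, hc, rfl⟩ := hE'lev it hit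
      have := level_outs hc ht
      omega
  have hY : ∀ t ∈ (.st qa, i + 1 + L.length, 0) ::ₘ E'.bind insI, ¬ t.2.1 = i := by
    intro t ht
    rcases Multiset.mem_cons.1 ht with rfl | ht
    · simp; omega
    · obtain ⟨it, hit, ht⟩ := Multiset.mem_bind.1 ht
      obtain ⟨i', hi', d, c, hc, rfl⟩ := hE'lev it hit
      have := level_ins ht
      omega
  obtain ⟨h3, h4⟩ := sep (fun t : Tok Q K A => t.2.1 = i) hA hB hX hY h2
  refine ⟨F.map key, E', hG, hE', ?_, ?_⟩
  · rw [hi] at h3
    exact Multiset.map_injective (lev_injective i) h3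
  · rw [← ho]; exact h4

lemma sound0 {m : ℕ} {ks : List K} {as : List (Option A)} (qa : Q) :
    ∀ (L : List (List (Rule Q K A))) (i : ℕ) (E : Multiset (Item (Nm Q K A) (Tok Q K A))),
    E ≤ (mainItems m i (levelKinds ks as L) : Multiset _) →
    E.bind outsI ≠ (.st qa, i + L.length, 0) ::ₘ E.bind insI := by
  intro L
  induction L with
  | nil =>
    intro i E hE h
    rw [no_outs_sinks hE] at h
    exact Multiset.cons_ne_zero h.symm
  | cons R L ih =>
    intro i E hE h
    obtain ⟨G, E', hG, hE', h1, h2⟩ := peel hE 0 qa (by simpa using h)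
    have hG0 : G = 0 := by
      rw [Multiset.eq_zero_iff_forall_notMem]
      intro x hx
      have hne := insL_ne_nil (Or.inl (isMain_of_mem_kindsOf (hG x hx))) x.2
      obtain ⟨t, ht⟩ := List.exists_mem_of_ne_nil _ hne
      have : t ∈ (0 : Multiset (PT Q K A)) := by
        rw [h1]
        exact Multiset.mem_bind.2 ⟨x, hx, by simpa using ht⟩
      simp at this
    subst hG0
    exact ih (i+1) E' hE' (by simpa using h2)

/-- is a state token -/
def isSt : PT Q K A → Bool
  | (.st _, _) => true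
  | _ => false

def isRule : IK Q K A → Bool
  | .rule _ => true
  | _ => false

lemma countP_insL {c : IK Q K A} (hc : IsMain c) (d : ℕ) :
    (insL c d : Multiset (PT Q K A)).countP (fun x => isSt x = true) =
      if isRule c then 1 else 0 := by
  rcases c with ⟨q, ks⟩ | ⟨q, op, q'⟩ | k | ⟨k, a⟩ | k | ⟨k, a⟩
  · exact absurd hc (by simp [IsMain])
  · rcases op with _ | ⟨k, a⟩ | ⟨k, a⟩ | ⟨k, a⟩ <;> rw [Multiset.coe_countP] <;>
      simp [insL, isRule, isSt]
  · rw [Multiset.coe_countP]; simp [insL, isRule, isSt]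
  · rw [Multiset.coe_countP]; simp [insL, isRule, isSt]
  · exact absurd hc (by simp [IsMain])
  · exact absurd hc (by simp [IsMain])

lemma insL_eq_outsL {c : IK Q K A} (hc : IsMain c) (h : isRule c = false) (d : ℕ) :
    insL c d = outsL c d := by
  rcases c with ⟨q, ks⟩ | ⟨q, op, q'⟩ | k | ⟨k, a⟩ | k | ⟨k, a⟩
  · exact absurd hc (by simp [IsMain])
  · simp [isRule] at h
  · rfl
  · rfl
  · exact absurd hc (by simp [IsMain])
  · exact absurd hc (by simp [IsMain])

lemma countP_lvl [Fintype K] (q : Q) (S : K → List A) (ptr : K → ℕ) :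
    (lvl q S ptr).countP (fun x => isSt x = true) = 1 := by
  unfold lvl
  rw [Multiset.countP_cons_of_pos _ (by simp [isSt])]
  have : (∑ k, stackM k (ptr k) (S k) : Multiset (PT Q K A)).countP (fun x => isSt x = true) = 0 := by
    rw [Multiset.countP_eq_zero]
    intro x hx
    obtain ⟨k, _, hx⟩ := Multiset.mem_sum.1 hx
    rcases mem_stackM hx with rfl | ⟨j, _, rfl⟩ <;> simp [isSt]
  rw [this]

lemma sound {m : ℕ} [Fintype K] [DecidableEq K] {ks : List K} {as : List (Option A)} (qa : Q) :
    ∀ (L : List (List (Rule Q K A))) (i : ℕ) (q : Q) (S : K → List A) (ptr : K → ℕ)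
      (E : Multiset (Item (Nm Q K A) (Tok Q K A))),
    E ≤ (mainItems m i (levelKinds ks as L) : Multiset _) →
    (lvl q S ptr).map (lev i) + E.bind outsI = (.st qa, i + L.length, 0) ::ₘ E.bind insI →
    ∃ S', Run L q S qa S' := by
  intro L
  induction L with
  | nil =>
    intro i q S ptr E hE h
    rw [no_outs_sinks hE, add_zero] at h
    have : (.st qa, i + ([] : List (List (Rule Q K A))).length, 0) ∈ (lvl q S ptr).map (lev i) := by
      rw [h]; simp
    obtain ⟨x, hx, hx'⟩ := Multiset.mem_map.1 this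
    obtain ⟨x1, x2⟩ := x
    simp only [lev, Prod.mk.injEq] at hx'
    obtain ⟨rfl, _, rfl⟩ := hx'
    obtain ⟨rfl, _⟩ := mem_lvl_st hx
    exact ⟨S, Run.nil _ _⟩
  | cons R L ih =>
    intro i q S ptr E hE h
    obtain ⟨G, E', hG, hE', h1, h2⟩ := peel hE (lvl q S ptr) qa h
    have hmain : ∀ x ∈ G, IsMain x.1 := fun x hx => isMain_of_mem_kindsOf (hG x hx)
    -- exactly one rule
    have hcard : (G.filter (fun x => isRule x.1 = true)).card = 1 := by
      rw [← countP_lvl q S ptr, h1]
      clear h1 h2 h hG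
      induction G using Multiset.induction_on with
      | empty => simp
      | cons x G ihG =>
        have hx := countP_insL (hmain x (by simp)) x.2
        rw [Multiset.cons_bind, Multiset.countP_add, hx,
          ← ihG (fun y hy => hmain y (by simp [hy]))]
        by_cases hr : isRule x.1 = true
        · rw [Multiset.filter_cons_of_pos _ (by exact hr), Multiset.card_cons, if_pos hr, add_comm]
        · rw [Multiset.filter_cons_of_neg _ (by exact hr), if_neg hr, zero_add]
    obtain ⟨x, hx⟩ := Multiset.card_eq_one.1 hcard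
    have hsplit := Multiset.filter_add_not (fun x : IK Q K A × ℕ => isRule x.1 = true) G
    set G' := Multiset.filter (fun a => ¬ isRule a.1 = true) G with hG'
    rw [hx] at hsplit
    have hxG : x ∈ G := by rw [← hsplit]; simp
    have hxr : isRule x.1 = true := by
      have : x ∈ G.filter (fun x => isRule x.1 = true) := by rw [hx]; simp
      exact (Multiset.mem_filter.1 this).2
    obtain ⟨c, d⟩ := x
    rcases c with ⟨q', ks'⟩ | ρ | k | ⟨k, a⟩ | k | ⟨k, a⟩
    · simp [isRule] at hxr
    · have hbi : G'.bind (fun x => (insL x.1 x.2 : Multiset (PT Q K A))) =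
          G'.bind (fun x => (outsL x.1 x.2 : Multiset (PT Q K A))) := by
        apply Multiset.bind_congr
        intro y hy
        have hy' := Multiset.mem_filter.1 (hG' ▸ hy)
        rw [insL_eq_outsL (hmain y hy'.1) (by simpa using hy'.2)]
      rw [← hsplit, Multiset.add_bind, Multiset.singleton_bind] at h1 h2
      obtain ⟨hsrc, S', ptr', hrel, hout⟩ := step_sound ρ d _ q S ptr h1.symm
      rw [← hbi, hout] at h2
      obtain ⟨S'', hrun⟩ := ih (i+1) ρ.dst S' ptr' E' hE' h2
      refine ⟨S'', Run.cons ρ ?_ hsrc hrel hrun⟩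
      have := hG _ hxG
      simp only [kindsOf, common, List.mem_append, List.mem_map, List.mem_flatMap] at this
      rcases this with ⟨ρ', h, h'⟩ | ⟨k, _, h'⟩ | ⟨k, _, a, _, h'⟩
      · cases h'; exact h
      · cases h'
      · cases h'
    all_goals simp [isRule] at hxr

/-! ### Completeness -/

lemma cells_ge {k : K} {l : List A} {d : ℕ} {x : PT Q K A} (h : x ∈ cells k d l) : d ≤ x.2 := by
  obtain ⟨j, _, rfl⟩ := mem_cells h
  simp

lemma cells_nodup (k : K) : ∀ (l : List A) (d : ℕ), (cells k d l : Multiset (PT Q K A)).Nodup := by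
  intro l
  induction l with
  | nil => intro d; simp [cells]
  | cons a l ih =>
    intro d
    rw [cells, Multiset.nodup_cons]
    refine ⟨fun h => ?_, ih _⟩
    have := cells_ge h
    simp at this

lemma stackM_nodup (k : K) (l : List A) (d : ℕ) : (stackM k d l : Multiset (PT Q K A)).Nodup := by
  rw [stackM, Multiset.nodup_cons]
  refine ⟨fun h => ?_, cells_nodup _ _ _⟩
  obtain ⟨j, _, h⟩ := mem_cells h
  simp at h

/-- the stack a token belongs to -/
def owner : PT Q K A → Option K
  | (.st _, _) => none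
  | (.tp k, _) => some k
  | (.cell k _, _) => some k

lemma owner_of_mem {k : K} {l : List A} {d : ℕ} {x : PT Q K A} (h : x ∈ stackM k d l) :
    owner x = some k := by
  rcases mem_stackM h with rfl | ⟨j, _, rfl⟩ <;> rfl

section complete

variable [Fintype K] [DecidableEq K]

lemma sum_nodup (S : K → List A) (ptr : K → ℕ) :
    (∑ k, stackM k (ptr k) (S k) : Multiset (PT Q K A)).Nodup := by
  classical
  rw [Multiset.nodup_iff_count_le_one]
  intro x
  rw [Multiset.count_sum']
  cases hx : owner x with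
  | none =>
    rw [Finset.sum_eq_zero]
    · exact zero_le_one
    · intro k _
      rw [Multiset.count_eq_zero]
      intro h
      rw [owner_of_mem h] at hx
      cases hx
  | some k =>
    rw [Finset.sum_eq_single k]
    · exact Multiset.nodup_iff_count_le_one.1 (stackM_nodup _ _ _) x
    · intro k' _ hk'
      rw [Multiset.count_eq_zero]
      intro h
      rw [owner_of_mem h] at hx
      exact hk' (Option.some.inj hx)
    · intro h; exact absurd (Finset.mem_univ k) h

lemma lvl_nodup (q : Q) (S : K → List A) (ptr : K → ℕ) :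
    (lvl q S ptr : Multiset (PT Q K A)).Nodup := by
  rw [lvl, Multiset.nodup_cons]
  refine ⟨fun h => ?_, sum_nodup _ _⟩
  obtain ⟨k, _, h⟩ := Multiset.mem_sum.1 h
  have := owner_of_mem h
  simp [owner] at this

/-- A good configuration: all positions are in range, all symbols are listed. -/
def GoodCfg (m : ℕ) (as : List (Option A)) (S : K → List A) (ptr : K → ℕ) : Prop :=
  (∀ k, ptr k + (S k).length = m) ∧ (∀ k, ∀ a ∈ S k, some a ∈ as)

lemma GoodCfg.update {m : ℕ} {as : List (Option A)} {S : K → List A} {ptr : K → ℕ}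
    (h : GoodCfg m as S ptr) (k : K) (l : List A) (d : ℕ) (hd : d + l.length = m)
    (hl : ∀ a ∈ l, some a ∈ as) :
    GoodCfg m as (Function.update S k l) (Function.update ptr k d) := by
  refine ⟨fun k' => ?_, fun k' => ?_⟩
  · by_cases hk : k' = k
    · subst hk; simpa using hd
    · simpa [Function.update_of_ne hk] using h.1 k'
  · by_cases hk : k' = k
    · subst hk; simpa using hl
    · simpa [Function.update_of_ne hk] using h.2 k'

lemma mem_sum_good {m : ℕ} {as : List (Option A)} {S : K → List A} {ptr : K → ℕ}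
    (hnone : none ∈ as) (h : GoodCfg m as S ptr) {x : PT Q K A}
    (hx : x ∈ (∑ k, stackM k (ptr k) (S k) : Multiset (PT Q K A))) :
    (∃ k d, x = (.tp k, d) ∧ d ≤ m) ∨ (∃ k a d, x = (.cell k a, d) ∧ d ≤ m ∧ a ∈ as) := by
  obtain ⟨k, _, hx⟩ := Multiset.mem_sum.1 hx
  have h1 := h.1 k
  rcases mem_stackM hx with rfl | ⟨j, hj, rfl⟩
  · exact Or.inl ⟨k, _, rfl, by omega⟩
  · refine Or.inr ⟨k, _, _, rfl, by omega, ?_⟩
    rcases hj.lt_or_eq with hj' | hj'
    · rw [List.getElem?_eq_getElem hj']
      exact h.2 k _ (List.getElem_mem hj')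
    · rw [List.getElem?_eq_none (by omega)]
      exact hnone

lemma step_complete (m n : ℕ) (as : List (Option A)) (ρ : Rule Q K A) (S S' : K → List A)
    (ptr : K → ℕ) (hgood : GoodCfg m as S ptr) (hptr : ∀ k, n + 1 ≤ ptr k)
    (has : ∀ k a, ρ.op = .push k a → some a ∈ as) (h : ρ.op.Rel S S') :
    ∃ d ≤ m, ∃ (ptr' : K → ℕ) (Y : Multiset (PT Q K A)), GoodCfg m as S' ptr' ∧
      (∀ k, n ≤ ptr' k) ∧
      (insL (.rule ρ) d : Multiset (PT Q K A)) + Y = lvl ρ.src S ptr ∧
      (outsL (.rule ρ) d : Multiset (PT Q K A)) + Y = lvl ρ.dst S' ptr' := by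
  obtain ⟨q1, op, q2⟩ := ρ
  have hupd : ∀ (k : K) (d : ℕ), n ≤ d → ∀ k', n ≤ Function.update ptr k d k' := by
    intro k d hd k'
    by_cases hk : k' = k
    · subst hk; simpa using hd
    · rw [Function.update_of_ne hk]; have := hptr k'; omega
  rcases op with _ | ⟨k, a⟩ | ⟨k, a⟩ | ⟨k, a⟩
  · have h : S' = S := h
    subst h
    refine ⟨0, Nat.zero_le _, ptr, ∑ k, stackM k (ptr k) (S' k), hgood,
      fun k => by have := hptr k; omega, ?_, ?_⟩ <;> simp [insL, outsL, lvl, ← Multiset.cons_coe]
  · have h : S' = Function.update S k (a :: S k) := h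
    subst h
    have h1 := hgood.1 k
    have h2 := hptr k
    refine ⟨ptr k - 1, by omega, Function.update ptr k (ptr k - 1),
      cells k (ptr k) (S k) + restM k S ptr, ?_, hupd _ _ (by omega), ?_, ?_⟩
    · apply hgood.update
      · simp; omega
      · intro b hb
        rcases List.mem_cons.1 hb with rfl | hb
        · exact has k b rfl
        · exact hgood.2 k b hb
    · rw [lvl_isolate k]
      have : ptr k - 1 + 1 = ptr k := by omega
      simp only [insL, stackM, this, ← Multiset.cons_coe, Multiset.coe_nil, Multiset.cons_add,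
        zero_add]
    · rw [lvl_update]
      have : ptr k - 1 + 1 = ptr k := by omega
      simp only [outsL, stackM, cells, this, ← Multiset.cons_coe, Multiset.coe_nil,
        Multiset.cons_add, zero_add]
  · obtain ⟨hh, h⟩ : (S k).head? = some a ∧ S' = Function.update S k (S k).tail := h
    subst h
    have h1 := hgood.1 k
    have h2 := hptr k
    have hS : S k = a :: (S k).tail := by
      cases hSk : S k with
      | nil => rw [hSk] at hh; simp at hh
      | cons b l => rw [hSk] at hh; simp at hh; simp [hh]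
    refine ⟨ptr k, by omega, Function.update ptr k (ptr k + 1),
      cells k (ptr k + 1) (S k).tail + restM k S ptr, ?_, hupd _ _ (by omega), ?_, ?_⟩
    · apply hgood.update
      · rw [hS] at h1; simp at h1 ⊢; omega
      · intro b hb
        exact hgood.2 k b (List.mem_of_mem_tail hb)
    · rw [lvl_isolate k]
      conv_rhs => rw [hS]
      simp only [insL, stackM, cells, ← Multiset.cons_coe, Multiset.coe_nil, Multiset.cons_add,
        zero_add]
    · rw [lvl_update]
      simp only [outsL, stackM, ← Multiset.cons_coe, Multiset.coe_nil,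
        Multiset.cons_add, zero_add]
  · obtain ⟨hh, h⟩ : (S k).head? = a ∧ S' = S := h
    subst h
    have h1 := hgood.1 k
    have hc : ∃ Z, cells k (ptr k) (S' k) = ((.cell k a, ptr k) : PT Q K A) ::ₘ Z := by
      cases hSk : S' k with
      | nil => rw [hSk] at hh; simp at hh; subst hh; exact ⟨0, rfl⟩
      | cons b l => rw [hSk] at hh; simp at hh; subst hh; exact ⟨cells k (ptr k + 1) l, rfl⟩
    obtain ⟨Z, hZ⟩ := hc
    refine ⟨ptr k, by omega, ptr, Z + restM k S' ptr, hgood,
      fun k => by have := hptr k; omega, ?_, ?_⟩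
    · rw [lvl_isolate k]
      simp only [insL, stackM, hZ, ← Multiset.cons_coe, Multiset.coe_nil, Multiset.cons_add,
        zero_add]
    · rw [lvl_isolate k]
      simp only [outsL, stackM, hZ, ← Multiset.cons_coe, Multiset.coe_nil,
        Multiset.cons_add, zero_add]

/-- The items which carry over a token. -/
def carry : PT Q K A → IK Q K A × ℕ
  | (.st q, d) => (.start q [], d)
  | (.tp k, d) => (.idle k, d)
  | (.cell k a, d) => (.keep k a, d)

/-- The sink items of a token. -/
def sinkOf : PT Q K A → IK Q K A × ℕ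
  | (.st q, d) => (.start q [], d)
  | (.tp k, d) => (.sinkTp k, d)
  | (.cell k a, d) => (.sinkCell k a, d)

lemma carry_injective : Function.Injective (carry : PT Q K A → IK Q K A × ℕ) := by
  rintro ⟨x, d⟩ ⟨x', d'⟩ h
  rcases x with q | k | ⟨k, a⟩ <;> rcases x' with q' | k' | ⟨k', a'⟩ <;> simp_all [carry]

lemma sinkOf_injective : Function.Injective (sinkOf : PT Q K A → IK Q K A × ℕ) := by
  rintro ⟨x, d⟩ ⟨x', d'⟩ h
  rcases x with q | k | ⟨k, a⟩ <;> rcases x' with q' | k' | ⟨k', a'⟩ <;> simp_all [sinkOf]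

lemma mk_injective (i : ℕ) :
    Function.Injective (fun x : IK Q K A × ℕ => mk x.1 i x.2) := by
  rintro ⟨c, d⟩ ⟨c', d'⟩ h
  have := congrArg Item.name h
  simp only [mk, Prod.mk.injEq, true_and] at this
  simp [this.1, this.2]

/-- tokens other than state tokens, with positions and symbols in range -/
def GoodTok (m : ℕ) (as : List (Option A)) (x : PT Q K A) : Prop :=
  (∃ k d, x = (.tp k, d) ∧ d ≤ m) ∨ (∃ k a d, x = (.cell k a, d) ∧ d ≤ m ∧ a ∈ as)

lemma mem_kindsOf_carry {m : ℕ} {ks : List K} (hks : ∀ k, k ∈ ks) {as : List (Option A)}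
    (R : List (Rule Q K A)) {x : PT Q K A} (hx : GoodTok m as x) :
    (carry x).1 ∈ kindsOf ks as R ∧ (carry x).2 ≤ m := by
  rcases hx with ⟨k, d, rfl, hd⟩ | ⟨k, a, d, rfl, hd, ha⟩
  · exact ⟨by simp [carry, kindsOf, common, hks], hd⟩
  · exact ⟨by simp [carry, kindsOf, common, hks, ha], hd⟩

lemma mem_sinks {m : ℕ} {ks : List K} (hks : ∀ k, k ∈ ks) {as : List (Option A)}
    {x : PT Q K A} (hx : GoodTok m as x) :
    (sinkOf x).1 ∈ (sinks ks as : List (IK Q K A)) ∧ (sinkOf x).2 ≤ m := by
  rcases hx with ⟨k, d, rfl, hd⟩ | ⟨k, a, d, rfl, hd, ha⟩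
  · exact ⟨by simp [sinkOf, sinks, hks], hd⟩
  · exact ⟨by simp [sinkOf, sinks, hks, ha], hd⟩

lemma le_levelItems {m i : ℕ} {cs : List (IK Q K A)} {G : Multiset (IK Q K A × ℕ)}
    (hG : G.Nodup) (h : ∀ x ∈ G, x.1 ∈ cs ∧ x.2 ≤ m) :
    G.map (fun x => mk x.1 i x.2) ≤ (levelItems m i cs : Multiset _) := by
  rw [Multiset.le_iff_subset (hG.map (mk_injective i))]
  intro it hit
  obtain ⟨x, hx, rfl⟩ := Multiset.mem_map.1 hit
  obtain ⟨h1, h2⟩ := h x hx
  exact Multiset.mem_coe.2 (mem_levelItems.2 ⟨x.2, h2, x.1, h1, rfl⟩)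

lemma bind_self {α : Type*} {Y : Multiset α} {g : α → Multiset α} (h : ∀ x ∈ Y, g x = {x}) :
    Y.bind g = Y := by
  rw [Multiset.bind_congr h, Multiset.bind_singleton, Multiset.map_id']

lemma carry_ins {m : ℕ} {as : List (Option A)} {Y : Multiset (PT Q K A)}
    (hY : ∀ x ∈ Y, GoodTok m as x) :
    (Y.map carry).bind (fun x => (insL x.1 x.2 : Multiset (PT Q K A))) = Y := by
  rw [Multiset.bind_map]
  apply bind_self
  intro x hx
  rcases hY x hx with ⟨k, d, rfl, _⟩ | ⟨k, a, d, rfl, _, _⟩ <;> simp [carry, insL]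

lemma carry_outs {m : ℕ} {as : List (Option A)} {Y : Multiset (PT Q K A)}
    (hY : ∀ x ∈ Y, GoodTok m as x) :
    (Y.map carry).bind (fun x => (outsL x.1 x.2 : Multiset (PT Q K A))) = Y := by
  rw [Multiset.bind_map]
  apply bind_self
  intro x hx
  rcases hY x hx with ⟨k, d, rfl, _⟩ | ⟨k, a, d, rfl, _, _⟩ <;> simp [carry, outsL]

lemma sinkOf_ins {m : ℕ} {as : List (Option A)} {Y : Multiset (PT Q K A)}
    (hY : ∀ x ∈ Y, GoodTok m as x) :
    (Y.map sinkOf).bind (fun x => (insL x.1 x.2 : Multiset (PT Q K A))) = Y := by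
  rw [Multiset.bind_map]
  apply bind_self
  intro x hx
  rcases hY x hx with ⟨k, d, rfl, _⟩ | ⟨k, a, d, rfl, _, _⟩ <;> simp [sinkOf, insL]

/-- tokens left when a rule is applied -/
lemma left_good {m : ℕ} {as : List (Option A)} (hnone : none ∈ as) {q : Q} {S : K → List A}
    {ptr : K → ℕ} (hgood : GoodCfg m as S ptr) (ρ : Rule Q K A) (d : ℕ) (Y : Multiset (PT Q K A))
    (h : (insL (.rule ρ) d : Multiset (PT Q K A)) + Y = lvl q S ptr) :
    Y.Nodup ∧ ∀ x ∈ Y, GoodTok m as x := by
  have hnd : ((insL (.rule ρ) d : Multiset (PT Q K A)) + Y).Nodup := h ▸ lvl_nodup q S ptr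
  refine ⟨Multiset.nodup_of_le (Multiset.le_add_left _ _) hnd, fun x hx => ?_⟩
  have hx' : x ∈ lvl q S ptr := by rw [← h]; exact Multiset.mem_add.2 (Or.inr hx)
  have hc := congrArg (Multiset.countP (fun x => isSt x = true)) h
  rw [countP_lvl, Multiset.countP_add, countP_insL (c := .rule ρ) trivial d] at hc
  simp only [isRule, if_true] at hc
  have hc' : Y.countP (fun x => isSt x = true) = 0 := by omega
  rw [Multiset.countP_eq_zero] at hc'
  have h1 := hc' x hx
  rw [lvl, Multiset.mem_cons] at hx'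
  rcases hx' with rfl | hx'
  · simp [isSt] at h1
  · exact mem_sum_good hnone hgood hx'

theorem complete {m : ℕ} {ks : List K} {as : List (Option A)} (hks : ∀ k, k ∈ ks)
    (hnone : none ∈ as) :
    ∀ (L : List (List (Rule Q K A))) (i : ℕ) (q : Q) (S : K → List A) (ptr : K → ℕ)
      (qa : Q) (Sa : K → List A),
      Run L q S qa Sa → GoodCfg m as S ptr → (∀ k, L.length ≤ ptr k) →
      (∀ R ∈ L, ∀ ρ ∈ R, ∀ k a, ρ.op = .push k a → some a ∈ as) →
      ∃ E : Multiset (Item (Nm Q K A) (Tok Q K A)),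
        E ≤ (mainItems m i (levelKinds ks as L) : Multiset _) ∧
        (lvl q S ptr).map (lev i) + E.bind outsI = (.st qa, i + L.length, 0) ::ₘ E.bind insI := by
  intro L
  induction L with
  | nil =>
    intro i q S ptr qa Sa hrun hgood hptr has
    cases hrun
    have hgt : ∀ x ∈ (∑ k, stackM k (ptr k) (S k) : Multiset (PT Q K A)), GoodTok m as x :=
      fun x hx => mem_sum_good hnone hgood hx
    have hle : ((∑ k, stackM k (ptr k) (S k) : Multiset (PT Q K A)).map sinkOf).map
        (fun x => mk x.1 i x.2) ≤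
        ((levelItems m i (sinks ks as) : List (Item (Nm Q K A) (Tok Q K A))) : Multiset _) := by
      apply le_levelItems
      · exact (sum_nodup S ptr).map sinkOf_injective
      · intro y hy
        obtain ⟨x, hx, rfl⟩ := Multiset.mem_map.1 hy
        exact mem_sinks hks (hgt x hx)
    have hle' : ((∑ k, stackM k (ptr k) (S k) : Multiset (PT Q K A)).map sinkOf).map
        (fun x => mk x.1 i x.2) ≤
        (mainItems m i (levelKinds ks as ([] : List (List (Rule Q K A)))) : Multiset _) := by
      simpa [levelKinds, mainItems] using hle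
    refine ⟨_, hle', ?_⟩
    rw [no_outs_sinks hle', bind_ins_eq, sinkOf_ins hgt, lvl]
    simp [lev]
  | cons R L ih =>
    intro i q S ptr qa Sa hrun hgood hptr has
    cases hrun with
    | cons ρ hρ hs hr hrun =>
      rename_i S'
      subst hs
      obtain ⟨d, hd, ptr', Y, hgood', hptr', h1, h2⟩ := step_complete m L.length as ρ S S' ptr
        hgood (fun k => by have := hptr k; simpa using this)
        (fun k a h => has R (by simp) ρ hρ k a h) hr
      obtain ⟨E', hE', hbal⟩ := ih (i+1) ρ.dst S' ptr' qa Sa hrun hgood' hptr'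
        (fun R' hR' => has R' (by simp [hR']))
      obtain ⟨hYn, hYg⟩ := left_good hnone hgood ρ d Y h1
      set G : Multiset (IK Q K A × ℕ) := (.rule ρ, d) ::ₘ Y.map carry with hG
      have hGn : G.Nodup := by
        rw [hG, Multiset.nodup_cons]
        refine ⟨fun h => ?_, hYn.map carry_injective⟩
        obtain ⟨⟨x, n⟩, _, hx⟩ := Multiset.mem_map.1 h
        rcases x with q | k | ⟨k, a⟩ <;> simp [carry] at hx
      have hGm : ∀ x ∈ G, x.1 ∈ kindsOf ks as R ∧ x.2 ≤ m := by
        intro x hx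
        rcases Multiset.mem_cons.1 hx with rfl | hx
        · exact ⟨by simp [kindsOf, hρ], hd⟩
        · obtain ⟨y, hy, rfl⟩ := Multiset.mem_map.1 hx
          exact mem_kindsOf_carry hks R (hYg y hy)
      have hF := le_levelItems (i := i) hGn hGm
      refine ⟨G.map (fun x => mk x.1 i x.2) + E', ?_, ?_⟩
      · have : (mainItems m i (levelKinds ks as (R :: L)) :
            Multiset (Item (Nm Q K A) (Tok Q K A))) =
            (levelItems m i (kindsOf ks as R) : Multiset _) +
              (mainItems m (i+1) (levelKinds ks as L) : Multiset _) := by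
          simp [levelKinds, mainItems]
        rw [this]
        exact add_le_add hF hE'
      · rw [Multiset.add_bind, Multiset.add_bind, bind_ins_eq,
          bind_outs_eq _ _ (fun x hx => isMain_of_mem_kindsOf (hGm x hx).1)]
        have h3 : G.bind (fun x => (insL x.1 x.2 : Multiset (PT Q K A))) = lvl ρ.src S ptr := by
          rw [hG, Multiset.cons_bind, carry_ins hYg, h1]
        have h4 : G.bind (fun x => (outsL x.1 x.2 : Multiset (PT Q K A))) = lvl ρ.dst S' ptr' := by
          rw [hG, Multiset.cons_bind, carry_outs hYg, h2]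
        rw [h3, h4, hbal, Multiset.add_cons]
        have : i + (R :: L).length = i + 1 + L.length := by simp; omega
        rw [this]

lemma start_outs (q0 : Q) (ks : List K) (hks : ∀ k, k ∈ ks) (hnd : ks.Nodup) (m : ℕ) :
    (outsL (.start q0 ks : IK Q K A) m : Multiset (PT Q K A)) = lvl q0 (fun _ => []) (fun _ => m) := by
  have huniv : (Finset.univ : Finset K) = ⟨(ks : Multiset K), hnd⟩ := by
    ext k; simp [hks]
  rw [lvl, outsL, huniv, ← Multiset.cons_coe]
  congr 1
  rw [Finset.sum_mk]
  clear huniv hks hnd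
  induction ks with
  | nil => simp
  | cons k ks ih =>
    rw [List.flatMap_cons, ← Multiset.coe_add, ih]
    simp [stackM, cells, ← Multiset.cons_coe]

/-- **Machine runs and balanced item sets.** -/
theorem items_iff {m : ℕ} {ks : List K} {as : List (Option A)} (hks : ∀ k, k ∈ ks)
    (hnd : ks.Nodup) (hnone : none ∈ as) (q0 qa : Q) (L : List (List (Rule Q K A)))
    (hm : L.length ≤ m) (has : ∀ R ∈ L, ∀ ρ ∈ R, ∀ k a, ρ.op = .push k a → some a ∈ as) :
    (∃ E : Multiset (Item (Nm Q K A) (Tok Q K A)),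
      E ≤ (allItems q0 ks as m L : Multiset _) ∧
      E.bind (fun it => (outs it.toks : Multiset (Tok Q K A))) =
        (.st qa, L.length, 0) ::ₘ E.bind (fun it => (ins it.toks : Multiset (Tok Q K A)))) ↔
    ∃ Sa, Run L q0 (fun _ => []) qa Sa := by
  classical
  have hstart : outsI (mk (.start q0 ks : IK Q K A) 0 m) =
      (lvl q0 (fun _ => []) (fun _ => m)).map (lev 0) := by
    rw [outsI, outs_mk_start, ← start_outs q0 ks hks hnd m, Multiset.map_coe]
  have hstart' : insI (mk (.start q0 ks : IK Q K A) 0 m) = 0 := by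
    rw [insI, ins_mk]; rfl
  constructor
  · rintro ⟨E, hE, hbal⟩
    rw [allItems, ← Multiset.cons_coe, ← Multiset.singleton_add] at hE
    obtain ⟨E1, E2, h1, h2, rfl⟩ := le_add_split hE
    rw [Multiset.le_singleton] at h1
    rcases h1 with rfl | rfl
    · exfalso
      rw [zero_add] at hbal
      exact sound0 qa L 0 E2 h2 (by simpa using hbal)
    · rw [Multiset.add_bind, Multiset.add_bind, Multiset.singleton_bind,
        Multiset.singleton_bind] at hbal
      change outsI _ + E2.bind outsI = _ ::ₘ (insI _ + E2.bind insI) at hbal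
      rw [hstart, hstart', zero_add] at hbal
      exact sound qa L 0 q0 _ _ E2 h2 (by simpa using hbal)
  · rintro ⟨Sa, hrun⟩
    have hgood : GoodCfg m as (fun _ : K => ([] : List A)) (fun _ => m) :=
      ⟨fun k => by simp, fun k a ha => by simp at ha⟩
    obtain ⟨E, hE, hbal⟩ := complete hks hnone L 0 q0 _ _ qa Sa hrun hgood (fun _ => hm) has
    refine ⟨{mk (.start q0 ks) 0 m} + E, ?_, ?_⟩
    · rw [allItems, ← Multiset.cons_coe, ← Multiset.singleton_add]
      exact add_le_add le_rfl hE
    · rw [Multiset.add_bind, Multiset.add_bind, Multiset.singleton_bind,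
        Multiset.singleton_bind]
      change outsI _ + E.bind outsI = _ ::ₘ (insI _ + E.bind insI)
      rw [hstart, hstart', zero_add, hbal]
      simp

end complete

/-! ### Names are distinct -/

lemma names_levelItems (m i : ℕ) (cs : List (IK Q K A)) (h : cs.Nodup) :
    ((levelItems m i cs).map Item.name).Nodup := by
  rw [levelItems, List.map_flatMap]
  rw [List.nodup_flatMap]
  refine ⟨fun d _ => ?_, ?_⟩
  · rw [List.map_map]
    apply h.map
    intro c c' hcc
    simpa [mk] using hcc
  · apply List.nodup_range.imp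
    intro d d' hdd x hx hx'
    simp only [List.map_map, List.mem_map, Function.comp, mk] at hx hx'
    obtain ⟨c, _, rfl⟩ := hx
    obtain ⟨c', _, h'⟩ := hx'
    simp only [Prod.mk.injEq] at h'
    exact hdd h'.2.2.symm

lemma names_mainItems (m : ℕ) : ∀ (L : List (List (IK Q K A))) (i : ℕ), (∀ cs ∈ L, cs.Nodup) →
    ((mainItems m i L).map Item.name).Nodup ∧
      ∀ x ∈ (mainItems m i L).map Item.name, i ≤ x.2.1 ∧ ∃ cs ∈ L, x.1 ∈ cs := by
  intro L
  induction L with
  | nil => intro i _; simp [mainItems]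
  | cons cs L ih =>
    intro i h
    obtain ⟨h1, h2⟩ := ih (i+1) (fun c hc => h c (by simp [hc]))
    have h3 := names_levelItems m i cs (h cs (by simp))
    have h4 : ∀ x ∈ (levelItems m i cs).map Item.name, x.2.1 = i ∧ x.1 ∈ cs := by
      intro x hx
      obtain ⟨it, hit, rfl⟩ := List.mem_map.1 hx
      obtain ⟨d, _, c, hc, rfl⟩ := mem_levelItems.1 hit
      exact ⟨rfl, hc⟩
    rw [mainItems, List.map_append]
    refine ⟨List.Nodup.append h3 h1 ?_, ?_⟩
    · intro x hx hx'
      have e1 := (h4 x hx).1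
      have e2 := (h2 x hx').1
      omega
    · intro x hx
      rcases List.mem_append.1 hx with hx | hx
      · obtain ⟨e1, e2⟩ := h4 x hx
        exact ⟨by omega, cs, by simp, e2⟩
      · obtain ⟨e1, cs', e2, e3⟩ := h2 x hx
        exact ⟨by omega, cs', by simp [e2], e3⟩

lemma nodup_kindsOf {ks : List K} {as : List (Option A)} (hks : ks.Nodup) (has : as.Nodup)
    {R : List (Rule Q K A)} (hR : R.Nodup) : (kindsOf ks as R).Nodup := by
  have h1 : (R.map (IK.rule : Rule Q K A → IK Q K A)).Nodup :=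
    hR.map (fun a b h => by simpa using h)
  have h2 : (ks.map (IK.idle : K → IK Q K A)).Nodup := hks.map (fun a b h => by simpa using h)
  have h3 : (ks.flatMap (fun k => as.map (IK.keep k : Option A → IK Q K A))).Nodup := by
    rw [List.nodup_flatMap]
    refine ⟨fun k _ => has.map (fun a b h => by simpa using h), ?_⟩
    apply hks.imp
    intro a b hab x hx hx'
    obtain ⟨c, _, rfl⟩ := List.mem_map.1 hx
    obtain ⟨c', _, h'⟩ := List.mem_map.1 hx'
    simp only [IK.keep.injEq] at h'
    exact hab h'.1.symm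
  rw [kindsOf, common]
  refine List.Nodup.append h1 (List.Nodup.append h2 h3 ?_) ?_
  · intro x hx hx'
    obtain ⟨k, _, rfl⟩ := List.mem_map.1 hx
    simp at hx'
  · intro x hx hx'
    obtain ⟨k, _, rfl⟩ := List.mem_map.1 hx
    simp at hx'

lemma nodup_sinks {ks : List K} {as : List (Option A)} (hks : ks.Nodup) (has : as.Nodup) :
    (sinks ks as : List (IK Q K A)).Nodup := by
  have h2 : (ks.map (IK.sinkTp : K → IK Q K A)).Nodup := hks.map (fun a b h => by simpa using h)
  have h3 : (ks.flatMap (fun k => as.map (IK.sinkCell k : Option A → IK Q K A))).Nodup := by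
    rw [List.nodup_flatMap]
    refine ⟨fun k _ => has.map (fun a b h => by simpa using h), ?_⟩
    apply hks.imp
    intro a b hab x hx hx'
    obtain ⟨c, _, rfl⟩ := List.mem_map.1 hx
    obtain ⟨c', _, h'⟩ := List.mem_map.1 hx'
    simp only [IK.sinkCell.injEq] at h'
    exact hab h'.1.symm
  rw [sinks]
  refine List.Nodup.append h2 h3 ?_
  intro x hx hx'
  obtain ⟨k, _, rfl⟩ := List.mem_map.1 hx
  simp at hx'

lemma names_allItems (q0 : Q) {ks : List K} {as : List (Option A)} (hks : ks.Nodup)
    (has : as.Nodup) (m : ℕ) (L : List (List (Rule Q K A))) (hL : ∀ R ∈ L, R.Nodup) :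
    ((allItems q0 ks as m L).map Item.name).Nodup := by
  have hL' : ∀ cs ∈ levelKinds ks as L, cs.Nodup := by
    intro cs hcs
    simp only [levelKinds, List.mem_append, List.mem_map, List.mem_singleton] at hcs
    rcases hcs with ⟨R, hR, rfl⟩ | rfl
    · exact nodup_kindsOf hks has (hL R hR)
    · exact nodup_sinks hks has
  obtain ⟨h1, h2⟩ := names_mainItems m (levelKinds ks as L) 0 hL'
  rw [allItems, List.map_cons, List.nodup_cons]
  refine ⟨fun h => ?_, h1⟩
  obtain ⟨_, cs, hcs, hx⟩ := h2 _ h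
  simp only [levelKinds, List.mem_append, List.mem_map, List.mem_singleton] at hcs
  simp only [mk] at hx
  rcases hcs with ⟨R, hR, rfl⟩ | rfl
  · simp [kindsOf, common] at hx
  · simp [sinks] at hx

lemma tmpl_ne_nil (c : IK Q K A) : tmpl c ≠ [] := by
  rcases c with ⟨q, ks⟩ | ⟨q, op, q'⟩ | k | ⟨k, a⟩ | k | ⟨k, a⟩
  · simp [tmpl]
  · rcases op with _ | ⟨k, a⟩ | ⟨k, a⟩ | ⟨k, a⟩ <;> simp [tmpl]
  all_goals simp [tmpl]

lemma toks_ne_nil (q0 : Q) (ks : List K) (as : List (Option A)) (m : ℕ)
    (L : List (List (Rule Q K A))) : ∀ it ∈ allItems q0 ks as m L, it.toks ≠ [] := by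
  intro it hit
  rw [allItems, List.mem_cons] at hit
  rcases hit with rfl | hit
  · simp [mk, tmpl_ne_nil]
  · obtain ⟨i, _, d, c, _, rfl⟩ := mem_mainItems hit
    simp [mk, tmpl_ne_nil]

/-- **Machine runs and common strip partitions.** -/
theorem csp_run_iff [Fintype K] [DecidableEq K] {m : ℕ} {ks : List K} {as : List (Option A)}
    (hks : ∀ k, k ∈ ks) (hnd : ks.Nodup) (hnone : none ∈ as) (hasn : as.Nodup) (q0 qa : Q)
    (L : List (List (Rule Q K A))) (hL : ∀ R ∈ L, R.Nodup)
    (hm : L.length ≤ m) (has : ∀ R ∈ L, ∀ ρ ∈ R, ∀ k a, ρ.op = .push k a → some a ∈ as) :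
    HasCommonStripPartition (strS (allItems q0 ks as m L) (.st qa, L.length, 0))
      (strT (allItems q0 ks as m L) (.st qa, L.length, 0)) ↔
    ∃ Sa, Run L q0 (fun _ => []) qa Sa := by
  rw [hasCSP_iff_multiset _ _ (names_allItems q0 hnd hasn m L hL) (toks_ne_nil q0 ks as m L)]
  exact items_iff hks hnd hnone q0 qa L hm has

end Pool.Agent.helper62
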