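import Pool.Agent.helper62.Writer
import Pool.Agent.helper62.Machine

/-!
Letters as numbers, and the templates of the documents.
-/

set_option autoImplicit false
set_option linter.unusedSimpArgs false
set_option linter.unusedSectionVars false

namespace Pool.Agent.helper62

open Function Computability

/-! ### Numbers with prescribed binary expansion -/

/-- The positive number with binary digits `l`, then `1`. -/
def posOf : List Bool → PosNum
  | [] => 1
  | b :: l => if b then PosNum.bit1 (posOf l) else PosNum.bit0 (posOf l)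

lemma encodePosNum_posOf (l : List Bool) : encodePosNum (posOf l) = l ++ [true] := by
  induction l with
  | nil => rfl
  | cons b l ih =>
    cases b
    · change encodePosNum (PosNum.bit0 (posOf l)) = _
      rw [encodePosNum, ih]; rfl
    · change encodePosNum (PosNum.bit1 (posOf l)) = _
      rw [encodePosNum, ih]; rfl

lemma encodeNat_posOf (l : List Bool) : encodeNat ((posOf l : PosNum) : ℕ) = l ++ [true] := by
  rw [encodeNat, PosNum.of_to_nat]
  exact encodePosNum_posOf l

/-- The number of a letter. -/
def num (t : ℕ × ℕ × ℕ) : ℕ :=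
  ((posOf (List.replicate t.1 true ++ false :: (List.replicate t.2.1 true ++ false ::
    List.replicate t.2.2 true)) : PosNum) : ℕ)

lemma encodeNat_num (t : ℕ × ℕ × ℕ) : encodeNat (num t) = letterBits t.1 t.2.1 t.2.2 := by
  rw [num, encodeNat_posOf, letterBits, List.replicate_succ']
  simp

lemma takeWhile_replicate (n : ℕ) (l : List Bool) :
    ((List.replicate n true ++ false :: l).takeWhile (fun b => b)).length = n := by
  induction n with
  | zero => simp
  | succ n ih => simp [List.replicate_succ, ih]

lemma replicate_inj {n n' : ℕ} {l l' : List Bool}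
    (h : List.replicate n true ++ false :: l = List.replicate n' true ++ false :: l') :
    n = n' ∧ l = l' := by
  have h1 := congrArg (fun y => (y.takeWhile (fun b => b)).length) h
  simp only [takeWhile_replicate] at h1
  subst h1
  have := List.append_cancel_left h
  exact ⟨rfl, by simpa using this⟩

lemma letterBits_inj {c i d c' i' d' : ℕ} (h : letterBits c i d = letterBits c' i' d') :
    c = c' ∧ i = i' ∧ d = d' := by
  unfold letterBits at h
  obtain ⟨h1, h2⟩ := replicate_inj h
  obtain ⟨h3, h4⟩ := replicate_inj h2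
  have := congrArg List.length h4
  simp at this
  exact ⟨h1, h3, this⟩

lemma num_injective : Function.Injective num := by
  rintro ⟨c, i, d⟩ ⟨c', i', d'⟩ h
  have h1 := congrArg encodeNat h
  rw [encodeNat_num, encodeNat_num] at h1
  obtain ⟨h2, h3, h4⟩ := letterBits_inj h1
  simp only at h2 h3 h4
  rw [h2, h3, h4]

/-! ### Encodings of the output -/

/-- what is written for a letter -/
def encT (M : Mode) (t : ℕ × ℕ × ℕ) : List Bool :=
  (letterBits t.1 t.2.1 t.2.2).flatMap M.code ++ M.fin

lemma delimit_eq (l : List Bool) :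
    N487b59b3.delimit l = l.flatMap (fun b => [true, b]) ++ [false] := by
  have := delimit_append_aux l []
  rwa [List.append_nil] at this

def modeT : Mode := ⟨fun b => [true, b], [false]⟩
def modeS : Mode := ⟨fun b => [true, true, true, b], [true, false]⟩

lemma bitEncode_nats (S : List (ℕ × ℕ × ℕ)) :
    N487b59b3.bitEncode (S.map num) = S.flatMap (encT modeT) := by
  change (((S.map num).map N487b59b3.bitEncode).map N487b59b3.delimit).flatten = _
  rw [List.map_map, List.map_map, List.flatMap]
  congr 1
  apply List.map_congr_left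
  intro t _
  change N487b59b3.delimit (encodeNat (num t)) = _
  rw [encodeNat_num, delimit_eq]
  rfl

lemma bitEncode_pair_nats (S T : List (ℕ × ℕ × ℕ)) :
    N487b59b3.bitEncode (S.map num, T.map num) =
      (S.flatMap (encT modeS) ++ [false]) ++ (T.flatMap (encT modeT) ++ []) := by
  change N487b59b3.delimit (N487b59b3.bitEncode (S.map num)) ++
    N487b59b3.bitEncode (T.map num) = _
  rw [bitEncode_nats, bitEncode_nats, delimit_eq, List.append_nil, List.flatMap_assoc]
  congr 3
  funext t
  simp only [encT, modeT, modeS, List.flatMap_append, List.flatMap_assoc, List.flatMap_cons,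
    List.flatMap_nil, List.append_nil, List.cons_append, List.nil_append]

/-! ### Renaming of letters -/

section

variable {V V' Tk Tk' : Type}

def Letter.map (φ : V → V') (ψ : Tk → Tk') : Letter V Tk → Letter V' Tk'
  | .s v => .s (φ v)
  | .t v => .t (φ v)
  | .y v j => .y (φ v) j
  | .e v => .e (φ v)
  | .f v => .f (φ v)
  | .p a => .p (ψ a)
  | .q a => .q (ψ a)
  | .z a => .z (ψ a)
  | .r a => .r (ψ a)

lemma map_mid (φ : V → V') (ψ : Tk → Tk') (b : Bool) (a : Tk) :
    Letter.map φ ψ (mid b a : Letter V Tk) = mid b (ψ a) := by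
  cases b <;> rfl

lemma map_body (φ : V → V') (ψ : Tk → Tk') (v : V) (flip : Bool) (l : List (Bool × Tk)) : ∀ j,
    (body v flip j l).map (Letter.map φ ψ) =
      body (φ v) flip j (l.map (fun x => (x.1, ψ x.2))) := by
  induction l with
  | nil => intro j; rfl
  | cons x l ih =>
    intro j
    simp only [body, List.map_cons, ih, map_mid]
    rfl

lemma map_gadget (φ : V → V') (ψ : Tk → Tk') (v : V) (flip : Bool) (l : List (Bool × Tk)) :
    (gadget v flip l).map (Letter.map φ ψ) =
      gadget (φ v) flip (l.map (fun x => (x.1, ψ x.2))) := by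
  simp only [gadget, List.map_cons, map_body]
  rfl

lemma map_occWords (φ : V → V') (ψ : Tk → Tk') (v : V) (l : List (Bool × Tk)) : ∀ j,
    (occWords v j l).map (List.map (Letter.map φ ψ)) =
      occWords (φ v) j (l.map (fun x => (x.1, ψ x.2))) := by
  induction l with
  | nil => intro j; rfl
  | cons x l ih =>
    intro j
    simp only [occWords, List.map_cons, ih, map_mid, List.map_nil]
    rfl

lemma map_unitWords (φ : V → V') (ψ : Tk → Tk') (v : V) (l : List (Bool × Tk)) :
    (unitWords v l).map (List.map (Letter.map φ ψ)) =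
      unitWords (φ v) (l.map (fun x => (x.1, ψ x.2))) := by
  simp only [unitWords, List.map_append, map_occWords, List.map_cons, List.map_nil,
    List.length_map]
  rfl

/-- What an item contributes to the first string. -/
def wS (v : V) (l : List (Bool × Tk)) : List (Letter V Tk) := gadget v false l ++ gadget v true l

/-- What an item contributes to the second string. -/
def wT (v : V) (l : List (Bool × Tk)) : List (Letter V Tk) := (unitWords v l).flatten

lemma map_wS (φ : V → V') (ψ : Tk → Tk') (v : V) (l : List (Bool × Tk)) :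
    (wS v l).map (Letter.map φ ψ) = wS (φ v) (l.map (fun x => (x.1, ψ x.2))) := by
  simp only [wS, List.map_append, map_gadget]

lemma map_wT (φ : V → V') (ψ : Tk → Tk') (v : V) (l : List (Bool × Tk)) :
    (wT v l).map (Letter.map φ ψ) = wT (φ v) (l.map (fun x => (x.1, ψ x.2))) := by
  simp only [wT, List.map_flatten, map_unitWords]

lemma strS_eq (items : List (Item V Tk)) (star : Tk) :
    strS items star = items.flatMap (fun it => wS it.name it.toks) ++
      [.p star, .z star, .q star, .r star] := rfl

lemma strT_eq (items : List (Item V Tk)) (star : Tk) :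
    strT items star = items.flatMap (fun it => wT it.name it.toks) ++
      [.z star, .r star, .p star, .q star] := by
  simp only [strT, wordsT, List.flatten_append, wT]
  congr 1
  induction items with
  | nil => rfl
  | cons it items ih => simp [ih]

/-- Letters of items. -/
def InLet (P : V → Prop) (R : Tk → Prop) : Letter V Tk → Prop
  | .s v => P v
  | .t v => P v
  | .y v _ => P v
  | .e v => P v
  | .f v => P v
  | .p a => R a
  | .q a => R a
  | .z a => R a
  | .r a => R a

lemma inLet_mid {P : V → Prop} {R : Tk → Prop} {b : Bool} {a : Tk} (h : R a) :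
    InLet P R (mid b a : Letter V Tk) := by
  cases b <;> exact h

lemma inLet_body {P : V → Prop} {R : Tk → Prop} {v : V} {flip : Bool} (hv : P v) :
    ∀ {l : List (Bool × Tk)} {j : ℕ}, (∀ x ∈ l, R x.2) → ∀ a ∈ body v flip j l, InLet P R a := by
  intro l
  induction l with
  | nil =>
    intro j _ a ha
    simp only [body, List.mem_cons, List.not_mem_nil, or_false] at ha
    rcases ha with rfl | rfl <;> exact hv
  | cons x l ih =>
    intro j h a ha
    simp only [body, List.mem_cons] at ha
    have hx := h x (by simp)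
    rcases ha with rfl | rfl | rfl | rfl | ha
    · exact hx
    · exact inLet_mid hx
    · exact hx
    · exact hv
    · exact ih (fun x hx => h x (by simp [hx])) a ha

lemma inLet_wS {P : V → Prop} {R : Tk → Prop} {v : V} (hv : P v) {l : List (Bool × Tk)}
    (h : ∀ x ∈ l, R x.2) : ∀ a ∈ wS v l, InLet P R a := by
  intro a ha
  simp only [wS, gadget, List.mem_append, List.mem_cons] at ha
  rcases ha with (rfl | rfl | rfl | ha) | (rfl | rfl | rfl | ha)
  · exact hv
  · exact hv
  · exact hv
  · exact inLet_body hv h a ha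
  · exact hv
  · exact hv
  · exact hv
  · exact inLet_body hv h a ha

lemma inLet_occWords {P : V → Prop} {R : Tk → Prop} {v : V} (hv : P v) :
    ∀ {l : List (Bool × Tk)} {j : ℕ}, (∀ x ∈ l, R x.2) → ∀ w ∈ occWords v j l, ∀ a ∈ w,
      InLet P R a := by
  intro l
  induction l with
  | nil => intro j _ w hw; simp [occWords] at hw
  | cons x l ih =>
    intro j h w hw a ha
    have hx := h x (by simp)
    simp only [occWords, List.mem_cons] at hw
    rcases hw with rfl | rfl | rfl | rfl | hw
    · simp only [List.mem_cons, List.not_mem_nil, or_false] at ha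
      rcases ha with rfl | rfl
      · exact hx
      · exact hv
    · simp only [List.mem_cons, List.not_mem_nil, or_false] at ha
      rcases ha with rfl | rfl
      · exact inLet_mid hx
      · exact hx
    · simp only [List.mem_cons, List.not_mem_nil, or_false] at ha
      rcases ha with rfl | rfl
      · exact hx
      · exact inLet_mid hx
    · simp only [List.mem_cons, List.not_mem_nil, or_false] at ha
      rcases ha with rfl | rfl
      · exact hv
      · exact hx
    · exact ih (fun x hx => h x (by simp [hx])) w hw a ha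

lemma inLet_wT {P : V → Prop} {R : Tk → Prop} {v : V} (hv : P v) {l : List (Bool × Tk)}
    (h : ∀ x ∈ l, R x.2) : ∀ a ∈ wT v l, InLet P R a := by
  intro a ha
  simp only [wT, List.mem_flatten, unitWords, List.mem_append] at ha
  obtain ⟨w, hw | hw, ha⟩ := ha
  · exact inLet_occWords hv h w hw a ha
  · simp only [List.mem_cons, List.not_mem_nil, or_false] at hw
    rcases hw with rfl | rfl | rfl | rfl <;>
      simp only [List.mem_cons, List.not_mem_nil, or_false] at ha
    · rcases ha with rfl | rfl <;> exact hv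
    · rcases ha with rfl | rfl | rfl <;> exact hv
    · rcases ha with rfl | rfl | rfl <;> exact hv
    · rcases ha with rfl | rfl <;> exact hv

end

/-! ### Codes of letters -/

section codes

variable {Q K A : Type}

/-- Codes of letters, given codes of the kinds of items and tokens. -/
def gCode (ci : IK Q K A → ℕ) (ck : Kd Q K A → ℕ) : Letter (Nm Q K A) (Tok Q K A) → ℕ × ℕ × ℕ
  | .s v => (2 * Nat.pair (ci v.1) 0, v.2.1, v.2.2)
  | .t v => (2 * Nat.pair (ci v.1) 1, v.2.1, v.2.2)
  | .e v => (2 * Nat.pair (ci v.1) 2, v.2.1, v.2.2)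
  | .f v => (2 * Nat.pair (ci v.1) 3, v.2.1, v.2.2)
  | .y v j => (2 * Nat.pair (ci v.1) (4 + j), v.2.1, v.2.2)
  | .p a => (2 * Nat.pair (ck a.1) 0 + 1, a.2.1, a.2.2)
  | .q a => (2 * Nat.pair (ck a.1) 1 + 1, a.2.1, a.2.2)
  | .z a => (2 * Nat.pair (ck a.1) 2 + 1, a.2.1, a.2.2)
  | .r a => (2 * Nat.pair (ck a.1) 3 + 1, a.2.1, a.2.2)

lemma pair_ne {a b c d : ℕ} (h : b ≠ d) : Nat.pair a b ≠ Nat.pair c d := fun h' =>
  h (Nat.pair_eq_pair.1 h').2

lemma gCode_injOn {ci : IK Q K A → ℕ} {ck : Kd Q K A → ℕ} {P : IK Q K A → Prop}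
    {R : Kd Q K A → Prop} (hci : ∀ c c', P c → P c' → ci c = ci c' → c = c')
    (hck : ∀ c c', R c → R c' → ck c = ck c' → c = c') :
    Set.InjOn (gCode ci ck) {a | InLet (fun v : Nm Q K A => P v.1) (fun t : Tok Q K A => R t.1) a} := by
  have hi : ∀ (v v' : Nm Q K A) (n n' : ℕ), P v.1 → P v'.1 →
      2 * Nat.pair (ci v.1) n = 2 * Nat.pair (ci v'.1) n' → v.2.1 = v'.2.1 → v.2.2 = v'.2.2 →
      v = v' ∧ n = n' := by
    rintro ⟨c, i, d⟩ ⟨c', i', d'⟩ n n' h1 h2 h3 h4 h5
    simp only at h1 h2 h3 h4 h5
    have h6 : Nat.pair (ci c) n = Nat.pair (ci c') n' := by omega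
    obtain ⟨h7, h8⟩ := Nat.pair_eq_pair.1 h6
    rw [hci c c' h1 h2 h7, h4, h5]
    exact ⟨rfl, h8⟩
  have hk : ∀ (v v' : Tok Q K A) (n n' : ℕ), R v.1 → R v'.1 →
      2 * Nat.pair (ck v.1) n + 1 = 2 * Nat.pair (ck v'.1) n' + 1 → v.2.1 = v'.2.1 →
      v.2.2 = v'.2.2 → v = v' ∧ n = n' := by
    rintro ⟨c, i, d⟩ ⟨c', i', d'⟩ n n' h1 h2 h3 h4 h5
    simp only at h1 h2 h3 h4 h5
    have h6 : Nat.pair (ck c) n = Nat.pair (ck c') n' := by omega
    obtain ⟨h7, h8⟩ := Nat.pair_eq_pair.1 h6
    rw [hck c c' h1 h2 h7, h4, h5]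
    exact ⟨rfl, h8⟩
  intro a ha b hb h
  simp only [Set.mem_ofPred_eq] at ha hb
  cases a <;> cases b <;> simp only [gCode, Prod.mk.injEq] at h <;>
    simp only [InLet] at ha hb <;>
    first
      | (exfalso; omega)
      | (obtain ⟨h1, h2⟩ := hi _ _ _ _ ha hb h.1 h.2.1 h.2.2
         first
           | (exfalso; omega)
           | (subst h1; first | rfl | (have h3 := Nat.add_left_cancel h2; subst h3; rfl)))
      | (obtain ⟨h1, h2⟩ := hk _ _ _ _ ha hb h.1 h.2.1 h.2.2
         first
           | (exfalso; omega)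
           | (subst h1; rfl))

/-- Code of a template letter. -/
def ct (ci : IK Q K A → ℕ) (ck : Kd Q K A → ℕ) (c : IK Q K A) : Letter Unit (Tm Q K A) → LT
  | .s _ => (2 * Nat.pair (ci c) 0, false, .here)
  | .t _ => (2 * Nat.pair (ci c) 1, false, .here)
  | .e _ => (2 * Nat.pair (ci c) 2, false, .here)
  | .f _ => (2 * Nat.pair (ci c) 3, false, .here)
  | .y _ j => (2 * Nat.pair (ci c) (4 + j), false, .here)
  | .p a => (2 * Nat.pair (ck a.kd) 0 + 1, a.up, a.pos)
  | .q a => (2 * Nat.pair (ck a.kd) 1 + 1, a.up, a.pos)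
  | .z a => (2 * Nat.pair (ck a.kd) 2 + 1, a.up, a.pos)
  | .r a => (2 * Nat.pair (ck a.kd) 3 + 1, a.up, a.pos)

/-- Instance of a template. -/
def inst (i d : ℕ) (t : LT) : ℕ × ℕ × ℕ := (t.1, (if t.2.1 then i + 1 else i), t.2.2.val d)

lemma encLT_eq (M : Mode) (i d : ℕ) (t : LT) : encLT M i d t = encT M (inst i d t) := rfl

lemma inst_ct (ci : IK Q K A → ℕ) (ck : Kd Q K A → ℕ) (c : IK Q K A) (i d : ℕ)
    (a : Letter Unit (Tm Q K A)) : inst i d (ct ci ck c a) =
      gCode ci ck (Letter.map (fun _ => (c, i, d))
        (fun t => (t.kd, (if t.up then i + 1 else i), t.pos.val d)) a) := by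
  cases a <;> rfl

/-- The template of an item, for a writing `w`. -/
def lt (w : Unit → List (Bool × Tm Q K A) → List (Letter Unit (Tm Q K A)))
    (ci : IK Q K A → ℕ) (ck : Kd Q K A → ℕ) (c : IK Q K A) : List LT :=
  (w () ((tmpl c).map (fun t => (t.sign, t)))).map (ct ci ck c)

lemma encLTs_lt (M : Mode)
    (w : {V Tk : Type} → V → List (Bool × Tk) → List (Letter V Tk))
    (hw : ∀ {V V' Tk Tk' : Type} (φ : V → V') (ψ : Tk → Tk') (v : V) (l : List (Bool × Tk)),
      (w v l).map (Letter.map φ ψ) = w (φ v) (l.map (fun x => (x.1, ψ x.2))))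
    (ci : IK Q K A → ℕ) (ck : Kd Q K A → ℕ) (c : IK Q K A) (i d : ℕ) :
    encLTs M i d (lt w ci ck c) =
      (w (mk c i d).name (mk c i d).toks).flatMap (fun a => encT M (gCode ci ck a)) := by
  have h1 : (mk c i d).toks = ((tmpl c).map (fun t => (t.sign, t))).map (fun x => (x.1,
      (fun t : Tm Q K A => (t.kd, (if t.up then i + 1 else i), t.pos.val d)) x.2)) := by
    rw [List.map_map]
    rfl
  have h2 : (mk c i d).name = (fun _ : Unit => (c, i, d)) () := rfl
  rw [h1, h2, ← hw (fun _ : Unit => (c, i, d))
    (fun t : Tm Q K A => (t.kd, (if t.up then i + 1 else i), t.pos.val d))]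
  unfold encLTs lt
  rw [List.flatMap_map, List.flatMap_map]
  congr 1
  funext a
  rw [encLT_eq, inst_ct]

/-- levels as templates -/
def ltL (w : Unit → List (Bool × Tm Q K A) → List (Letter Unit (Tm Q K A)))
    (ci : IK Q K A → ℕ) (ck : Kd Q K A → ℕ) (cs : List (IK Q K A)) : List LT :=
  cs.flatMap (lt w ci ck)

lemma encLevel_ltL (M : Mode)
    (w : {V Tk : Type} → V → List (Bool × Tk) → List (Letter V Tk))
    (hw : ∀ {V V' Tk Tk' : Type} (φ : V → V') (ψ : Tk → Tk') (v : V) (l : List (Bool × Tk)),
      (w v l).map (Letter.map φ ψ) = w (φ v) (l.map (fun x => (x.1, ψ x.2))))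
    (ci : IK Q K A → ℕ) (ck : Kd Q K A → ℕ) (cs : List (IK Q K A)) (i m : ℕ) :
    encLevel M i m (ltL w ci ck cs) =
      ((levelItems m i cs).flatMap (fun it => w it.name it.toks)).flatMap
        (fun a => encT M (gCode ci ck a)) := by
  unfold encLevel levelItems
  rw [List.flatMap_assoc, List.flatMap_assoc]
  congr 1
  funext d
  unfold ltL encLTs
  rw [List.flatMap_assoc, List.flatMap_map]
  congr 1
  funext c
  exact encLTs_lt M w hw ci ck c i d

lemma encLevels_ltL (M : Mode)
    (w : {V Tk : Type} → V → List (Bool × Tk) → List (Letter V Tk))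
    (hw : ∀ {V V' Tk Tk' : Type} (φ : V → V') (ψ : Tk → Tk') (v : V) (l : List (Bool × Tk)),
      (w v l).map (Letter.map φ ψ) = w (φ v) (l.map (fun x => (x.1, ψ x.2))))
    (ci : IK Q K A → ℕ) (ck : Kd Q K A → ℕ) (m : ℕ) : ∀ (L : List (List (IK Q K A))) (i : ℕ),
    encLevels M m i (L.map (ltL w ci ck)) =
      ((mainItems m i L).flatMap (fun it => w it.name it.toks)).flatMap
        (fun a => encT M (gCode ci ck a)) := by
  intro L
  induction L with
  | nil => intro i; rfl
  | cons cs L ih =>
    intro i
    simp only [List.map_cons, encLevels, mainItems, List.flatMap_append, ih,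
      encLevel_ltL M w hw]

/-- The templates of the last four letters. -/
def ltStar (ck : Kd Q K A → ℕ) (kd : Kd Q K A) (o : List ℕ) : List LT :=
  o.map (fun j => (2 * Nat.pair (ck kd) j + 1, false, .zero))

end codes

end Pool.Agent.helper62
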