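import Pool.Agent.helper62.Emit

/-!
Programs writing levels.
-/

set_option autoImplicit false
set_option linter.unusedSimpArgs false
set_option linter.unusedSectionVars false

namespace Pool.Agent.helper62

open Function Prog

lemma replicate_append_replicate' (n m : ℕ) :
    (List.replicate n true).reverse ++ List.replicate m true = List.replicate (n + m) true := by
  rw [reverse_replicate_true, List.replicate_append_replicate]

lemma pour_p_dd (r : Regs) :
    Runs (pour .kp .kdd) (mkSt r) (mkSt { r with p := 0, dd := r.p + r.dd }) (2 * r.p + 1) := by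
  have := Runs.pour (k := Stk.kp) (k' := Stk.kdd) (by decide) (List.replicate r.p true)
    (mkSt r) rfl
  rw [zero_p, mk_dd, replicate_append_replicate', set_dd, List.length_replicate] at this
  exact this

lemma pour_dd_p (r : Regs) :
    Runs (pour .kdd .kp) (mkSt r) (mkSt { r with dd := 0, p := r.dd + r.p }) (2 * r.dd + 1) := by
  have := Runs.pour (k := Stk.kdd) (k' := Stk.kp) (by decide) (List.replicate r.dd true)
    (mkSt r) rfl
  rw [zero_dd, mk_p, replicate_append_replicate', set_p, List.length_replicate] at this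
  exact this

lemma pour_c2_cc (r : Regs) :
    Runs (pour .kc2 .kcc) (mkSt r) (mkSt { r with c2 := 0, cc := r.c2 + r.cc })
      (2 * r.c2 + 1) := by
  have := Runs.pour (k := Stk.kc2) (k' := Stk.kcc) (by decide) (List.replicate r.c2 true)
    (mkSt r) rfl
  rw [zero_c2, mk_cc, replicate_append_replicate', set_cc, List.length_replicate] at this
  exact this

lemma pour_n2_nn (r : Regs) :
    Runs (pour .kn2 .knn) (mkSt r) (mkSt { r with n2 := 0, nn := r.n2 + r.nn })
      (2 * r.n2 + 1) := by
  have := Runs.pour (k := Stk.kn2) (k' := Stk.knn) (by decide) (List.replicate r.n2 true)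
    (mkSt r) rfl
  rw [zero_n2, mk_nn, replicate_append_replicate', set_nn, List.length_replicate] at this
  exact this

lemma pour_x2_x (r : Regs) :
    Runs (pour .kx2 .kx) (mkSt r) (mkSt { r with x2 := [], x := r.x2.reverse ++ r.x })
      (2 * r.x2.length + 1) := by
  have := Runs.pour (k := Stk.kx2) (k' := Stk.kx) (by decide) r.x2 (mkSt r) rfl
  rw [set_x2, mk_x, set_x] at this
  exact this

lemma clear_i (r : Regs) :
    Runs (clear .ki) (mkSt r) (mkSt { r with i := 0 }) (2 * r.i + 1) := by
  have := Runs.clear (k := Stk.ki) (List.replicate r.i true) (mkSt r) rfl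
  rw [zero_i, List.length_replicate] at this
  exact this

/-! ### One level -/

def emitLevel (M : Mode) (l : List LT) : Prog Stk :=
  .seq (.loop .kdd .skip (.seq (emitLTs M l) (.push .kp true)))
    (.seq (emitLTs M l) (pour .kp .kdd))

lemma runs_emitLevel (M : Mode) (l : List LT) : ∃ c : Polynomial ℕ, ∀ W r,
    r.tmp = 0 → r.p = 0 → r.i ≤ W → r.dd ≤ W →
    Runs (emitLevel M l) (mkSt r) (mkSt (app r (encLevel M r.i r.dd l))) (c.eval W) := by
  obtain ⟨c, hc⟩ := Emits.emitLTs M l
  refine ⟨Polynomial.X * (c + 2) + 1 + (c + (2 * Polynomial.X + 1)), fun W r ht hp hi hd => ?_⟩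
  let w : ℕ → List Bool := fun j => (List.range j).flatMap (fun d => encLTs M r.i d l)
  have hw : ∀ j, w (j + 1) = w j ++ encLTs M r.i j l := by
    intro j; simp [w, List.range_succ]
  have h1 := Runs.loop_unary (k := Stk.kdd) (pf := .skip)
    (pt := .seq (emitLTs M l) (.push .kp true)) (t := c.eval W + 1) r.dd
    (fun j => mkSt (app { r with dd := r.dd - j, p := j } (w j)))
    (fun j _ => rfl) (fun j hj => by
      have e1 : update (mkSt (app { r with dd := r.dd - j, p := j } (w j))) Stk.kdd
          (List.replicate (r.dd - (j + 1)) true) =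
          mkSt (app { r with dd := r.dd - (j + 1), p := j } (w j)) := set_dd _ _
      rw [e1]
      have h2 := hc W (app { r with dd := r.dd - (j + 1), p := j } (w j))
        ⟨ht, hi, by change j ≤ W; omega, by change r.dd - (j + 1) ≤ W; omega⟩
      rw [app_app] at h2
      have h3 := push_p (app { r with dd := r.dd - (j + 1), p := j } (w (j + 1)))
      rw [hw] at h3
      change Runs _ _ (mkSt (app { r with dd := r.dd - (j + 1), p := j + 1 } (w (j + 1)))) _
      rw [hw]
      exact h2.seq h3)
  have h2 := hc W (app { r with dd := r.dd - r.dd, p := r.dd } (w r.dd))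
    ⟨ht, hi, hd, by change r.dd - r.dd ≤ W; omega⟩
  rw [app_app] at h2
  have h3 := pour_p_dd (app { r with dd := r.dd - r.dd, p := r.dd } (w r.dd ++ encLTs M r.i r.dd l))
  have e0 : mkSt (app { r with dd := r.dd - 0, p := 0 } (w 0)) = mkSt r := by
    have : w 0 = [] := rfl
    rw [this, app_nil]
    cases r
    simp only at hp
    subst hp
    rfl
  have e1 : ({ app { r with dd := r.dd - r.dd, p := r.dd } (w r.dd ++ encLTs M r.i r.dd l) with
      p := 0, dd := (app { r with dd := r.dd - r.dd, p := r.dd }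
        (w r.dd ++ encLTs M r.i r.dd l)).p +
        (app { r with dd := r.dd - r.dd, p := r.dd }
        (w r.dd ++ encLTs M r.i r.dd l)).dd } : Regs) =
      app r (encLevel M r.i r.dd l) := by
    have e2 : encLevel M r.i r.dd l = w r.dd ++ encLTs M r.i r.dd l := by
      rw [← hw]
      rfl
    rw [e2]
    simp only [app, Nat.sub_self, Nat.add_zero]
    rw [← hp]
  rw [e1] at h3
  simp only [e0] at h1
  refine (h1.seq (h2.seq h3)).mono ?_
  simp only [Polynomial.eval_add, Polynomial.eval_mul, Polynomial.eval_X, Polynomial.eval_one,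
    Polynomial.eval_ofNat]
  have h3 : r.dd * (c.eval W + 1 + 1) ≤ W * (c.eval W + 2) := Nat.mul_le_mul_right _ hd
  have h4 : 2 * (app { r with dd := r.dd - r.dd, p := r.dd }
      (w r.dd ++ encLTs M r.i r.dd l)).p ≤ 2 * W := Nat.mul_le_mul_left _ hd
  omega

/-- Effect of writing a list of levels. -/
def adv (M : Mode) (r : Regs) (ls : List (List LT)) : Regs :=
  { app r (encLevels M r.dd r.i ls) with i := r.i + ls.length }

lemma adv_nil (M : Mode) (r : Regs) : adv M r [] = r := by
  simp [adv, encLevels]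

lemma adv_adv (M : Mode) (r : Regs) (l1 l2 : List (List LT)) :
    adv M (adv M r l1) l2 = adv M r (l1 ++ l2) := by
  simp only [adv, encLevels_append, List.length_append, app, List.reverse_append,
    List.append_assoc, Nat.add_assoc]

/-- Write a list of levels, raising the level counter after each. -/
def levs (M : Mode) : List (List LT) → Prog Stk
  | [] => .skip
  | l :: ls => .seq (.seq (emitLevel M l) (.push .ki true)) (levs M ls)

lemma runs_levs (M : Mode) (ls : List (List LT)) : ∃ c : Polynomial ℕ, ∀ W r,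
    r.tmp = 0 → r.p = 0 → r.i + ls.length ≤ W → r.dd ≤ W →
    Runs (levs M ls) (mkSt r) (mkSt (adv M r ls)) (c.eval W) := by
  induction ls with
  | nil =>
    refine ⟨1, fun W r _ _ _ _ => ?_⟩
    rw [adv_nil, Polynomial.eval_one]
    exact Runs.skip _
  | cons l ls ih =>
    obtain ⟨c, hc⟩ := ih
    obtain ⟨c', hc'⟩ := runs_emitLevel M l
    refine ⟨(c' + 1) + c, fun W r ht hp hi hd => ?_⟩
    rw [List.length_cons] at hi
    have h1 := hc' W r ht hp (by omega) hd
    have h2 := push_i (app r (encLevel M r.i r.dd l))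
    have e : ({ app r (encLevel M r.i r.dd l) with i := (app r (encLevel M r.i r.dd l)).i + 1 }
        : Regs) = adv M r [l] := by
      simp [adv, encLevels, app]
    rw [e] at h2
    have h3 := hc W (adv M r [l]) ht hp (by
      change r.i + 1 + ls.length ≤ W
      omega) hd
    rw [adv_adv] at h3
    simp only [Polynomial.eval_add, Polynomial.eval_one]
    exact (h1.seq h2).seq h3

/-- Loop over `kcc`. -/
def loopCC (M : Mode) (ls : List (List LT)) : Prog Stk :=
  .seq (.loop .kcc .skip (.seq (levs M ls) (.push .kc2 true))) (pour .kc2 .kcc)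

lemma flatten_replicate_succ {α : Type*} (n : ℕ) (l : List α) :
    (List.replicate (n + 1) l).flatten = (List.replicate n l).flatten ++ l := by
  rw [List.replicate_succ', List.flatten_append]; simp

lemma length_flatten_replicate {α : Type*} (n : ℕ) (l : List α) :
    (List.replicate n l).flatten.length = n * l.length := by
  simp

lemma runs_loopCC (M : Mode) (ls : List (List LT)) : ∃ c : Polynomial ℕ, ∀ W r,
    r.tmp = 0 → r.p = 0 → r.c2 = 0 → r.cc ≤ W → r.i + r.cc * ls.length ≤ W → r.dd ≤ W →
    Runs (loopCC M ls) (mkSt r) (mkSt (adv M r (List.replicate r.cc ls).flatten))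
      (c.eval W) := by
  obtain ⟨c, hc⟩ := runs_levs M ls
  refine ⟨Polynomial.X * (c + 2) + 1 + (2 * Polynomial.X + 1), fun W r ht hp h0 hcc hi hd => ?_⟩
  let w : ℕ → List (List LT) := fun j => (List.replicate j ls).flatten
  have hw : ∀ j, w (j + 1) = w j ++ ls := fun j => flatten_replicate_succ j ls
  have hwl : ∀ j, (w j).length = j * ls.length := fun j => length_flatten_replicate j ls
  have h1 := Runs.loop_unary (k := Stk.kcc) (pf := .skip)
    (pt := .seq (levs M ls) (.push .kc2 true)) (t := c.eval W + 1) r.cc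
    (fun j => mkSt (adv M { r with cc := r.cc - j, c2 := j } (w j)))
    (fun j _ => rfl) (fun j hj => by
      have e1 : update (mkSt (adv M { r with cc := r.cc - j, c2 := j } (w j))) Stk.kcc
          (List.replicate (r.cc - (j + 1)) true) =
          mkSt (adv M { r with cc := r.cc - (j + 1), c2 := j } (w j)) := set_cc _ _
      rw [e1]
      have h2 := hc W (adv M { r with cc := r.cc - (j + 1), c2 := j } (w j)) ht hp (by
        change r.i + (w j).length + ls.length ≤ W
        rw [hwl, Nat.add_assoc, ← Nat.succ_mul]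
        have := Nat.mul_le_mul_right ls.length hj
        omega) hd
      rw [adv_adv, ← hw] at h2
      have h3 := push_c2 (adv M { r with cc := r.cc - (j + 1), c2 := j } (w (j + 1)))
      exact h2.seq h3)
  have h3 := pour_c2_cc (adv M { r with cc := r.cc - r.cc, c2 := r.cc } (w r.cc))
  have e0 : mkSt (adv M { r with cc := r.cc - 0, c2 := 0 } (w 0)) = mkSt r := by
    have : w 0 = [] := rfl
    rw [this, adv_nil]
    cases r
    simp only at h0
    subst h0
    rfl
  have e1 : ({ adv M { r with cc := r.cc - r.cc, c2 := r.cc } (w r.cc) with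
      c2 := 0, cc := (adv M { r with cc := r.cc - r.cc, c2 := r.cc } (w r.cc)).c2 +
        (adv M { r with cc := r.cc - r.cc, c2 := r.cc } (w r.cc)).cc } : Regs) =
      adv M r (w r.cc) := by
    simp only [adv, app, Nat.sub_self, Nat.add_zero]
    rw [← h0]
  rw [e1] at h3
  simp only [e0] at h1
  refine (h1.seq h3).mono ?_
  simp only [Polynomial.eval_add, Polynomial.eval_mul, Polynomial.eval_X, Polynomial.eval_one,
    Polynomial.eval_ofNat]
  have h3 : r.cc * (c.eval W + 1 + 1) ≤ W * (c.eval W + 2) := Nat.mul_le_mul_right _ hcc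
  have h4 : 2 * (adv M { r with cc := r.cc - r.cc, c2 := r.cc } (w r.cc)).c2 ≤ 2 * W :=
    Nat.mul_le_mul_left _ hcc
  omega

/-- Loop over `knn`. -/
def loopNN (M : Mode) (ls : List (List LT)) : Prog Stk :=
  .seq (.loop .knn .skip (.seq (levs M ls) (.push .kn2 true))) (pour .kn2 .knn)

lemma runs_loopNN (M : Mode) (ls : List (List LT)) : ∃ c : Polynomial ℕ, ∀ W r,
    r.tmp = 0 → r.p = 0 → r.n2 = 0 → r.nn ≤ W → r.i + r.nn * ls.length ≤ W → r.dd ≤ W →
    Runs (loopNN M ls) (mkSt r) (mkSt (adv M r (List.replicate r.nn ls).flatten))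
      (c.eval W) := by
  obtain ⟨c, hc⟩ := runs_levs M ls
  refine ⟨Polynomial.X * (c + 2) + 1 + (2 * Polynomial.X + 1), fun W r ht hp h0 hcc hi hd => ?_⟩
  let w : ℕ → List (List LT) := fun j => (List.replicate j ls).flatten
  have hw : ∀ j, w (j + 1) = w j ++ ls := fun j => flatten_replicate_succ j ls
  have hwl : ∀ j, (w j).length = j * ls.length := fun j => length_flatten_replicate j ls
  have h1 := Runs.loop_unary (k := Stk.knn) (pf := .skip)
    (pt := .seq (levs M ls) (.push .kn2 true)) (t := c.eval W + 1) r.nn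
    (fun j => mkSt (adv M { r with nn := r.nn - j, n2 := j } (w j)))
    (fun j _ => rfl) (fun j hj => by
      have e1 : update (mkSt (adv M { r with nn := r.nn - j, n2 := j } (w j))) Stk.knn
          (List.replicate (r.nn - (j + 1)) true) =
          mkSt (adv M { r with nn := r.nn - (j + 1), n2 := j } (w j)) := set_nn _ _
      rw [e1]
      have h2 := hc W (adv M { r with nn := r.nn - (j + 1), n2 := j } (w j)) ht hp (by
        change r.i + (w j).length + ls.length ≤ W
        rw [hwl, Nat.add_assoc, ← Nat.succ_mul]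
        have := Nat.mul_le_mul_right ls.length hj
        omega) hd
      rw [adv_adv, ← hw] at h2
      have h3 := push_n2 (adv M { r with nn := r.nn - (j + 1), n2 := j } (w (j + 1)))
      exact h2.seq h3)
  have h3 := pour_n2_nn (adv M { r with nn := r.nn - r.nn, n2 := r.nn } (w r.nn))
  have e0 : mkSt (adv M { r with nn := r.nn - 0, n2 := 0 } (w 0)) = mkSt r := by
    have : w 0 = [] := rfl
    rw [this, adv_nil]
    cases r
    simp only at h0
    subst h0
    rfl
  have e1 : ({ adv M { r with nn := r.nn - r.nn, n2 := r.nn } (w r.nn) with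
      n2 := 0, nn := (adv M { r with nn := r.nn - r.nn, n2 := r.nn } (w r.nn)).n2 +
        (adv M { r with nn := r.nn - r.nn, n2 := r.nn } (w r.nn)).nn } : Regs) =
      adv M r (w r.nn) := by
    simp only [adv, app, Nat.sub_self, Nat.add_zero]
    rw [← h0]
  rw [e1] at h3
  simp only [e0] at h1
  refine (h1.seq h3).mono ?_
  simp only [Polynomial.eval_add, Polynomial.eval_mul, Polynomial.eval_X, Polynomial.eval_one,
    Polynomial.eval_ofNat]
  have h3 : r.nn * (c.eval W + 1 + 1) ≤ W * (c.eval W + 2) := Nat.mul_le_mul_right _ hcc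
  have h4 : 2 * (adv M { r with nn := r.nn - r.nn, n2 := r.nn } (w r.nn)).n2 ≤ 2 * W :=
    Nat.mul_le_mul_left _ hcc
  omega

/-- Loop over the input word. -/
def loopX (M : Mode) (f : Bool → List (List LT)) : Prog Stk :=
  .seq (.loop .kx (.seq (levs M (f false)) (.push .kx2 false))
    (.seq (levs M (f true)) (.push .kx2 true))) (pour .kx2 .kx)

lemma runs_loopX_aux (M : Mode) (f : Bool → List (List LT)) (s : ℕ) (hf : ∀ e, (f e).length = s) :
    ∃ c : Polynomial ℕ, ∀ (y : List Bool) W r, r.x = y →
    r.tmp = 0 → r.p = 0 → r.i + y.length * s ≤ W → r.dd ≤ W →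
    Runs (.loop .kx (.seq (levs M (f false)) (.push .kx2 false))
      (.seq (levs M (f true)) (.push .kx2 true))) (mkSt r)
      (mkSt (adv M { r with x := [], x2 := y.reverse ++ r.x2 } (y.flatMap f)))
      (y.length * (c.eval W + 2) + 1) := by
  obtain ⟨c0, hc0⟩ := runs_levs M (f false)
  obtain ⟨c1, hc1⟩ := runs_levs M (f true)
  refine ⟨c0 + c1, ?_⟩
  intro y
  induction y with
  | nil =>
    intro W r hx ht hp hi hd
    refine (Runs.loop_nil (k := Stk.kx) (S := mkSt r) hx).mono' ?_ (by simp)
    rw [List.flatMap_nil, adv_nil]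
    cases r
    simp only at hx
    subst hx
    rfl
  | cons b y ih =>
    intro W r hx ht hp hi hd
    rw [List.length_cons, Nat.succ_mul] at hi
    have hS : mkSt r .kx = b :: y := hx
    let r1 : Regs := { r with x := y }
    let r2 : Regs := adv M r1 (f b)
    let r3 : Regs := { r2 with x2 := b :: r.x2 }
    have hb : Runs (if b then (.seq (levs M (f true)) (.push .kx2 true)) else
        (.seq (levs M (f false)) (.push .kx2 false))) (update (mkSt r) .kx y) (mkSt r3)
        ((c0 + c1).eval W + 1) := by
      rw [set_x]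
      rw [Polynomial.eval_add]
      cases b
      · have h1 := hc0 W r1 ht hp (by rw [hf]; change r.i + s ≤ W; omega) hd
        have h2 := Runs.push .kx2 false (mkSt r2)
        rw [set_x2] at h2
        exact (h1.seq h2).mono (by omega)
      · have h1 := hc1 W r1 ht hp (by rw [hf]; change r.i + s ≤ W; omega) hd
        have h2 := Runs.push .kx2 true (mkSt r2)
        rw [set_x2] at h2
        exact (h1.seq h2).mono (by omega)
    have h3 := ih W r3 rfl ht hp (by
      change r.i + (f b).length + y.length * s ≤ W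
      rw [hf]; omega) hd
    refine (Runs.loop_cons hS hb h3).mono' ?_ ?_
    · congr 1
      simp only [adv, app, List.flatMap_cons, encLevels_append, r3, r2, r1, List.reverse_append,
        List.append_assoc, List.length_append, Nat.add_assoc, List.reverse_cons, List.cons_append,
        List.nil_append]
    · rw [List.length_cons, Nat.succ_mul]
      omega

lemma runs_loopX (M : Mode) (f : Bool → List (List LT)) (s : ℕ) (hf : ∀ e, (f e).length = s) :
    ∃ c : Polynomial ℕ, ∀ W r,
    r.tmp = 0 → r.p = 0 → r.x2 = [] → r.x.length ≤ W → r.i + r.x.length * s ≤ W → r.dd ≤ W →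
    Runs (loopX M f) (mkSt r) (mkSt (adv M r (r.x.flatMap f))) (c.eval W) := by
  obtain ⟨c, hc⟩ := runs_loopX_aux M f s hf
  refine ⟨Polynomial.X * (c + 2) + 1 + (2 * Polynomial.X + 1), fun W r ht hp h0 hx hi hd => ?_⟩
  have h1 := hc r.x W r rfl ht hp hi hd
  have h2 := pour_x2_x (adv M { r with x := [], x2 := r.x.reverse ++ r.x2 } (r.x.flatMap f))
  refine (h1.seq h2).mono' ?_ ?_
  · congr 1
    cases r
    simp only at h0
    subst h0
    simp [adv, app]
  · have e : (adv M { r with x := [], x2 := r.x.reverse ++ r.x2 } (r.x.flatMap f)).x2.length =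
        r.x.length := by
      change (r.x.reverse ++ r.x2).length = _
      rw [h0]; simp
    rw [e]
    simp only [Polynomial.eval_add, Polynomial.eval_mul, Polynomial.eval_X, Polynomial.eval_one,
      Polynomial.eval_ofNat]
    have h3 : r.x.length * (c.eval W + 2) ≤ W * (c.eval W + 2) := Nat.mul_le_mul_right _ hx
    have h4 : 2 * r.x.length ≤ 2 * W := Nat.mul_le_mul_left _ hx
    omega

/-! ### One pass -/

/-- The data of a document: letters of the first item, of the levels, and the last letters. -/
structure Doc where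
  start : List LT
  a1 : List LT
  a2 : List LT
  a3 : List LT
  b : List LT
  c : Bool → List LT
  d : List LT
  mn : List LT
  sk : List LT
  star : List LT

/-- The bits written for a document. -/
def docBits (M : Mode) (D : Doc) (endb : List Bool) (m q N : ℕ) (x : List Bool) : List Bool :=
  encLTs M 0 m D.start ++
    encLevels M m 0 (shape D.a1 D.a2 D.a3 D.b D.c D.d D.mn q x N) ++
    encLevel M (3 * q + 6 * x.length + 2 + N) m D.sk ++
    encLTs M (3 * q + 6 * x.length + 2 + N) 0 D.star ++ endb

def passProg (M : Mode) (D : Doc) (endb : List Bool) : Prog Stk :=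
  .seq (.seq (pour .kdd .kp) (.seq (emitLTs M D.start) (pour .kp .kdd)))
    (.seq (.seq (loopCC M [D.a1, D.a2, D.a3])
      (.seq (levs M [D.b])
        (.seq (loopX M (fun e => [D.c false, D.c true, D.c e, D.c true, D.c true, D.c true]))
          (.seq (levs M [D.d]) (loopNN M [D.mn])))))
      (.seq (emitLevel M D.sk)
        (.seq (emitLTs M D.star)
          (.seq (outp endb) (clear .ki)))))

lemma runs_start (M : Mode) (l : List LT) : ∃ c : Polynomial ℕ, ∀ W r,
    r.tmp = 0 → r.p = 0 → r.i ≤ W → r.dd ≤ W →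
    Runs (.seq (pour .kdd .kp) (.seq (emitLTs M l) (pour .kp .kdd))) (mkSt r)
      (mkSt (app r (encLTs M r.i r.dd l))) (c.eval W) := by
  obtain ⟨c, hc⟩ := Emits.emitLTs M l
  refine ⟨(2 * Polynomial.X + 1) + (c + (2 * Polynomial.X + 1)), fun W r ht hp hi hd => ?_⟩
  have h1 := pour_dd_p r
  have h2 := hc W { r with dd := 0, p := r.dd + r.p } ⟨ht, hi, by
    change r.dd + r.p ≤ W; omega, Nat.zero_le _⟩
  have h3 := pour_p_dd (app { r with dd := 0, p := r.dd + r.p }
    (encLTs M r.i (r.dd + r.p) l))
  refine (h1.seq (h2.seq h3)).mono' ?_ ?_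
  · congr 1
    cases r
    simp only at hp
    subst hp
    simp [app]
  · have e : (app { r with dd := 0, p := r.dd + r.p } (encLTs M r.i (r.dd + r.p) l)).p =
      r.dd + r.p := rfl
    rw [e, hp]
    simp only [Polynomial.eval_add, Polynomial.eval_mul, Polynomial.eval_X, Polynomial.eval_one,
      Polynomial.eval_ofNat]
    omega

/-- The registers `r` after writing `w`, with level counter `j`. -/
def st (r : Regs) (w : List Bool) (j : ℕ) : Regs := { app r w with i := j }

lemma adv_st (M : Mode) (r : Regs) (w : List Bool) (j : ℕ) (ls : List (List LT)) :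
    adv M (st r w j) ls = st r (w ++ encLevels M r.dd j ls) (j + ls.length) := by
  simp [adv, st, app]

lemma app_st (r : Regs) (w w' : List Bool) (j : ℕ) : app (st r w j) w' = st r (w ++ w') j := by
  simp [st, app]

lemma runs_pass_mid (M : Mode) (D : Doc) : ∃ c : Polynomial ℕ, ∀ W r w,
    r.tmp = 0 → r.p = 0 → r.x2 = [] → r.c2 = 0 → r.n2 = 0 → r.dd ≤ W →
    3 * r.cc + 6 * r.x.length + 2 + r.nn ≤ W →
    Runs (.seq (loopCC M [D.a1, D.a2, D.a3])
      (.seq (levs M [D.b])
        (.seq (loopX M (fun e => [D.c false, D.c true, D.c e, D.c true, D.c true, D.c true]))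
          (.seq (levs M [D.d]) (loopNN M [D.mn]))))) (mkSt (st r w 0))
      (mkSt (st r (w ++ encLevels M r.dd 0
        (shape D.a1 D.a2 D.a3 D.b D.c D.d D.mn r.cc r.x.reverse r.nn))
        (3 * r.cc + 6 * r.x.length + 2 + r.nn))) (c.eval W) := by
  obtain ⟨c2, h2⟩ := runs_loopCC M [D.a1, D.a2, D.a3]
  obtain ⟨c3, h3⟩ := runs_levs M [D.b]
  obtain ⟨c4, h4⟩ := runs_loopX M
    (fun e => [D.c false, D.c true, D.c e, D.c true, D.c true, D.c true]) 6 (fun e => rfl)
  obtain ⟨c5, h5⟩ := runs_levs M [D.d]
  obtain ⟨c6, h6⟩ := runs_loopNN M [D.mn]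
  refine ⟨c2 + (c3 + (c4 + (c5 + c6))), fun W r w ht hp hx2 hc2 hn2 hd hW => ?_⟩
  have hl6 : (r.x.flatMap
      (fun e => [D.c false, D.c true, D.c e, D.c true, D.c true, D.c true])).length =
      6 * r.x.length := by
    generalize r.x = y
    induction y with
    | nil => rfl
    | cons b y ih => simp at ih ⊢; omega
  have hmn : (List.replicate r.nn [D.mn]).flatten = List.replicate r.nn D.mn := by
    simp
  have g2 := h2 W (st r w 0) ht hp hc2 (by change r.cc ≤ W; omega)
    (by change 0 + r.cc * 3 ≤ W; omega) hd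
  rw [adv_st] at g2
  generalize hw2 : w ++ encLevels M r.dd 0 (List.replicate (st r w 0).cc
    [D.a1, D.a2, D.a3]).flatten = w2 at g2
  have i2 : 0 + (List.replicate (st r w 0).cc [D.a1, D.a2, D.a3]).flatten.length = 3 * r.cc := by
    change 0 + (List.replicate r.cc [D.a1, D.a2, D.a3]).flatten.length = _
    rw [length_flatten_replicate]
    simp only [List.length_cons, List.length_nil]; omega
  rw [i2] at g2
  have g3 := h3 W (st r w2 (3 * r.cc)) ht hp (by
    change 3 * r.cc + 1 ≤ W; omega) hd
  rw [adv_st] at g3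
  generalize hw3 : w2 ++ encLevels M r.dd (3 * r.cc) [D.b] = w3 at g3
  have g4 := h4 W (st r w3 (3 * r.cc + 1)) ht hp hx2 (by change r.x.length ≤ W; omega)
    (by change 3 * r.cc + 1 + r.x.length * 6 ≤ W; omega) hd
  rw [adv_st] at g4
  generalize hw4 : w3 ++ encLevels M r.dd (3 * r.cc + 1) ((st r w3 (3 * r.cc + 1)).x.flatMap
    (fun e => [D.c false, D.c true, D.c e, D.c true, D.c true, D.c true])) = w4 at g4
  have i4 : 3 * r.cc + 1 + ((st r w3 (3 * r.cc + 1)).x.flatMap
    (fun e => [D.c false, D.c true, D.c e, D.c true, D.c true, D.c true])).length =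
      3 * r.cc + 1 + 6 * r.x.length := by
    rw [← hl6]; rfl
  rw [i4] at g4
  have g5 := h5 W (st r w4 (3 * r.cc + 1 + 6 * r.x.length)) ht hp (by
    change 3 * r.cc + 1 + 6 * r.x.length + 1 ≤ W; omega) hd
  rw [adv_st] at g5
  generalize hw5 : w4 ++ encLevels M r.dd (3 * r.cc + 1 + 6 * r.x.length) [D.d] = w5 at g5
  have g6 := h6 W (st r w5 (3 * r.cc + 1 + 6 * r.x.length + 1)) ht hp hn2
    (by change r.nn ≤ W; omega)
    (by change 3 * r.cc + 1 + 6 * r.x.length + 1 + r.nn * 1 ≤ W; omega) hd
  rw [adv_st] at g6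
  have i6 : 3 * r.cc + 1 + 6 * r.x.length + 1 + (List.replicate
      (st r w5 (3 * r.cc + 1 + 6 * r.x.length + 1)).nn [D.mn]).flatten.length =
      3 * r.cc + 6 * r.x.length + 2 + r.nn := by
    change 3 * r.cc + 1 + 6 * r.x.length + 1 + (List.replicate r.nn [D.mn]).flatten.length = _
    rw [length_flatten_replicate]
    simp only [List.length_cons, List.length_nil]; omega
  rw [i6] at g6
  have e6 : w5 ++ encLevels M r.dd (3 * r.cc + 1 + 6 * r.x.length + 1) (List.replicate
      (st r w5 (3 * r.cc + 1 + 6 * r.x.length + 1)).nn [D.mn]).flatten =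
      w ++ encLevels M r.dd 0
        (shape D.a1 D.a2 D.a3 D.b D.c D.d D.mn r.cc r.x.reverse r.nn) := by
    change w5 ++ encLevels M r.dd (3 * r.cc + 1 + 6 * r.x.length + 1)
      (List.replicate r.nn [D.mn]).flatten = _
    have hw2' : w ++ encLevels M r.dd 0 (List.replicate r.cc
      [D.a1, D.a2, D.a3]).flatten = w2 := hw2
    have hw4' : w3 ++ encLevels M r.dd (3 * r.cc + 1) (r.x.flatMap
      (fun e => [D.c false, D.c true, D.c e, D.c true, D.c true, D.c true])) = w4 := hw4
    rw [hmn, ← hw5, ← hw4', ← hw3, ← hw2', shape, List.reverse_reverse]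
    have e7 : (D.b :: (r.x.flatMap
        (fun e => [D.c false, D.c true, D.c e, D.c true, D.c true, D.c true]) ++
        D.d :: List.replicate r.nn D.mn)) = [D.b] ++ ((r.x.flatMap
        (fun e => [D.c false, D.c true, D.c e, D.c true, D.c true, D.c true])) ++
        ([D.d] ++ List.replicate r.nn D.mn)) := rfl
    rw [e7, encLevels_append, encLevels_append, encLevels_append, encLevels_append]
    rw [length_flatten_replicate, hl6]
    simp only [List.length_cons, List.length_nil, List.append_assoc, Nat.zero_add]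
    have i7 : r.cc * (1 + 1 + 1) = 3 * r.cc := by omega
    rw [i7]
  rw [e6] at g6
  refine (g2.seq (g3.seq (g4.seq (g5.seq g6)))).mono ?_
  simp only [Polynomial.eval_add]
  exact le_rfl

lemma runs_pass (M : Mode) (D : Doc) (endb : List Bool) : ∃ c : Polynomial ℕ, ∀ W r,
    r.tmp = 0 → r.p = 0 → r.i = 0 → r.x2 = [] → r.c2 = 0 → r.n2 = 0 → r.dd ≤ W →
    3 * r.cc + 6 * r.x.length + 2 + r.nn ≤ W →
    Runs (passProg M D endb) (mkSt r)
      (mkSt (app r (docBits M D endb r.dd r.cc r.nn r.x.reverse))) (c.eval W) := by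
  obtain ⟨c1, h1⟩ := runs_start M D.start
  obtain ⟨c2, h2⟩ := runs_pass_mid M D
  obtain ⟨c7, h7⟩ := runs_emitLevel M D.sk
  obtain ⟨c8, h8⟩ := Emits.emitLTs M D.star
  refine ⟨c1 + (c2 + (c7 + (c8 + (((endb.length + 1 : ℕ) : Polynomial ℕ) +
    (2 * Polynomial.X + 1))))), fun W r ht hp hi hx2 hc2 hn2 hd hW => ?_⟩
  have g1 := h1 W r ht hp (by omega) hd
  have e1 : app r (encLTs M r.i r.dd D.start) = st r (encLTs M 0 r.dd D.start) 0 := by
    rw [hi]; simp only [st, app]; rw [← hi]
  rw [e1] at g1
  generalize hw1 : encLTs M 0 r.dd D.start = w1 at g1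
  have g2 := h2 W r w1 ht hp hx2 hc2 hn2 hd hW
  generalize hw2 : w1 ++ encLevels M r.dd 0
        (shape D.a1 D.a2 D.a3 D.b D.c D.d D.mn r.cc r.x.reverse r.nn) = w2 at g2
  generalize hj : 3 * r.cc + 6 * r.x.length + 2 + r.nn = j at g2
  have g7 := h7 W (st r w2 j) ht hp (by change j ≤ W; omega) hd
  rw [app_st] at g7
  have g7' : Runs (emitLevel M D.sk) (mkSt (st r w2 j))
    (mkSt (st r (w2 ++ encLevel M j r.dd D.sk) j)) (c7.eval W) := g7
  generalize hw3 : w2 ++ encLevel M j r.dd D.sk = w3 at g7'
  have g8 := h8 W (st r w3 j) ⟨ht, by change j ≤ W; omega, by change r.p ≤ W; omega, hd⟩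
  rw [app_st] at g8
  have g8' : Runs (emitLTs M D.star) (mkSt (st r w3 j))
    (mkSt (st r (w3 ++ encLTs M j 0 D.star) j)) (c8.eval W) := by
    have : (st r w3 j).p = 0 := hp
    rw [this] at g8
    exact g8
  generalize hw4 : w3 ++ encLTs M j 0 D.star = w4 at g8'
  have g9 := runs_outp endb (st r w4 j)
  rw [app_st] at g9
  have g10 := clear_i (st r (w4 ++ endb) j)
  have e10 : ({ st r (w4 ++ endb) j with i := 0 } : Regs) = app r (w4 ++ endb) := by
    simp only [st, app]; rw [← hi]
  rw [e10] at g10
  have e11 : docBits M D endb r.dd r.cc r.nn r.x.reverse = w4 ++ endb := by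
    rw [docBits, ← hw4, ← hw3, ← hw2, ← hw1, ← hj, List.length_reverse]
  rw [e11]
  refine (g1.seq (g2.seq (g7'.seq (g8'.seq (g9.seq g10))))).mono ?_
  have e9 : (st r (w4 ++ endb) j).i = j := rfl
  rw [e9]
  simp only [Polynomial.eval_add, Polynomial.eval_mul, Polynomial.eval_X, Polynomial.eval_one,
    Polynomial.eval_ofNat, Polynomial.eval_natCast, Nat.cast_id]
  omega

end Pool.Agent.helper62
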