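import Pool.Agent.helper62.Letters

/-!
The reduction from an arbitrary language in `NP`.
-/

set_option autoImplicit false
set_option linter.unusedSimpArgs false
set_option linter.unusedSectionVars false

namespace Pool.Agent.helper62

open Function Computability N68a2faeb

section

variable {Q K A : Type}

lemma mainItems_append (m : ℕ) (L1 L2 : List (List (IK Q K A))) : ∀ i,
    mainItems m i (L1 ++ L2) = mainItems m i L1 ++ mainItems m (i + L1.length) L2 := by
  induction L1 with
  | nil => intro i; simp [mainItems]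
  | cons cs L ih =>
    intro i
    simp only [List.cons_append, mainItems, ih, List.append_assoc, List.length_cons]
    congr 3
    omega

lemma mem_mainItems_kind {m : ℕ} : ∀ {L : List (List (IK Q K A))} {i : ℕ}
    {it : Item (Nm Q K A) (Tok Q K A)}, it ∈ mainItems m i L →
    ∃ cs ∈ L, ∃ c ∈ cs, ∃ i' d, it = mk c i' d := by
  intro L
  induction L with
  | nil => intro i it h; simp [mainItems] at h
  | cons cs L ih =>
    intro i it h
    simp only [mainItems, List.mem_append] at h
    rcases h with h | h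
    · obtain ⟨d, _, c, hc, rfl⟩ := mem_levelItems.1 h
      exact ⟨cs, by simp, c, hc, i, d, rfl⟩
    · obtain ⟨cs', h1, h2⟩ := ih h
      exact ⟨cs', by simp [h1], h2⟩

/-- Document of a sequence of levels, for a writing `w` of the items. -/
def mkDoc (w : {V Tk : Type} → V → List (Bool × Tk) → List (Letter V Tk))
    (ci : IK Q K A → ℕ) (ck : Kd Q K A → ℕ) (q0 qa : Q) (ks : List K) (as : List (Option A))
    (A1 A2 A3 B : List (Rule Q K A)) (C : Bool → List (Rule Q K A)) (D mn : List (Rule Q K A))
    (o : List ℕ) : Doc where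
  start := lt w ci ck (.start q0 ks)
  a1 := ltL w ci ck (kindsOf ks as A1)
  a2 := ltL w ci ck (kindsOf ks as A2)
  a3 := ltL w ci ck (kindsOf ks as A3)
  b := ltL w ci ck (kindsOf ks as B)
  c := fun e => ltL w ci ck (kindsOf ks as (C e))
  d := ltL w ci ck (kindsOf ks as D)
  mn := ltL w ci ck (kindsOf ks as mn)
  sk := ltL w ci ck (sinks ks as)
  star := ltStar ck (.st qa) o

lemma docBits_mkDoc (M : Mode)
    (w : {V Tk : Type} → V → List (Bool × Tk) → List (Letter V Tk))
    (hw : ∀ {V V' Tk Tk' : Type} (φ : V → V') (ψ : Tk → Tk') (v : V) (l : List (Bool × Tk)),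
      (w v l).map (Letter.map φ ψ) = w (φ v) (l.map (fun x => (x.1, ψ x.2))))
    (ci : IK Q K A → ℕ) (ck : Kd Q K A → ℕ) (q0 qa : Q) (ks : List K) (as : List (Option A))
    (A1 A2 A3 B : List (Rule Q K A)) (C : Bool → List (Rule Q K A)) (D mn : List (Rule Q K A))
    (o : List ℕ) (endb : List Bool) (m q N : ℕ) (x : List Bool) :
    docBits M (mkDoc w ci ck q0 qa ks as A1 A2 A3 B C D mn o) endb m q N x =
      (((allItems q0 ks as m (shape A1 A2 A3 B C D mn q x N)).flatMap
        (fun it : Item (Nm Q K A) (Tok Q K A) => w it.name it.toks)).map (gCode ci ck) ++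
        (o.map (fun j => (2 * Nat.pair (ck (.st qa)) j + 1, 3 * q + 6 * x.length + 2 + N, 0)))
        ).flatMap (encT M) ++ endb := by
  have h1 := encLTs_lt M w hw ci ck (.start q0 ks : IK Q K A) 0 m
  have h2 := encLevels_ltL M w hw ci ck m
    ((shape A1 A2 A3 B C D mn q x N).map (kindsOf ks as)) 0
  rw [List.map_map, map_shape] at h2
  have h3 := encLevel_ltL M w hw ci ck (sinks ks as : List (IK Q K A))
    (3 * q + 6 * x.length + 2 + N) m
  unfold docBits
  have e1 : (mkDoc w ci ck q0 qa ks as A1 A2 A3 B C D mn o).start =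
    lt w ci ck (.start q0 ks) := rfl
  have e3 : (mkDoc w ci ck q0 qa ks as A1 A2 A3 B C D mn o).sk = ltL w ci ck (sinks ks as) := rfl
  rw [e1, e3, h1, h3]
  have h2' : encLevels M m 0 (shape (mkDoc w ci ck q0 qa ks as A1 A2 A3 B C D mn o).a1
      (mkDoc w ci ck q0 qa ks as A1 A2 A3 B C D mn o).a2
      (mkDoc w ci ck q0 qa ks as A1 A2 A3 B C D mn o).a3
      (mkDoc w ci ck q0 qa ks as A1 A2 A3 B C D mn o).b
      (mkDoc w ci ck q0 qa ks as A1 A2 A3 B C D mn o).c
      (mkDoc w ci ck q0 qa ks as A1 A2 A3 B C D mn o).d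
      (mkDoc w ci ck q0 qa ks as A1 A2 A3 B C D mn o).mn q x N) = _ := h2
  rw [h2']
  have h4 : encLTs M (3 * q + 6 * x.length + 2 + N) 0
      (mkDoc w ci ck q0 qa ks as A1 A2 A3 B C D mn o).star =
      (o.map (fun j => (2 * Nat.pair (ck (.st qa)) j + 1, 3 * q + 6 * x.length + 2 + N, 0))
        ).flatMap (encT M) := by
    change ((ltStar ck (.st qa) o).flatMap (encLT M (3 * q + 6 * x.length + 2 + N) 0)) = _
    unfold ltStar
    rw [List.flatMap_map, List.flatMap_map]
    rfl
  rw [h4]
  have h5 : allItems q0 ks as m (shape A1 A2 A3 B C D mn q x N) =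
      mk (.start q0 ks) 0 m :: (mainItems m 0
        ((shape A1 A2 A3 B C D mn q x N).map (kindsOf ks as)) ++
        levelItems m (3 * q + 6 * x.length + 2 + N) (sinks ks as)) := by
    unfold allItems levelKinds
    rw [mainItems_append, List.length_map, length_shape, Nat.zero_add]
    simp only [mainItems, List.append_nil]
  rw [h5]
  simp only [List.flatMap_append, List.flatMap_map, List.flatMap_cons, List.map_append,
    List.append_assoc]

end

namespace RData

variable (D : RData)

/-- all kinds of items -/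
def kinds : List (IK D.Q D.K D.A) :=
  .start D.q0 D.ks :: (kindsOf D.ks D.as D.A1 ++ kindsOf D.ks D.as D.A2 ++
    kindsOf D.ks D.as D.A3 ++ kindsOf D.ks D.as D.B ++ kindsOf D.ks D.as (D.C false) ++
    kindsOf D.ks D.as (D.C true) ++ kindsOf D.ks D.as D.D ++ kindsOf D.ks D.as D.main ++
    sinks D.ks D.as)

/-- all kinds of tokens -/
def kds : List (Kd D.Q D.K D.A) := .st D.qa :: D.kinds.flatMap (fun c => (tmpl c).map Tm.kd)

open Classical in
noncomputable def ci (c : IK D.Q D.K D.A) : ℕ := D.kinds.idxOf c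

open Classical in
noncomputable def ck (c : Kd D.Q D.K D.A) : ℕ := D.kds.idxOf c

/-- the bound on positions -/
noncomputable def m : Polynomial ℕ := 3 * D.qp + 6 * Polynomial.X + 2 + D.np

lemma m_eval (n : ℕ) : D.m.eval n = 3 * D.qp.eval n + 6 * n + 2 + D.np.eval n := by
  simp [m]

noncomputable def items (x : List Bool) : List (Item (Nm D.Q D.K D.A) (Tok D.Q D.K D.A)) :=
  allItems D.q0 D.ks D.as (D.m.eval x.length) (D.levels x)

noncomputable def star (x : List Bool) : Tok D.Q D.K D.A := (.st D.qa, (D.levels x).length, 0)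

noncomputable def S (x : List Bool) : List (ℕ × ℕ × ℕ) :=
  (strS (D.items x) (D.star x)).map (gCode D.ci D.ck)

noncomputable def T (x : List Bool) : List (ℕ × ℕ × ℕ) :=
  (strT (D.items x) (D.star x)).map (gCode D.ci D.ck)

/-- the reduction -/
noncomputable def f (x : List Bool) : List ℕ × List ℕ := ((D.S x).map num, (D.T x).map num)

lemma length_levels (x : List Bool) : (D.levels x).length = D.m.eval x.length := by
  rw [levels, length_shape, m_eval]

lemma f_perm (x : List Bool) : (D.f x).1.Perm (D.f x).2 :=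
  ((balanced (D.items x) (D.star x)).map _).map _

lemma kind_mem {x : List Bool} {it : Item (Nm D.Q D.K D.A) (Tok D.Q D.K D.A)}
    (h : it ∈ D.items x) : ∃ c ∈ D.kinds, ∃ i d, it = Pool.Agent.helper62.mk c i d := by
  simp only [items, allItems, List.mem_cons] at h
  rcases h with rfl | h
  · exact ⟨_, by simp [kinds], 0, _, rfl⟩
  · obtain ⟨cs, hcs, c, hc, i, d, rfl⟩ := mem_mainItems_kind h
    refine ⟨c, ?_, i, d, rfl⟩
    simp only [levelKinds, List.mem_append, List.mem_map, List.mem_singleton] at hcs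
    simp only [kinds, List.mem_cons, List.mem_append]
    rcases hcs with ⟨R, hR, rfl⟩ | rfl
    · rcases mem_shape hR with rfl | rfl | rfl | rfl | ⟨e, rfl⟩ | rfl | rfl
      · tauto
      · tauto
      · tauto
      · tauto
      · cases e <;> tauto
      · tauto
      · tauto
    · tauto

lemma kd_mem {c : IK D.Q D.K D.A} (hc : c ∈ D.kinds) {i d : ℕ} :
    ∀ y ∈ (Pool.Agent.helper62.mk c i d).toks, y.2.1 ∈ D.kds := by
  intro y hy
  simp only [Pool.Agent.helper62.mk, List.mem_map] at hy
  obtain ⟨t, ht, rfl⟩ := hy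
  simp only [kds, List.mem_cons, List.mem_flatMap, List.mem_map]
  exact Or.inr ⟨c, hc, t, ht, rfl⟩

lemma inLet_S (x : List Bool) : ∀ a ∈ strS (D.items x) (D.star x),
    InLet (fun v : Nm D.Q D.K D.A => v.1 ∈ D.kinds) (fun t : Tok D.Q D.K D.A => t.1 ∈ D.kds) a := by
  intro a ha
  rw [strS_eq, List.mem_append, List.mem_flatMap] at ha
  rcases ha with ⟨it, hit, ha⟩ | ha
  · obtain ⟨c, hc, i, d, rfl⟩ := D.kind_mem hit
    exact inLet_wS (P := fun v : Nm D.Q D.K D.A => v.1 ∈ D.kinds)
      (R := fun t : Tok D.Q D.K D.A => t.1 ∈ D.kds) (v := (c, i, d)) hc (D.kd_mem hc) a ha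
  · have hs : (D.star x).1 ∈ D.kds := by simp [star, kds]
    simp only [List.mem_cons, List.not_mem_nil, or_false] at ha
    rcases ha with rfl | rfl | rfl | rfl <;> exact hs

lemma inLet_T (x : List Bool) : ∀ a ∈ strT (D.items x) (D.star x),
    InLet (fun v : Nm D.Q D.K D.A => v.1 ∈ D.kinds) (fun t : Tok D.Q D.K D.A => t.1 ∈ D.kds) a := by
  intro a ha
  rw [strT_eq, List.mem_append, List.mem_flatMap] at ha
  rcases ha with ⟨it, hit, ha⟩ | ha
  · obtain ⟨c, hc, i, d, rfl⟩ := D.kind_mem hit
    exact inLet_wT (P := fun v : Nm D.Q D.K D.A => v.1 ∈ D.kinds)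
      (R := fun t : Tok D.Q D.K D.A => t.1 ∈ D.kds) (v := (c, i, d)) hc (D.kd_mem hc) a ha
  · have hs : (D.star x).1 ∈ D.kds := by simp [star, kds]
    simp only [List.mem_cons, List.not_mem_nil, or_false] at ha
    rcases ha with rfl | rfl | rfl | rfl <;> exact hs

/-- Correctness of the reduction. -/
theorem f_correct (hD : D.Ok) {L : List Bool → Bool} (hL : D.Decides L) (x : List Bool) :
    L x = true ↔ HasCommonStripPartition (D.f x).1 (D.f x).2 := by
  classical
  have h1 : HasCommonStripPartition (D.f x).1 (D.f x).2 ↔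
      HasCommonStripPartition (D.S x) (D.T x) :=
    hasCSP_map_iff num num_injective.injOn
  have hci : ∀ c c', c ∈ D.kinds → c' ∈ D.kinds → D.ci c = D.ci c' → c = c' := by
    intro c c' hc hc' h
    exact (List.idxOf_inj hc).1 h
  have hck : ∀ c c', c ∈ D.kds → c' ∈ D.kds → D.ck c = D.ck c' → c = c' := by
    intro c c' hc hc' h
    exact (List.idxOf_inj hc).1 h
  have h2 : HasCommonStripPartition (D.S x) (D.T x) ↔
      HasCommonStripPartition (strS (D.items x) (D.star x)) (strT (D.items x) (D.star x)) := by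
    refine hasCSP_map_iff _ ((gCode_injOn (P := fun c => c ∈ D.kinds) (R := fun c => c ∈ D.kds)
      hci hck).mono ?_)
    rintro a (ha | ha)
    · exact D.inLet_S x a ha
    · exact D.inLet_T x a ha
  have hlev : ∀ R ∈ D.levels x, R.Nodup ∧ ∀ ρ ∈ R, ∀ k a, ρ.op = .push k a → some a ∈ D.as :=
    fun R hR => hD.nodup R (mem_shape hR)
  have h3 := csp_run_iff (m := D.m.eval x.length) hD.hks hD.hnd hD.hnone hD.hasn D.q0 D.qa
    (D.levels x) (fun R hR => (hlev R hR).1) (D.length_levels x).le
    (fun R hR => (hlev R hR).2)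
  rw [h1, h2, hL x]
  exact h3.symm

noncomputable def docS : Doc := mkDoc (@wS) D.ci D.ck D.q0 D.qa D.ks D.as D.A1 D.A2 D.A3 D.B D.C
  D.D D.main [0, 2, 1, 3]

noncomputable def docT : Doc := mkDoc (@wT) D.ci D.ck D.q0 D.qa D.ks D.as D.A1 D.A2 D.A3 D.B D.C
  D.D D.main [2, 3, 0, 1]

lemma docBits_docS (M : Mode) (endb : List Bool) (x : List Bool) :
    docBits M D.docS endb (D.m.eval x.length) (D.qp.eval x.length) (D.np.eval x.length) x =
      (D.S x).flatMap (encT M) ++ endb := by
  rw [docS, docBits_mkDoc M (@wS) (fun φ ψ v l => map_wS φ ψ v l)]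
  congr 2
  rw [S, strS_eq, List.map_append]
  congr 1
  simp only [List.map_cons, List.map_nil, gCode, star, length_levels, m_eval]

lemma docBits_docT (M : Mode) (endb : List Bool) (x : List Bool) :
    docBits M D.docT endb (D.m.eval x.length) (D.qp.eval x.length) (D.np.eval x.length) x =
      (D.T x).flatMap (encT M) ++ endb := by
  rw [docT, docBits_mkDoc M (@wT) (fun φ ψ v l => map_wT φ ψ v l)]
  congr 2
  rw [T, strT_eq, List.map_append]
  congr 1
  simp only [List.map_cons, List.map_nil, gCode, star, length_levels, m_eval]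

lemma exists_prog (g : Bool → List Bool) : ∃ (prog : Prog Stk) (c : Polynomial ℕ),
    ∀ x : List Bool, Prog.Runs prog (mkSt { zr with inp := trip x })
      (mkSt { zr with out := (N487b59b3.bitEncode (D.f x)).flatMap g }) (c.eval x.length) := by
  obtain ⟨prog, c, h⟩ := exists_writer modeS modeT D.docS D.docT [false] [] g D.qp D.np D.m
    (fun n => (D.m_eval n).ge)
  refine ⟨prog, c, fun x => ?_⟩
  have h1 := h x
  rw [docBits_docS, docBits_docT, ← bitEncode_pair_nats] at h1
  exact h1

end RData

lemma mkSt_inp (l : List Bool) : mkSt { zr with inp := l } = update (fun _ => []) Stk.kinp l := by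
  funext k; cases k <;> rfl

lemma mkSt_out (l : List Bool) : mkSt { zr with out := l } = update (fun _ => []) Stk.kout l := by
  funext k; cases k <;> rfl

/-- A function with a program is polynomial-time computable. -/
lemma isPolyTime_of_prog {β : Type} [N487b59b3 β] (F : List Bool → β) (prog : Prog Stk)
    (c : Polynomial ℕ) (h : ∀ x : List Bool, Prog.Runs prog (mkSt { zr with inp := trip x })
      (mkSt { zr with out := N487b59b3.bitEncode (F x) }) (c.eval x.length)) : IsPolyTime F := by
  refine ⟨Prog.toPolyTime prog Stk.kinp Stk.kout _ _ F c (fun x => ?_)⟩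
  obtain ⟨n, hn, he⟩ := h x
  rw [mkSt_inp, mkSt_out] at he
  have e1 : ((N487b59b3.toEncoding (α := List Bool)).encode x) = trip x := bitEncode_list_bool x
  rw [e1]
  refine ⟨n, hn.trans (eval_mono _ ?_), he⟩
  rw [length_trip]
  omega

theorem isPolyTime_f (D : RData) : IsPolyTime D.f := by
  obtain ⟨prog, c, h⟩ := D.exists_prog (fun b => [b])
  refine isPolyTime_of_prog D.f prog c (fun x => ?_)
  have := h x
  simpa using this

theorem isPolyTime_encode_f (D : RData) :
    IsPolyTime (fun x => N487b59b3.bitEncode (D.f x)) := by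
  obtain ⟨prog, c, h⟩ := D.exists_prog (fun b => [true, b, false])
  refine isPolyTime_of_prog _ prog c (fun x => ?_)
  rw [bitEncode_list_bool]
  exact h x

/-- **NP-hardness of deciding common strip partitions.** -/
theorem np_hard (L : List Bool → Bool) (hL : L ∈ NP) :
    ∃ f : List Bool → List ℕ × List ℕ, IsPolyTime f ∧
      IsPolyTime (fun x => N487b59b3.bitEncode (f x)) ∧
      ∀ x, (f x).1.Perm (f x).2 ∧ (L x = true ↔ HasCommonStripPartition (f x).1 (f x).2) := by
  obtain ⟨D, hD, hd⟩ := np_rdata L hL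
  exact ⟨D.f, isPolyTime_f D, isPolyTime_encode_f D, fun x => ⟨D.f_perm x, D.f_correct hD hd x⟩⟩

end Pool.Agent.helper62
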