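import Pool.Agent.helper62.Prog
import Pool.Agent.helper62.CookLevin

/-!
Registers and basic programs.
-/

set_option autoImplicit false
set_option linter.unusedSimpArgs false
set_option linter.unusedSectionVars false

namespace Pool.Agent.helper62

open Function Prog

/-- Stacks of the program. -/
inductive Stk where
  | kinp | kout | kx | kx2 | ko | kl | kl2 | ka | kb | kcc | kc2 | knn | kn2 | kdd | kp | ki | ktmp
  deriving DecidableEq, Fintype

/-- Register contents: the first five are lists of bits, the others are unary counters. -/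
structure Regs where
  inp : List Bool
  out : List Bool
  x : List Bool
  x2 : List Bool
  o : List Bool
  l : ℕ
  l2 : ℕ
  a : ℕ
  b : ℕ
  cc : ℕ
  c2 : ℕ
  nn : ℕ
  n2 : ℕ
  dd : ℕ
  p : ℕ
  i : ℕ
  tmp : ℕ

/-- The stacks for given register contents. -/
def mkSt (r : Regs) : Stk → List Bool
  | .kinp => r.inp
  | .kout => r.out
  | .kx => r.x
  | .kx2 => r.x2
  | .ko => r.o
  | .kl => List.replicate r.l true
  | .kl2 => List.replicate r.l2 true
  | .ka => List.replicate r.a true
  | .kb => List.replicate r.b true
  | .kcc => List.replicate r.cc true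
  | .kc2 => List.replicate r.c2 true
  | .knn => List.replicate r.nn true
  | .kn2 => List.replicate r.n2 true
  | .kdd => List.replicate r.dd true
  | .kp => List.replicate r.p true
  | .ki => List.replicate r.i true
  | .ktmp => List.replicate r.tmp true

@[simp] lemma mk_inp (r : Regs) : mkSt r .kinp = r.inp := rfl
@[simp] lemma mk_out (r : Regs) : mkSt r .kout = r.out := rfl
@[simp] lemma mk_x (r : Regs) : mkSt r .kx = r.x := rfl
@[simp] lemma mk_x2 (r : Regs) : mkSt r .kx2 = r.x2 := rfl
@[simp] lemma mk_o (r : Regs) : mkSt r .ko = r.o := rfl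
@[simp] lemma mk_l (r : Regs) : mkSt r .kl = List.replicate r.l true := rfl
@[simp] lemma mk_l2 (r : Regs) : mkSt r .kl2 = List.replicate r.l2 true := rfl
@[simp] lemma mk_a (r : Regs) : mkSt r .ka = List.replicate r.a true := rfl
@[simp] lemma mk_b (r : Regs) : mkSt r .kb = List.replicate r.b true := rfl
@[simp] lemma mk_cc (r : Regs) : mkSt r .kcc = List.replicate r.cc true := rfl
@[simp] lemma mk_c2 (r : Regs) : mkSt r .kc2 = List.replicate r.c2 true := rfl
@[simp] lemma mk_nn (r : Regs) : mkSt r .knn = List.replicate r.nn true := rfl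
@[simp] lemma mk_n2 (r : Regs) : mkSt r .kn2 = List.replicate r.n2 true := rfl
@[simp] lemma mk_dd (r : Regs) : mkSt r .kdd = List.replicate r.dd true := rfl
@[simp] lemma mk_p (r : Regs) : mkSt r .kp = List.replicate r.p true := rfl
@[simp] lemma mk_i (r : Regs) : mkSt r .ki = List.replicate r.i true := rfl
@[simp] lemma mk_tmp (r : Regs) : mkSt r .ktmp = List.replicate r.tmp true := rfl

lemma set_inp (r : Regs) (v : List Bool) :
    update (mkSt r) .kinp v = mkSt { r with inp := v } := by
  funext k; cases k <;> rfl
lemma set_out (r : Regs) (v : List Bool) :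
    update (mkSt r) .kout v = mkSt { r with out := v } := by
  funext k; cases k <;> rfl
lemma set_x (r : Regs) (v : List Bool) :
    update (mkSt r) .kx v = mkSt { r with x := v } := by
  funext k; cases k <;> rfl
lemma set_x2 (r : Regs) (v : List Bool) :
    update (mkSt r) .kx2 v = mkSt { r with x2 := v } := by
  funext k; cases k <;> rfl
lemma set_o (r : Regs) (v : List Bool) :
    update (mkSt r) .ko v = mkSt { r with o := v } := by
  funext k; cases k <;> rfl
lemma set_l (r : Regs) (n : ℕ) :
    update (mkSt r) .kl (List.replicate n true) = mkSt { r with l := n } := by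
  funext k; cases k <;> rfl
lemma set_l2 (r : Regs) (n : ℕ) :
    update (mkSt r) .kl2 (List.replicate n true) = mkSt { r with l2 := n } := by
  funext k; cases k <;> rfl
lemma set_a (r : Regs) (n : ℕ) :
    update (mkSt r) .ka (List.replicate n true) = mkSt { r with a := n } := by
  funext k; cases k <;> rfl
lemma set_b (r : Regs) (n : ℕ) :
    update (mkSt r) .kb (List.replicate n true) = mkSt { r with b := n } := by
  funext k; cases k <;> rfl
lemma set_cc (r : Regs) (n : ℕ) :
    update (mkSt r) .kcc (List.replicate n true) = mkSt { r with cc := n } := by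
  funext k; cases k <;> rfl
lemma set_c2 (r : Regs) (n : ℕ) :
    update (mkSt r) .kc2 (List.replicate n true) = mkSt { r with c2 := n } := by
  funext k; cases k <;> rfl
lemma set_nn (r : Regs) (n : ℕ) :
    update (mkSt r) .knn (List.replicate n true) = mkSt { r with nn := n } := by
  funext k; cases k <;> rfl
lemma set_n2 (r : Regs) (n : ℕ) :
    update (mkSt r) .kn2 (List.replicate n true) = mkSt { r with n2 := n } := by
  funext k; cases k <;> rfl
lemma set_dd (r : Regs) (n : ℕ) :
    update (mkSt r) .kdd (List.replicate n true) = mkSt { r with dd := n } := by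
  funext k; cases k <;> rfl
lemma set_p (r : Regs) (n : ℕ) :
    update (mkSt r) .kp (List.replicate n true) = mkSt { r with p := n } := by
  funext k; cases k <;> rfl
lemma set_i (r : Regs) (n : ℕ) :
    update (mkSt r) .ki (List.replicate n true) = mkSt { r with i := n } := by
  funext k; cases k <;> rfl
lemma set_tmp (r : Regs) (n : ℕ) :
    update (mkSt r) .ktmp (List.replicate n true) = mkSt { r with tmp := n } := by
  funext k; cases k <;> rfl

lemma zero_l (r : Regs) :
    update (mkSt r) .kl [] = mkSt { r with l := 0 } := by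
  funext k; cases k <;> rfl
lemma zero_l2 (r : Regs) :
    update (mkSt r) .kl2 [] = mkSt { r with l2 := 0 } := by
  funext k; cases k <;> rfl
lemma zero_a (r : Regs) :
    update (mkSt r) .ka [] = mkSt { r with a := 0 } := by
  funext k; cases k <;> rfl
lemma zero_b (r : Regs) :
    update (mkSt r) .kb [] = mkSt { r with b := 0 } := by
  funext k; cases k <;> rfl
lemma zero_cc (r : Regs) :
    update (mkSt r) .kcc [] = mkSt { r with cc := 0 } := by
  funext k; cases k <;> rfl
lemma zero_c2 (r : Regs) :
    update (mkSt r) .kc2 [] = mkSt { r with c2 := 0 } := by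
  funext k; cases k <;> rfl
lemma zero_nn (r : Regs) :
    update (mkSt r) .knn [] = mkSt { r with nn := 0 } := by
  funext k; cases k <;> rfl
lemma zero_n2 (r : Regs) :
    update (mkSt r) .kn2 [] = mkSt { r with n2 := 0 } := by
  funext k; cases k <;> rfl
lemma zero_dd (r : Regs) :
    update (mkSt r) .kdd [] = mkSt { r with dd := 0 } := by
  funext k; cases k <;> rfl
lemma zero_p (r : Regs) :
    update (mkSt r) .kp [] = mkSt { r with p := 0 } := by
  funext k; cases k <;> rfl
lemma zero_i (r : Regs) :
    update (mkSt r) .ki [] = mkSt { r with i := 0 } := by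
  funext k; cases k <;> rfl
lemma zero_tmp (r : Regs) :
    update (mkSt r) .ktmp [] = mkSt { r with tmp := 0 } := by
  funext k; cases k <;> rfl

lemma push_l (r : Regs) :
    Runs (.push .kl true) (mkSt r) (mkSt { r with l := r.l + 1 }) 1 := by
  have := Runs.push .kl true (mkSt r)
  rwa [mk_l, ← List.replicate_succ, set_l] at this
lemma push_l2 (r : Regs) :
    Runs (.push .kl2 true) (mkSt r) (mkSt { r with l2 := r.l2 + 1 }) 1 := by
  have := Runs.push .kl2 true (mkSt r)
  rwa [mk_l2, ← List.replicate_succ, set_l2] at this
lemma push_a (r : Regs) :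
    Runs (.push .ka true) (mkSt r) (mkSt { r with a := r.a + 1 }) 1 := by
  have := Runs.push .ka true (mkSt r)
  rwa [mk_a, ← List.replicate_succ, set_a] at this
lemma push_b (r : Regs) :
    Runs (.push .kb true) (mkSt r) (mkSt { r with b := r.b + 1 }) 1 := by
  have := Runs.push .kb true (mkSt r)
  rwa [mk_b, ← List.replicate_succ, set_b] at this
lemma push_cc (r : Regs) :
    Runs (.push .kcc true) (mkSt r) (mkSt { r with cc := r.cc + 1 }) 1 := by
  have := Runs.push .kcc true (mkSt r)
  rwa [mk_cc, ← List.replicate_succ, set_cc] at this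
lemma push_c2 (r : Regs) :
    Runs (.push .kc2 true) (mkSt r) (mkSt { r with c2 := r.c2 + 1 }) 1 := by
  have := Runs.push .kc2 true (mkSt r)
  rwa [mk_c2, ← List.replicate_succ, set_c2] at this
lemma push_nn (r : Regs) :
    Runs (.push .knn true) (mkSt r) (mkSt { r with nn := r.nn + 1 }) 1 := by
  have := Runs.push .knn true (mkSt r)
  rwa [mk_nn, ← List.replicate_succ, set_nn] at this
lemma push_n2 (r : Regs) :
    Runs (.push .kn2 true) (mkSt r) (mkSt { r with n2 := r.n2 + 1 }) 1 := by
  have := Runs.push .kn2 true (mkSt r)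
  rwa [mk_n2, ← List.replicate_succ, set_n2] at this
lemma push_dd (r : Regs) :
    Runs (.push .kdd true) (mkSt r) (mkSt { r with dd := r.dd + 1 }) 1 := by
  have := Runs.push .kdd true (mkSt r)
  rwa [mk_dd, ← List.replicate_succ, set_dd] at this
lemma push_p (r : Regs) :
    Runs (.push .kp true) (mkSt r) (mkSt { r with p := r.p + 1 }) 1 := by
  have := Runs.push .kp true (mkSt r)
  rwa [mk_p, ← List.replicate_succ, set_p] at this
lemma push_i (r : Regs) :
    Runs (.push .ki true) (mkSt r) (mkSt { r with i := r.i + 1 }) 1 := by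
  have := Runs.push .ki true (mkSt r)
  rwa [mk_i, ← List.replicate_succ, set_i] at this
lemma push_tmp (r : Regs) :
    Runs (.push .ktmp true) (mkSt r) (mkSt { r with tmp := r.tmp + 1 }) 1 := by
  have := Runs.push .ktmp true (mkSt r)
  rwa [mk_tmp, ← List.replicate_succ, set_tmp] at this

end Pool.Agent.helper62
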