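import Mathlib

/-!
Common strip partitions of strings: definitions and the combinatorial gadget.
-/

set_option autoImplicit false
set_option linter.unusedSimpArgs false

namespace Pool.Agent.helper62

/-! ### The problem -/

/-- `P` is a strip partition of the string `S`: a factorisation of `S` into consecutive
blocks, each of length at least `2`. -/
def IsStripPartition {α : Type*} (P : List (List α)) (S : List α) : Prop :=
  P.flatten = S ∧ ∀ B ∈ P, 2 ≤ B.length

/-- `S` and `T` admit a common strip partition. -/
def HasCommonStripPartition {α : Type*} (S T : List α) : Prop :=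
  ∃ P Q : List (List α), IsStripPartition P S ∧ IsStripPartition Q T ∧ P.Perm Q

/-! ### Letters, items, gadget strings -/

/-- Letters of the gadget strings. -/
inductive Letter (V Tk : Type) where
  | s (v : V) | t (v : V) | y (v : V) (j : ℕ) | e (v : V) | f (v : V)
  | p (a : Tk) | q (a : Tk) | z (a : Tk) | r (a : Tk)
  deriving DecidableEq

/-- An item: a name and a list of signed tokens (`true` = produced, `false` = consumed). -/
structure Item (V Tk : Type) where
  name : V
  toks : List (Bool × Tk)

variable {V Tk : Type}

open Letter

/-- Tokens produced. -/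
def outs (l : List (Bool × Tk)) : List Tk := (l.filter (fun x => x.1)).map Prod.snd

/-- Tokens consumed. -/
def ins (l : List (Bool × Tk)) : List Tk := (l.filter (fun x => !x.1)).map Prod.snd

@[simp] lemma outs_nil : outs ([] : List (Bool × Tk)) = [] := rfl
@[simp] lemma ins_nil : ins ([] : List (Bool × Tk)) = [] := rfl
@[simp] lemma outs_cons_true (a : Tk) (l) : outs ((true, a) :: l) = a :: outs l := by simp [outs]
@[simp] lemma outs_cons_false (a : Tk) (l) : outs ((false, a) :: l) = outs l := by simp [outs]
@[simp] lemma ins_cons_true (a : Tk) (l) : ins ((true, a) :: l) = ins l := by simp [ins]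
@[simp] lemma ins_cons_false (a : Tk) (l) : ins ((false, a) :: l) = a :: ins l := by simp [ins]

/-- middle letter -/
def mid (b : Bool) (a : Tk) : Letter V Tk := if b then q a else z a

@[simp] lemma mid_true (a : Tk) : (mid true a : Letter V Tk) = q a := rfl
@[simp] lemma mid_false (a : Tk) : (mid false a : Letter V Tk) = z a := rfl

def body (v : V) (flip : Bool) : ℕ → List (Bool × Tk) → List (Letter V Tk)
  | _, [] => [e v, f v]
  | j, x :: l => p x.2 :: mid (x.1 ^^ flip) x.2 :: r x.2 :: y v (j+1) :: body v flip (j+1) l

def gadget (v : V) (flip : Bool) (l : List (Bool × Tk)) : List (Letter V Tk) :=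
  s v :: t v :: y v 0 :: body v flip 0 l

def occWords (v : V) : ℕ → List (Bool × Tk) → List (List (Letter V Tk))
  | _, [] => []
  | j, x :: l => [r x.2, y v (j+1)] :: [mid x.1 x.2, r x.2] :: [p x.2, mid (!x.1) x.2] ::
      [y v j, p x.2] :: occWords v (j+1) l

def unitWords (v : V) (l : List (Bool × Tk)) : List (List (Letter V Tk)) :=
  occWords v 0 l ++ [[s v, t v], [s v, t v, y v 0], [y v l.length, e v, f v], [e v, f v]]

/-- The first string. -/
def strS (items : List (Item V Tk)) (star : Tk) : List (Letter V Tk) :=
  items.flatMap (fun it => gadget it.name false it.toks ++ gadget it.name true it.toks) ++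
    [p star, z star, q star, r star]

/-- The words of the second string. -/
def wordsT (items : List (Item V Tk)) (star : Tk) : List (List (Letter V Tk)) :=
  items.flatMap (fun it => unitWords it.name it.toks) ++ [[z star, r star], [p star, q star]]

/-- The second string. -/
def strT (items : List (Item V Tk)) (star : Tk) : List (Letter V Tk) :=
  (wordsT items star).flatten

/-! ### Forced partitions -/

lemma forced {α : Type*} {R : α → α → Prop} : ∀ (W Q : List (List α)),
    (∀ w ∈ W, w.length = 2 ∨ w.length = 3) →
    W.IsChain (fun w w' => ∀ a ∈ w.getLast?, ∀ b ∈ w'.head?, ¬ R a b) →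
    (∀ B ∈ Q, 2 ≤ B.length ∧ B.IsChain R) → Q.flatten = W.flatten → Q = W := by
  intro W
  induction W with
  | nil =>
    intro Q _ _ hQ h
    cases Q with
    | nil => rfl
    | cons b Q' =>
      have := (hQ b (by simp)).1
      simp at h
      simp [h.1] at this
  | cons w W ih =>
    intro Q hlen hch hQ h
    have hlen' : ∀ w ∈ W, w.length = 2 ∨ w.length = 3 := fun u hu => hlen u (by simp [hu])
    have hch' := hch.tail
    simp only [List.tail_cons] at hch'
    cases Q with
    | nil =>
      rcases hlen w (by simp) with hw | hw <;>
      · simp at h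
        simp [h.1] at hw
    | cons b Q' =>
      have hQ' : ∀ B ∈ Q', 2 ≤ B.length ∧ B.IsChain R := fun u hu => hQ u (by simp [hu])
      obtain ⟨hb2, hbR⟩ := hQ b (by simp)
      -- head of the next word
      have hnext : ∀ (a c : α) (X : List α), w.getLast? = some a → W.flatten = c :: X → ¬ R a c := by
        intro a c X ha hc
        cases W with
        | nil => simp at hc
        | cons w' W' =>
          have hJ := (List.isChain_cons_cons.1 hch).1
          have hw' : w'.head? = some c := by
            have : w' ≠ [] := by
              rintro rfl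
              rcases hlen' [] (by simp) with h | h <;> simp at h
            cases w' with
            | nil => exact absurd rfl this
            | cons c' w'' => simp at hc; simp [hc.1]
          exact hJ a (by simp [ha]) c (by simp [hw'])
      match b, hb2, hbR, h with
      | b1 :: b2 :: bs, _, hbR, h =>
        rcases hlen w (by simp) with hw | hw
        · -- length 2
          match w, hw, h, hnext with
          | [a1, a2], _, h, hnext =>
            simp only [List.flatten_cons, List.cons_append, List.nil_append, List.cons.injEq] at h
            obtain ⟨rfl, rfl, h⟩ := h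
            cases bs with
            | nil =>
              have := ih Q' hlen' hch' hQ' (by simpa using h)
              rw [this]
            | cons c bs' =>
              exfalso
              exact hnext b2 c _ (by simp) (by simpa using h.symm)
                (List.isChain_cons_cons.1 (List.isChain_cons_cons.1 hbR).2).1
        · match w, hw, h, hnext with
          | [a1, a2, a3], _, h, hnext =>
            simp only [List.flatten_cons, List.cons_append, List.nil_append, List.cons.injEq] at h
            obtain ⟨rfl, rfl, h⟩ := h
            cases bs with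
            | nil =>
              exfalso
              simp only [List.nil_append] at h
              cases Q' with
              | nil => simp at h
              | cons b' Q'' =>
                obtain ⟨hb2', hbR'⟩ := hQ' b' (by simp)
                rw [List.flatten_cons] at h
                match b', hb2', hbR', h with
                | c1 :: c2 :: bs'', _, hbR', h0 =>
                  simp only [List.cons_append, List.cons.injEq] at h0
                  obtain ⟨h1, h2⟩ := h0
                  exact hnext a3 c2 _ (by simp) h2.symm
                    (h1 ▸ (List.isChain_cons_cons.1 hbR').1)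
            | cons c bs' =>
              simp only [List.cons_append, List.cons.injEq] at h
              obtain ⟨rfl, h⟩ := h
              cases bs' with
              | nil =>
                have := ih Q' hlen' hch' hQ' (by simpa using h)
                rw [this]
              | cons c' bs'' =>
                exfalso
                exact hnext c c' _ (by simp) (by simpa using h.symm)
                  (List.isChain_cons_cons.1 (List.isChain_cons_cons.1
                    (List.isChain_cons_cons.1 hbR).2).2).1

/-! ### Kinds -/

inductive Kind where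
  | s | t | y | e | f | p | q | z | r
  deriving DecidableEq

def kind : Letter V Tk → Kind
  | .s _ => .s | .t _ => .t | .y _ _ => .y | .e _ => .e | .f _ => .f
  | .p _ => .p | .q _ => .q | .z _ => .z | .r _ => .r

/-- The pairs of kinds which are adjacent somewhere in the first string. -/
def adjK : Kind → Kind → Bool
  | .s, .t => true | .t, .y => true | .y, .p => true | .p, .q => true | .p, .z => true
  | .q, .r => true | .z, .r => true | .r, .y => true | .y, .e => true | .e, .f => true
  | .f, .s => true | .f, .p => true | .z, .q => true
  | _, _ => false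

def Adj (a b : Letter V Tk) : Prop := adjK (kind a) (kind b) = true

lemma chain_body (v : V) (flip : Bool) (l : List (Bool × Tk)) (rest : List (Letter V Tk)) :
    ∀ j, (y v j :: (body v flip j l ++ rest)).IsChain Adj ↔ (f v :: rest).IsChain Adj := by
  induction l with
  | nil => intro j; simp [body, Adj, kind, adjK]
  | cons x l ih =>
    intro j
    obtain ⟨b, a⟩ := x
    have : (y v (j+1) :: (body v flip (j+1) l ++ rest)).IsChain Adj ↔
      (f v :: rest).IsChain Adj := ih (j+1)
    cases b <;> cases flip <;> simp [body, Adj, kind, adjK] at this ⊢ <;> exact this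

lemma chain_gadget (v : V) (flip : Bool) (l : List (Bool × Tk)) (rest : List (Letter V Tk)) :
    (gadget v flip l ++ rest).IsChain Adj ↔ (f v :: rest).IsChain Adj := by
  have := chain_body v flip l rest 0
  simp [gadget, Adj, kind, adjK] at this ⊢
  exact this

lemma chain_strS_aux (star : Tk) (items : List (Item V Tk)) : ∀ v : V,
    (f v :: strS items star).IsChain Adj := by
  induction items with
  | nil => intro v; simp [strS, Adj, kind, adjK]
  | cons it items ih =>
    intro v
    have h1 := ih it.name
    have e1 : strS (it :: items) star = gadget it.name false it.toks ++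
      (gadget it.name true it.toks ++ strS items star) := by
      simp [strS]
    have h2 : (gadget it.name true it.toks ++ strS items star).IsChain Adj :=
      (chain_gadget _ _ _ _).2 h1
    have h3 : (f it.name :: (gadget it.name true it.toks ++ strS items star)).IsChain Adj := by
      have : gadget it.name true it.toks ++ strS items star =
        s it.name :: (t it.name :: y it.name 0 :: body it.name true 0 it.toks ++
          strS items star) := by simp [gadget]
      rw [this] at h2 ⊢
      exact List.isChain_cons_cons.2 ⟨rfl, h2⟩
    have h4 := (chain_gadget it.name false it.toks _).2 h3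
    rw [e1]
    have : gadget it.name false it.toks ++ (gadget it.name true it.toks ++ strS items star) =
        s it.name :: (t it.name :: y it.name 0 :: body it.name false 0 it.toks ++
          (gadget it.name true it.toks ++ strS items star)) := by simp [gadget]
    rw [this] at h4 ⊢
    exact List.isChain_cons_cons.2 ⟨rfl, h4⟩

lemma chain_strS (items : List (Item V Tk)) (star : Tk) : (strS items star).IsChain Adj := by
  cases items with
  | nil => simp [strS, Adj, kind, adjK]
  | cons it items => exact (chain_strS_aux star (it :: items) it.name).tail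

/-! ### Junctions in the second string -/

/-- junction relation -/
def Junc (w w' : List (Letter V Tk)) : Prop :=
  ∀ a ∈ w.getLast?, ∀ b ∈ w'.head?, ¬ Adj a b

lemma junc_occ (v : V) (rest : List (List (Letter V Tk))) :
    ∀ (l : List (Bool × Tk)) (j : ℕ) (a : Tk),
      (∀ (j : ℕ) (a : Tk), ([y v j, p a] :: rest).IsChain Junc) →
      ([y v j, p a] :: (occWords v (j+1) l ++ rest)).IsChain Junc := by
  intro l
  induction l with
  | nil => intro j a h; simpa [occWords] using h j a
  | cons x l ih =>
    intro j a h
    obtain ⟨b, c⟩ := x
    have := ih (j+1) c h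
    cases b <;>
    · simp only [occWords, List.cons_append, List.isChain_cons_cons, this, and_true]
      simp [Junc, Adj, kind, adjK]

lemma junc_unit (v : V) (l : List (Bool × Tk)) (hl : l ≠ []) (rest : List (List (Letter V Tk)))
    (hrest : ([e v, f v] :: rest).IsChain Junc) (w0 : List (Letter V Tk))
    (hw0 : w0 = [] ∨ ∃ a, w0.getLast? = some a ∧ kind a = .f) :
    (w0 :: (unitWords v l ++ rest)).IsChain Junc := by
  cases l with
  | nil => exact absurd rfl hl
  | cons x l =>
    obtain ⟨b, c⟩ := x
    have key : ([y v 0, p c] :: (occWords v (0+1) l ++ ([[s v, t v], [s v, t v, y v 0],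
        [y v (l.length+1), e v, f v], [e v, f v]] ++ rest))).IsChain Junc := by
      apply junc_occ
      intro j a
      simp only [List.cons_append, List.isChain_cons_cons, List.nil_append, hrest, and_true]
      simp [Junc, Adj, kind, adjK]
    have e1 : unitWords v ((b, c) :: l) ++ rest = [r c, y v (0+1)] :: [mid b c, r c] ::
      [p c, mid (!b) c] :: [y v 0, p c] :: (occWords v (0+1) l ++ ([[s v, t v], [s v, t v, y v 0],
        [y v (l.length+1), e v, f v], [e v, f v]] ++ rest)) := by
      simp [unitWords, occWords]
    rw [e1]
    simp only [List.isChain_cons_cons, key, and_true]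
    refine ⟨?_, ?_⟩
    · rcases hw0 with rfl | ⟨a, ha, hk⟩
      · simp [Junc]
      · intro a' ha' b' hb'
        simp only [ha, Option.mem_def, Option.some.injEq] at ha'
        simp only [List.head?_cons, Option.mem_def, Option.some.injEq] at hb'
        subst ha' hb'
        unfold Adj; rw [hk]; simp [kind, adjK]
    · cases b <;> simp [Junc, Adj, kind, adjK]

lemma junc_wordsT_aux (star : Tk) (items : List (Item V Tk)) (hne : ∀ it ∈ items, it.toks ≠ []) :
    ∀ w0 : List (Letter V Tk), (w0 = [] ∨ ∃ a, w0.getLast? = some a ∧ kind a = .f) →
      (w0 :: wordsT items star).IsChain Junc := by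
  induction items with
  | nil =>
    intro w0 hw0
    have e1 : (w0 :: wordsT ([] : List (Item V Tk)) star) =
      w0 :: [z star, r star] :: [p star, q star] :: [] := by simp [wordsT]
    rw [e1]
    simp only [List.isChain_cons_cons, List.isChain_singleton, and_true]
    refine ⟨?_, by simp [Junc, Adj, kind, adjK]⟩
    rcases hw0 with rfl | ⟨a, ha, hk⟩
    · simp [Junc]
    · intro a' ha' b' hb'
      simp only [ha, Option.mem_def, Option.some.injEq] at ha'
      simp only [List.head?_cons, Option.mem_def, Option.some.injEq] at hb'
      subst ha' hb'
      unfold Adj; rw [hk]; simp [kind, adjK]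
  | cons it items ih =>
    intro w0 hw0
    have e1 : wordsT (it :: items) star = unitWords it.name it.toks ++ wordsT items star := by
      simp [wordsT]
    rw [e1]
    apply junc_unit _ _ (hne it (by simp)) _ _ _ hw0
    apply ih (fun u hu => hne u (by simp [hu]))
    right
    exact ⟨f it.name, by simp, rfl⟩

lemma junc_wordsT (items : List (Item V Tk)) (star : Tk) (hne : ∀ it ∈ items, it.toks ≠ []) :
    (wordsT items star).IsChain Junc := by
  have := junc_wordsT_aux star items hne [] (Or.inl rfl)
  exact this.tail

/-! ### Words -/

/-- The shapes of the words of the second string. -/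
inductive Good : List (Letter V Tk) → Prop where
  | st (v v') : Good [s v, t v']
  | sty (v v' v'' j) : Good [s v, t v', y v'' j]
  | yef (v j v' v'') : Good [y v j, e v', f v'']
  | ef (v v') : Good [e v, f v']
  | ry (a v j) : Good [r a, y v j]
  | yp (v j a) : Good [y v j, p a]
  | mr (b a a') : Good [mid b a, r a']
  | pm (a b a') : Good [p a, mid b a']

lemma good_occWords (v : V) : ∀ (l : List (Bool × Tk)) (j : ℕ), ∀ w ∈ occWords v j l, Good w := by
  intro l
  induction l with
  | nil => intro j w hw; simp [occWords] at hw
  | cons x l ih =>
    intro j w hw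
    simp only [occWords, List.mem_cons] at hw
    rcases hw with rfl | rfl | rfl | rfl | hw
    · exact .ry _ _ _
    · exact .mr _ _ _
    · exact .pm _ _ _
    · exact .yp _ _ _
    · exact ih _ _ hw

lemma good_wordsT (items : List (Item V Tk)) (star : Tk) : ∀ w ∈ wordsT items star, Good w := by
  intro w hw
  simp only [wordsT, List.mem_append, List.mem_flatMap, unitWords] at hw
  rcases hw with ⟨it, _, hw | hw⟩ | hw
  · exact good_occWords _ _ _ _ hw
  · simp only [List.mem_cons, List.not_mem_nil, or_false] at hw
    rcases hw with rfl | rfl | rfl | rfl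
    · exact .st _ _
    · exact .sty _ _ _ _
    · exact .yef _ _ _ _
    · exact .ef _ _
  · simp only [List.mem_cons, List.not_mem_nil, or_false] at hw
    rcases hw with rfl | rfl
    · exact .mr false _ _
    · exact .pm _ true _

lemma Good.length {w : List (Letter V Tk)} (h : Good w) : w.length = 2 ∨ w.length = 3 := by
  cases h <;> simp

/-! Parsing. -/

lemma parse_cons {P : List (List (Letter V Tk))} {c : Letter V Tk} {X : List (Letter V Tk)}
    (hP : ∀ B ∈ P, Good B) (h : P.flatten = c :: X) :
    ∃ B P', P = B :: P' ∧ Good B ∧ (∀ B ∈ P', Good B) ∧ B ++ P'.flatten = c :: X := by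
  cases P with
  | nil => simp at h
  | cons B P' =>
    exact ⟨B, P', rfl, hP B (by simp), fun u hu => hP u (by simp [hu]), by simpa using h⟩

def ph1 (v : V) (flip : Bool) : ℕ → List (Bool × Tk) → List (List (Letter V Tk))
  | _, [] => [[e v, f v]]
  | j, x :: l => [p x.2, mid (x.1 ^^ flip) x.2] :: [r x.2, y v (j+1)] :: ph1 v flip (j+1) l

def ph2 (v : V) (flip : Bool) : ℕ → List (Bool × Tk) → List (List (Letter V Tk))
  | j, [] => [[y v j, e v, f v]]
  | j, x :: l => [y v j, p x.2] :: [mid (x.1 ^^ flip) x.2, r x.2] :: ph2 v flip (j+1) l

def gblocks (v : V) (flip : Bool) (phase : Bool) (l : List (Bool × Tk)) :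
    List (List (Letter V Tk)) :=
  if phase then [s v, t v, y v 0] :: ph1 v flip 0 l else [s v, t v] :: ph2 v flip 0 l

lemma ph1_flatten (v : V) (flip : Bool) (l : List (Bool × Tk)) : ∀ j,
    (ph1 v flip j l).flatten = body v flip j l := by
  induction l with
  | nil => intro j; simp [ph1, body]
  | cons x l ih => intro j; simp [ph1, body, ih]

lemma ph2_flatten (v : V) (flip : Bool) (l : List (Bool × Tk)) : ∀ j,
    (ph2 v flip j l).flatten = y v j :: body v flip j l := by
  induction l with
  | nil => intro j; simp [ph2, body]
  | cons x l ih => intro j; simp [ph2, body, ih]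

lemma gblocks_flatten (v : V) (flip phase : Bool) (l : List (Bool × Tk)) :
    (gblocks v flip phase l).flatten = gadget v flip l := by
  cases phase <;> simp [gblocks, gadget, ph1_flatten, ph2_flatten]

lemma ph1_length (v : V) (flip : Bool) (l : List (Bool × Tk)) : ∀ j,
    ∀ B ∈ ph1 v flip j l, 2 ≤ B.length := by
  induction l with
  | nil => intro j; simp [ph1]
  | cons x l ih =>
    intro j B hB
    simp only [ph1, List.mem_cons] at hB
    rcases hB with rfl | rfl | hB
    · simp
    · simp
    · exact ih _ B hB

lemma ph2_length (v : V) (flip : Bool) (l : List (Bool × Tk)) : ∀ j,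
    ∀ B ∈ ph2 v flip j l, 2 ≤ B.length := by
  induction l with
  | nil => intro j; simp [ph2]
  | cons x l ih =>
    intro j B hB
    simp only [ph2, List.mem_cons] at hB
    rcases hB with rfl | rfl | hB
    · simp
    · simp
    · exact ih _ B hB

lemma gblocks_length (v : V) (flip phase : Bool) (l : List (Bool × Tk)) :
    ∀ B ∈ gblocks v flip phase l, 2 ≤ B.length := by
  intro B hB
  cases phase
  · simp only [gblocks, Bool.false_eq_true, if_false, List.mem_cons] at hB
    rcases hB with rfl | hB
    · simp
    · exact ph2_length _ _ _ _ _ hB
  · simp only [gblocks, if_true, List.mem_cons] at hB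
    rcases hB with rfl | hB
    · simp
    · exact ph1_length _ _ _ _ _ hB

lemma parse_p {P : List (List (Letter V Tk))} {a : Tk} {c : Letter V Tk} {X : List (Letter V Tk)}
    (hP : ∀ B ∈ P, Good B) (h : P.flatten = p a :: c :: X) :
    ∃ P', P = [p a, c] :: P' ∧ (∀ B ∈ P', Good B) ∧ P'.flatten = X := by
  obtain ⟨B, P', rfl, hB, hP', h⟩ := parse_cons hP h
  cases hB <;> simp_all [mid]

lemma parse_r {P : List (List (Letter V Tk))} {a : Tk} {c : Letter V Tk} {X : List (Letter V Tk)}
    (hP : ∀ B ∈ P, Good B) (h : P.flatten = r a :: c :: X) :
    ∃ P', P = [r a, c] :: P' ∧ (∀ B ∈ P', Good B) ∧ P'.flatten = X := by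
  obtain ⟨B, P', rfl, hB, hP', h⟩ := parse_cons hP h
  cases hB with
  | mr b a a' => cases b <;> simp_all
  | _ => simp_all

lemma parse_m {P : List (List (Letter V Tk))} {b : Bool} {a : Tk} {c : Letter V Tk}
    {X : List (Letter V Tk)}
    (hP : ∀ B ∈ P, Good B) (h : P.flatten = mid b a :: c :: X) :
    ∃ P', P = [mid b a, c] :: P' ∧ (∀ B ∈ P', Good B) ∧ P'.flatten = X := by
  obtain ⟨B, P', rfl, hB, hP', h⟩ := parse_cons hP h
  cases hB with
  | mr b' a a' => cases b' <;> cases b <;> simp_all
  | _ => cases b <;> simp_all

lemma parse_e {P : List (List (Letter V Tk))} {v : V} {c : Letter V Tk}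
    {X : List (Letter V Tk)}
    (hP : ∀ B ∈ P, Good B) (h : P.flatten = e v :: c :: X) :
    ∃ P', P = [e v, c] :: P' ∧ (∀ B ∈ P', Good B) ∧ P'.flatten = X := by
  obtain ⟨B, P', rfl, hB, hP', h⟩ := parse_cons hP h
  cases hB with
  | mr b a a' => cases b <;> simp_all
  | _ => simp_all

lemma parse_yp {P : List (List (Letter V Tk))} {v : V} {j : ℕ} {a : Tk}
    {X : List (Letter V Tk)}
    (hP : ∀ B ∈ P, Good B) (h : P.flatten = y v j :: p a :: X) :
    ∃ P', P = [y v j, p a] :: P' ∧ (∀ B ∈ P', Good B) ∧ P'.flatten = X := by
  obtain ⟨B, P', rfl, hB, hP', h⟩ := parse_cons hP h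
  cases hB with
  | mr b a a' => cases b <;> simp_all
  | _ => simp_all

lemma parse_yef {P : List (List (Letter V Tk))} {v v' : V} {j : ℕ} {c : Letter V Tk}
    {X : List (Letter V Tk)}
    (hP : ∀ B ∈ P, Good B) (h : P.flatten = y v j :: e v' :: c :: X) :
    ∃ P', P = [y v j, e v', c] :: P' ∧ (∀ B ∈ P', Good B) ∧ P'.flatten = X := by
  obtain ⟨B, P', rfl, hB, hP', h⟩ := parse_cons hP h
  cases hB with
  | mr b a a' => cases b <;> simp_all
  | _ => simp_all

lemma parse_s {P : List (List (Letter V Tk))} {v v' v'' : V} {j : ℕ}
    {X : List (Letter V Tk)}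
    (hP : ∀ B ∈ P, Good B) (h : P.flatten = s v :: t v' :: y v'' j :: X) :
    (∃ P', P = [s v, t v', y v'' j] :: P' ∧ (∀ B ∈ P', Good B) ∧ P'.flatten = X) ∨
    (∃ P', P = [s v, t v'] :: P' ∧ (∀ B ∈ P', Good B) ∧ P'.flatten = y v'' j :: X) := by
  obtain ⟨B, P', rfl, hB, hP', h⟩ := parse_cons hP h
  cases hB with
  | mr b a a' => cases b <;> simp_all
  | _ => simp_all

lemma parse_body (v : V) (flip : Bool) (rest : List (Letter V Tk)) :
    ∀ (l : List (Bool × Tk)) (j : ℕ) (P : List (List (Letter V Tk))),
      (∀ B ∈ P, Good B) → P.flatten = body v flip j l ++ rest →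
      ∃ P', P = ph1 v flip j l ++ P' ∧ (∀ B ∈ P', Good B) ∧ P'.flatten = rest := by
  intro l
  induction l with
  | nil =>
    intro j P hP h
    obtain ⟨P', rfl, hP', h⟩ := parse_e hP (by simpa [body] using h)
    exact ⟨P', by simp [ph1], hP', h⟩
  | cons x l ih =>
    intro j P hP h
    obtain ⟨P1, rfl, hP1, h⟩ := parse_p hP (by simpa [body] using h)
    obtain ⟨P2, rfl, hP2, h⟩ := parse_r hP1 h
    obtain ⟨P3, rfl, hP3, h⟩ := ih (j+1) P2 hP2 h
    exact ⟨P3, by simp [ph1], hP3, h⟩

lemma parse_ybody (v : V) (flip : Bool) (rest : List (Letter V Tk)) :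
    ∀ (l : List (Bool × Tk)) (j : ℕ) (P : List (List (Letter V Tk))),
      (∀ B ∈ P, Good B) → P.flatten = y v j :: (body v flip j l ++ rest) →
      ∃ P', P = ph2 v flip j l ++ P' ∧ (∀ B ∈ P', Good B) ∧ P'.flatten = rest := by
  intro l
  induction l with
  | nil =>
    intro j P hP h
    obtain ⟨P', rfl, hP', h⟩ := parse_yef hP (by simpa [body] using h)
    exact ⟨P', by simp [ph2], hP', h⟩
  | cons x l ih =>
    intro j P hP h
    obtain ⟨P1, rfl, hP1, h⟩ := parse_yp hP (by simpa [body] using h)
    obtain ⟨P2, rfl, hP2, h⟩ := parse_m hP1 h
    obtain ⟨P3, rfl, hP3, h⟩ := ih (j+1) P2 hP2 h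
    exact ⟨P3, by simp [ph2], hP3, h⟩

lemma parse_gadget (v : V) (flip : Bool) (l : List (Bool × Tk)) (rest : List (Letter V Tk))
    (P : List (List (Letter V Tk))) (hP : ∀ B ∈ P, Good B)
    (h : P.flatten = gadget v flip l ++ rest) :
    ∃ phase P', P = gblocks v flip phase l ++ P' ∧ (∀ B ∈ P', Good B) ∧ P'.flatten = rest := by
  rcases parse_s hP (by simpa [gadget] using h) with ⟨P1, rfl, hP1, h⟩ | ⟨P1, rfl, hP1, h⟩
  · obtain ⟨P2, rfl, hP2, h⟩ := parse_body _ _ _ _ _ _ hP1 h
    exact ⟨true, P2, by simp [gblocks], hP2, h⟩
  · obtain ⟨P2, rfl, hP2, h⟩ := parse_ybody _ _ _ _ _ _ hP1 h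
    exact ⟨false, P2, by simp [gblocks], hP2, h⟩

/-- The blocks of the first string, for given phases. -/
def blocksS (star : Tk) (L : List (Item V Tk × Bool × Bool)) : List (List (Letter V Tk)) :=
  L.flatMap (fun x => gblocks x.1.name false x.2.1 x.1.toks ++
    gblocks x.1.name true x.2.2 x.1.toks) ++ [[p star, z star], [q star, r star]]

lemma parse_strS (star : Tk) : ∀ (items : List (Item V Tk)) (P : List (List (Letter V Tk))),
    (∀ B ∈ P, Good B) → P.flatten = strS items star →
    ∃ L : List (Item V Tk × Bool × Bool), L.map Prod.fst = items ∧ P = blocksS star L := by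
  intro items
  induction items with
  | nil =>
    intro P hP h
    refine ⟨[], rfl, ?_⟩
    obtain ⟨P1, rfl, hP1, h⟩ := parse_p hP (by simpa [strS] using h)
    obtain ⟨P2, rfl, hP2, h⟩ := parse_m (b := true) hP1 h
    cases P2 with
    | nil => simp [blocksS]
    | cons B P3 =>
      have := (hP2 B (by simp)).length
      simp only [List.flatten_cons, List.append_eq_nil_iff] at h
      rw [h.1] at this
      simp at this
  | cons it items ih =>
    intro P hP h
    have e1 : strS (it :: items) star = gadget it.name false it.toks ++
      (gadget it.name true it.toks ++ strS items star) := by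
      simp [strS]
    rw [e1] at h
    obtain ⟨φ, P1, rfl, hP1, h⟩ := parse_gadget _ _ _ _ _ hP h
    obtain ⟨ψ, P2, rfl, hP2, h⟩ := parse_gadget _ _ _ _ _ hP1 h
    obtain ⟨L, hL, rfl⟩ := ih _ hP2 h
    exact ⟨(it, φ, ψ) :: L, by simp [hL], by simp [blocksS]⟩

/-! ### Counting -/

section count

variable [DecidableEq V] [DecidableEq Tk]

lemma count_sty_ph1 (v v' : V) (flip : Bool) (l : List (Bool × Tk)) :
    ∀ j, (ph1 v' flip j l).count [s v, t v, y v 0] = 0 := by
  induction l with
  | nil => intro j; simp [ph1]
  | cons x l ih => intro j; simp [ph1, List.count_cons, ih]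

lemma count_sty_ph2 (v v' : V) (flip : Bool) (l : List (Bool × Tk)) :
    ∀ j, (ph2 v' flip j l).count [s v, t v, y v 0] = 0 := by
  induction l with
  | nil => intro j; simp [ph2]
  | cons x l ih =>
    intro j
    obtain ⟨b, a⟩ := x
    cases b <;> cases flip <;> simp [ph2, List.count_cons, ih]

lemma count_sty_gblocks (v v' : V) (flip phase : Bool) (l : List (Bool × Tk)) :
    (gblocks v' flip phase l).count [s v, t v, y v 0] = if v' = v ∧ phase = true then 1 else 0 := by
  cases phase
  · simp [gblocks, List.count_cons, count_sty_ph2]
  · by_cases h : v' = v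
    · subst h; simp [gblocks, List.count_cons, count_sty_ph1]
    · simp [gblocks, List.count_cons, count_sty_ph1, h]

lemma count_sty_occWords (v v' : V) (l : List (Bool × Tk)) :
    ∀ j, (occWords v' j l).count [s v, t v, y v 0] = 0 := by
  induction l with
  | nil => intro j; simp [occWords]
  | cons x l ih =>
    intro j
    obtain ⟨b, a⟩ := x
    cases b <;> simp [occWords, List.count_cons, ih]

lemma count_sty_unitWords (v v' : V) (l : List (Bool × Tk)) :
    (unitWords v' l).count [s v, t v, y v 0] = if v' = v then 1 else 0 := by
  by_cases h : v' = v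
  · subst h; simp [unitWords, List.count_cons, count_sty_occWords]
  · simp [unitWords, List.count_cons, count_sty_occWords, h]

lemma count_pq_ph1 (v' : V) (a : Tk) (flip : Bool) (l : List (Bool × Tk)) :
    ∀ j, (ph1 v' flip j l).count [p a, q a] = (if flip then ins l else outs l).count a := by
  induction l with
  | nil => intro j; cases flip <;> simp [ph1]
  | cons x l ih =>
    intro j
    obtain ⟨b, a'⟩ := x
    have := ih (j+1)
    by_cases h : a' = a
    · subst h
      cases b <;> cases flip <;> simp [ph1, List.count_cons] at this ⊢ <;> simp [this]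
    · cases b <;> cases flip <;> simp [ph1, List.count_cons, h] at this ⊢ <;> simp [this]

lemma count_pq_ph2 (v' : V) (a : Tk) (flip : Bool) (l : List (Bool × Tk)) :
    ∀ j, (ph2 v' flip j l).count [p a, q a] = 0 := by
  induction l with
  | nil => intro j; simp [ph2]
  | cons x l ih =>
    intro j
    obtain ⟨b, a'⟩ := x
    cases b <;> cases flip <;> simp [ph2, List.count_cons, ih]

lemma count_pq_gblocks (v' : V) (a : Tk) (flip phase : Bool) (l : List (Bool × Tk)) :
    (gblocks v' flip phase l).count [p a, q a] =
      if phase then (if flip then ins l else outs l).count a else 0 := by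
  cases phase
  · simp [gblocks, List.count_cons, count_pq_ph2]
  · simp [gblocks, List.count_cons, count_pq_ph1]

lemma count_pq_occWords (v' : V) (a : Tk) (l : List (Bool × Tk)) :
    ∀ j, (occWords v' j l).count [p a, q a] = (ins l).count a := by
  induction l with
  | nil => intro j; simp [occWords]
  | cons x l ih =>
    intro j
    obtain ⟨b, a'⟩ := x
    by_cases h : a' = a
    · subst h
      cases b <;> simp [occWords, List.count_cons, ih]
    · cases b <;> simp [occWords, List.count_cons, ih, h]

lemma count_pq_unitWords (v' : V) (a : Tk) (l : List (Bool × Tk)) :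
    (unitWords v' l).count [p a, q a] = (ins l).count a := by
  simp [unitWords, List.count_cons, count_pq_occWords]

/-! Counting an arbitrary word in the two parsings. -/

/-- words for a token used -/
def uW (w : List (Letter V Tk)) (a : Tk) : ℕ := ([[p a, q a], [z a, r a]] : List _).count w
/-- words for a token not used -/
def nW (w : List (Letter V Tk)) (a : Tk) : ℕ := ([[p a, z a], [q a, r a]] : List _).count w

lemma count_true_aux (w : List (Letter V Tk)) (v : V) (l : List (Bool × Tk)) : ∀ j,
    (ph1 v false j l).count w + (ph2 v true j l).count w +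
      ((ins l).map (uW w)).sum + ((outs l).map (nW w)).sum =
    (occWords v j l).count w + ([[e v, f v], [y v (j + l.length), e v, f v]] : List _).count w +
      ((outs l).map (uW w)).sum + ((ins l).map (nW w)).sum := by
  induction l with
  | nil => intro j; simp [ph1, ph2, occWords, List.count_cons]; try omega
  | cons x l ih =>
    intro j
    obtain ⟨b, a⟩ := x
    have h := ih (j+1)
    have e1 : j + (l.length + 1) = j + 1 + l.length := by omega
    cases b <;> simp only [ph1, ph2, occWords, List.count_cons, uW, nW, List.count_nil,
      Bool.xor_false, Bool.xor_true, Bool.not_true, Bool.not_false, mid_true, mid_false,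
      ins_cons_true, ins_cons_false, outs_cons_true, outs_cons_false, List.map_cons,
      List.sum_cons, List.length_cons, e1] at h ⊢ <;> omega

lemma count_false_aux (w : List (Letter V Tk)) (v : V) (l : List (Bool × Tk)) : ∀ j,
    (ph2 v false j l).count w + (ph1 v true j l).count w =
    (occWords v j l).count w + ([[e v, f v], [y v (j + l.length), e v, f v]] : List _).count w := by
  induction l with
  | nil => intro j; simp [ph1, ph2, occWords, List.count_cons]; try omega
  | cons x l ih =>
    intro j
    obtain ⟨b, a⟩ := x
    have h := ih (j+1)
    have e1 : j + (l.length + 1) = j + 1 + l.length := by omega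
    cases b <;> simp only [ph1, ph2, occWords, List.count_cons, List.count_nil,
      Bool.xor_false, Bool.xor_true, Bool.not_true, Bool.not_false, mid_true, mid_false,
      List.length_cons, e1] at h ⊢ <;> omega

lemma count_true (w : List (Letter V Tk)) (v : V) (l : List (Bool × Tk)) :
    (gblocks v false true l).count w + (gblocks v true false l).count w +
      ((ins l).map (uW w)).sum + ((outs l).map (nW w)).sum =
    (unitWords v l).count w +
      ((outs l).map (uW w)).sum + ((ins l).map (nW w)).sum := by
  have := count_true_aux w v l 0
  simp only [gblocks, unitWords, List.count_cons, List.count_append, List.count_nil,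
    Bool.false_eq_true, if_true, if_false, zero_add] at this ⊢
  omega

lemma count_false (w : List (Letter V Tk)) (v : V) (l : List (Bool × Tk)) :
    (gblocks v false false l).count w + (gblocks v true true l).count w =
    (unitWords v l).count w := by
  have := count_false_aux w v l 0
  simp only [gblocks, unitWords, List.count_cons, List.count_append, List.count_nil,
    Bool.false_eq_true, if_true, if_false, zero_add] at this ⊢
  omega

lemma count_blocksS_sty (star : Tk) (v : V) (L : List (Item V Tk × Bool × Bool)) :
    (blocksS star L).count [s v, t v, y v 0] =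
    (L.map (fun x => if x.1.name = v then (if x.2.1 then 1 else 0) + (if x.2.2 then 1 else 0)
      else 0)).sum := by
  induction L with
  | nil => simp [blocksS, List.count_cons]
  | cons x L ih =>
    obtain ⟨it, φ, ψ⟩ := x
    simp only [blocksS, List.flatMap_cons, List.count_append, count_sty_gblocks, List.map_cons,
      List.sum_cons] at ih ⊢
    rw [← ih]
    by_cases h : it.name = v <;> simp [h] <;> omega

lemma count_wordsT_sty (star : Tk) (v : V) (items : List (Item V Tk)) :
    (wordsT items star).count [s v, t v, y v 0] =
    (items.map (fun x => if x.name = v then 1 else 0)).sum := by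
  induction items with
  | nil => simp [wordsT, List.count_cons]
  | cons x L ih =>
    simp only [wordsT, List.flatMap_cons, List.count_append, count_sty_unitWords, List.map_cons,
      List.sum_cons] at ih ⊢
    rw [← ih, Nat.add_assoc]

lemma count_blocksS_pq (star : Tk) (a : Tk) (L : List (Item V Tk × Bool × Bool)) :
    (blocksS star L).count [p a, q a] =
    (L.map (fun x => (if x.2.1 then (outs x.1.toks).count a else 0) +
      (if x.2.2 then (ins x.1.toks).count a else 0))).sum := by
  induction L with
  | nil => simp [blocksS, List.count_cons]
  | cons x L ih =>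
    obtain ⟨it, φ, ψ⟩ := x
    simp only [blocksS, List.flatMap_cons, List.count_append, count_pq_gblocks, List.map_cons,
      List.sum_cons] at ih ⊢
    rw [← ih]
    simp <;> omega

lemma count_wordsT_pq (star : Tk) (a : Tk) (items : List (Item V Tk)) :
    (wordsT items star).count [p a, q a] =
    (items.map (fun x => (ins x.toks).count a)).sum + if star = a then 1 else 0 := by
  induction items with
  | nil =>
    by_cases h : star = a
    · subst h; simp [wordsT, List.count_cons]
    · simp [wordsT, List.count_cons, h]
  | cons x L ih =>
    simp only [wordsT, List.flatMap_cons, List.count_append, count_pq_unitWords, List.map_cons,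
      List.sum_cons] at ih ⊢
    omega

lemma sum_name {γ : Type*} (nm : γ → V) (g : γ → ℕ) : ∀ (L : List γ), (L.map nm).Nodup → ∀ x ∈ L,
    (L.map (fun y => if nm y = nm x then g y else 0)).sum = g x := by
  intro L
  induction L with
  | nil => intro _ x hx; simp at hx
  | cons y L ih =>
    intro hn x hx
    simp only [List.map_cons, List.nodup_cons] at hn
    simp only [List.map_cons, List.sum_cons]
    rcases List.mem_cons.1 hx with rfl | hx
    · have : (L.map (fun y => if nm y = nm x then g y else 0)).sum = 0 := by
        rw [List.sum_eq_zero_iff]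
        intro n hmem
        obtain ⟨z, hz, rfl⟩ := List.mem_map.1 hmem
        rw [if_neg]
        intro h
        exact hn.1 (h ▸ List.mem_map_of_mem hz)
      simp [this]
    · have : nm y ≠ nm x := by
        intro h
        exact hn.1 (h ▸ List.mem_map_of_mem hx)
      rw [if_neg this, ih hn.2 x hx, zero_add]

end count

lemma exists_annot {γ : Type*} {E l : List γ} (h : E.Sublist l) :
    ∃ L : List (γ × Bool), L.map Prod.fst = l ∧ (L.filter Prod.snd).map Prod.fst = E := by
  induction h with
  | slnil => exact ⟨[], rfl, rfl⟩
  | cons a _ ih =>
    obtain ⟨L, h1, h2⟩ := ih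
    exact ⟨(a, false) :: L, by simp [h1], by simpa using h2⟩
  | cons_cons a _ ih =>
    obtain ⟨L, h1, h2⟩ := ih
    exact ⟨(a, true) :: L, by simp [h1], by simpa using h2⟩

lemma chain_of_mem_flatten {α : Type*} {R : α → α → Prop} {P : List (List α)} {B : List α}
    (hB : B ∈ P) (h : P.flatten.IsChain R) : B.IsChain R := by
  obtain ⟨l1, l2, rfl⟩ := List.append_of_mem hB
  rw [List.flatten_append, List.flatten_cons] at h
  exact h.right_of_append.left_of_append

theorem hasCSP_iff (items : List (Item V Tk)) (star : Tk) (hn : (items.map Item.name).Nodup)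
    (hne : ∀ it ∈ items, it.toks ≠ []) :
    HasCommonStripPartition (strS items star) (strT items star) ↔
    ∃ E : List (Item V Tk), E.Sublist items ∧
      (E.flatMap (fun it => outs it.toks)).Perm (star :: E.flatMap (fun it => ins it.toks)) := by
  classical
  constructor
  · rintro ⟨P, Q, hP, hQ, hPQ⟩
    have hchain : ∀ B ∈ Q, 2 ≤ B.length ∧ B.IsChain Adj := by
      intro B hB
      refine ⟨hQ.2 B hB, ?_⟩
      apply chain_of_mem_flatten (hPQ.symm.subset hB)
      rw [hP.1]
      exact chain_strS _ _
    have hQW : Q = wordsT items star :=
      forced (R := Adj) _ _ (fun w hw => (good_wordsT items star w hw).length)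
        (junc_wordsT items star hne) hchain hQ.1
    subst hQW
    have hgood : ∀ B ∈ P, Good B := fun B hB => good_wordsT items star B (hPQ.subset hB)
    obtain ⟨L, hL, rfl⟩ := parse_strS star items P hgood hP.1
    subst hL
    have hphase : ∀ x ∈ L, x.2.2 = !x.2.1 := by
      intro x hx
      have h1 := hPQ.count_eq [s x.1.name, t x.1.name, y x.1.name 0]
      rw [count_blocksS_sty, count_wordsT_sty] at h1
      rw [List.map_map] at h1 hn
      have h2 := sum_name (fun y : Item V Tk × Bool × Bool => y.1.name)
        (fun y => (if y.2.1 then 1 else 0) + (if y.2.2 then 1 else 0)) L hn x hx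
      have h3 := sum_name (fun y : Item V Tk × Bool × Bool => y.1.name)
        (fun y => 1) L hn x hx
      have h4 : (List.map ((fun y : Item V Tk => if y.name = x.1.name then 1 else 0) ∘ Prod.fst)
        L).sum = 1 := h3
      rw [h4] at h1
      rw [h1] at h2
      rcases x with ⟨it, φ, ψ⟩
      cases φ <;> cases ψ <;> simp at h2 ⊢
    refine ⟨(L.filter (fun x => x.2.1)).map Prod.fst, ?_, ?_⟩
    · exact (List.filter_sublist).map _
    · rw [List.perm_iff_count]
      intro a
      have h1 := hPQ.count_eq [p a, q a]
      rw [count_blocksS_pq, count_wordsT_pq] at h1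
      have h2 : (L.map (fun x => (if x.2.1 then (outs x.1.toks).count a else 0) +
          (if x.2.2 then (ins x.1.toks).count a else 0))).sum +
          (((L.filter (fun x => x.2.1)).map Prod.fst).flatMap (fun it => ins it.toks)).count a =
          (((L.filter (fun x => x.2.1)).map Prod.fst).flatMap (fun it => outs it.toks)).count a +
          ((L.map Prod.fst).map (fun x => (ins x.toks).count a)).sum := by
        clear h1 hPQ hP hQ hn hne hchain hgood
        induction L with
        | nil => simp
        | cons x L ih =>
          have ih' := ih (fun y hy => hphase y (by simp [hy]))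
          have hx := hphase x (by simp)
          rcases x with ⟨it, φ, ψ⟩
          simp only at hx
          subst hx
          cases φ
          · simp at ih' ⊢
            omega
          · simp at ih' ⊢
            omega
      rw [List.count_cons]
      simp only [beq_iff_eq]
      omega
  · rintro ⟨E, hE, hperm⟩
    obtain ⟨L, hL, hLE⟩ := exists_annot hE
    subst hL
    refine ⟨blocksS star (L.map (fun x => (x.1, x.2, !x.2))), wordsT (L.map Prod.fst) star,
      ⟨?_, ?_⟩, ⟨rfl, ?_⟩, ?_⟩
    · clear hn hne hE hLE hperm
      induction L with
      | nil => simp [blocksS, strS]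
      | cons x L ih =>
        simp only [blocksS, strS, List.map_cons, List.flatMap_cons, List.append_assoc,
          List.flatten_append, gblocks_flatten] at ih ⊢
        rw [ih]
    · intro B hB
      simp only [blocksS, List.mem_append, List.mem_flatMap] at hB
      rcases hB with ⟨x, _, hB | hB⟩ | hB
      · exact gblocks_length _ _ _ _ _ hB
      · exact gblocks_length _ _ _ _ _ hB
      · simp only [List.mem_cons, List.not_mem_nil, or_false] at hB
        rcases hB with rfl | rfl <;> simp
    · intro B hB
      rcases (good_wordsT _ _ B hB).length with h | h <;> omega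
    · rw [List.perm_iff_count]
      intro w
      have hU : ∀ g : Tk → ℕ, ((E.flatMap (fun it => outs it.toks)).map g).sum =
          g star + ((E.flatMap (fun it => ins it.toks)).map g).sum := by
        intro g
        rw [(hperm.map g).sum_eq]
        simp
      have h2 : (blocksS star (L.map (fun x => (x.1, x.2, !x.2)))).count w +
          ((E.flatMap (fun it => ins it.toks)).map (uW w)).sum +
          ((E.flatMap (fun it => outs it.toks)).map (nW w)).sum + uW w star =
          (wordsT (L.map Prod.fst) star).count w +
          ((E.flatMap (fun it => outs it.toks)).map (uW w)).sum +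
          ((E.flatMap (fun it => ins it.toks)).map (nW w)).sum + nW w star := by
        clear hU hperm hn hne hE
        subst hLE
        induction L with
        | nil =>
          simp only [blocksS, wordsT, uW, nW, List.map_nil, List.flatMap_nil, List.nil_append,
            List.filter_nil, List.sum_nil, List.count_cons, List.count_nil]
          omega
        | cons x L ih =>
          rcases x with ⟨it, φ⟩
          cases φ
          · have := count_false w it.name it.toks
            simp only [blocksS, wordsT, List.map_cons, List.flatMap_cons, List.count_append,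
              List.filter_cons, Bool.false_eq_true, if_false, Bool.not_false] at ih this ⊢
            omega
          · have := count_true w it.name it.toks
            simp only [blocksS, wordsT, List.map_cons, List.flatMap_cons, List.count_append,
              List.filter_cons, if_true, Bool.not_true, List.map_append, List.sum_append]
              at ih this ⊢
            omega
      have hu := hU (uW w)
      have hn := hU (nW w)
      omega

/-- The same with multisets. -/
theorem hasCSP_iff_multiset (items : List (Item V Tk)) (star : Tk)
    (hn : (items.map Item.name).Nodup) (hne : ∀ it ∈ items, it.toks ≠ []) :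
    HasCommonStripPartition (strS items star) (strT items star) ↔
    ∃ E : Multiset (Item V Tk), E ≤ (items : Multiset (Item V Tk)) ∧
      E.bind (fun it => (outs it.toks : Multiset Tk)) =
        star ::ₘ E.bind (fun it => (ins it.toks : Multiset Tk)) := by
  rw [hasCSP_iff items star hn hne]
  have key : ∀ (g : Item V Tk → List Tk) (E : List (Item V Tk)),
      (E : Multiset (Item V Tk)).bind (fun it => (g it : Multiset Tk)) =
        ((E.flatMap g : List Tk) : Multiset Tk) := by
    intro g E
    exact Multiset.coe_bind _ _
  constructor
  · rintro ⟨E, hE, hp⟩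
    refine ⟨E, hE.subperm, ?_⟩
    rw [key (fun it => outs it.toks), key (fun it => ins it.toks), Multiset.cons_coe]
    exact Multiset.coe_eq_coe.2 hp
  · rintro ⟨E, hE, hp⟩
    induction E using Quotient.inductionOn with
    | h E =>
      obtain ⟨E', hE', hs⟩ := Multiset.coe_le.1 hE
      refine ⟨E', hs, ?_⟩
      have hEE : (E : Multiset (Item V Tk)) = (E' : Multiset (Item V Tk)) :=
        Multiset.coe_eq_coe.2 hE'.symm
      change (E : Multiset (Item V Tk)).bind _ = star ::ₘ (E : Multiset (Item V Tk)).bind _ at hp
      rw [hEE, key (fun it => outs it.toks), key (fun it => ins it.toks), Multiset.cons_coe] at hp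
      exact Multiset.coe_eq_coe.1 hp

/-- The two strings are always balanced. -/
theorem balanced (items : List (Item V Tk)) (star : Tk) :
    (strS items star).Perm (strT items star) := by
  classical
  induction items with
  | nil =>
    rw [List.perm_iff_count]
    intro a
    simp [strS, strT, wordsT, List.count_cons]
    omega
  | cons it items ih =>
    have h1 : (gblocks it.name false false it.toks ++ gblocks it.name true true it.toks).Perm
        (unitWords it.name it.toks) := by
      rw [List.perm_iff_count]
      intro w
      rw [List.count_append]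
      exact count_false w _ _
    have h2 := h1.flatten
    rw [List.flatten_append, gblocks_flatten, gblocks_flatten] at h2
    have e1 : strS (it :: items) star = (gadget it.name false it.toks ++
      gadget it.name true it.toks) ++ strS items star := by
      simp [strS]
    have e2 : strT (it :: items) star = (unitWords it.name it.toks).flatten ++
      strT items star := by
      simp [strT, wordsT]
    rw [e1, e2]
    exact h2.append ih

/-! ### Renaming letters -/

lemma HasCommonStripPartition.map {α β : Type*} (g : α → β) {S T : List α}
    (h : HasCommonStripPartition S T) : HasCommonStripPartition (S.map g) (T.map g) := by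
  obtain ⟨P, Q, ⟨h1, h2⟩, ⟨h3, h4⟩, h5⟩ := h
  refine ⟨P.map (List.map g), Q.map (List.map g), ⟨?_, ?_⟩, ⟨?_, ?_⟩, h5.map _⟩
  · rw [← h1, List.map_flatten]
  · intro B hB
    obtain ⟨C, hC, rfl⟩ := List.mem_map.1 hB
    simpa using h2 C hC
  · rw [← h3, List.map_flatten]
  · intro B hB
    obtain ⟨C, hC, rfl⟩ := List.mem_map.1 hB
    simpa using h4 C hC

lemma hasCSP_map_iff {α β : Type*} (g : α → β) {S T : List α}
    (hg : Set.InjOn g {a | a ∈ S ∨ a ∈ T}) :
    HasCommonStripPartition (S.map g) (T.map g) ↔ HasCommonStripPartition S T := by
  classical
  refine ⟨fun h => ?_, fun h => h.map g⟩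
  by_cases hne : Nonempty α
  · have hinv := hg.leftInvOn_invFunOn
    have h' := h.map (Function.invFunOn g {a | a ∈ S ∨ a ∈ T})
    rw [List.map_map, List.map_map] at h'
    have e1 : S.map (Function.invFunOn g {a | a ∈ S ∨ a ∈ T} ∘ g) = S := by
      conv_rhs => rw [← List.map_id S]
      exact List.map_congr_left (fun a ha => hinv (Or.inl ha))
    have e2 : T.map (Function.invFunOn g {a | a ∈ S ∨ a ∈ T} ∘ g) = T := by
      conv_rhs => rw [← List.map_id T]
      exact List.map_congr_left (fun a ha => hinv (Or.inr ha))
    rwa [e1, e2] at h'
  · have hS : S = [] := List.eq_nil_iff_forall_not_mem.2 (fun a => (hne ⟨a⟩).elim)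
    have hT : T = [] := List.eq_nil_iff_forall_not_mem.2 (fun a => (hne ⟨a⟩).elim)
    subst hS hT
    exact ⟨[], [], ⟨rfl, by simp⟩, ⟨rfl, by simp⟩, List.Perm.refl _⟩

end Pool.Agent.helper62
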