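import Pool.Agent.helper62.Machine

/-!
Simulation of a multi-stack Turing machine (Mathlib's `TM2`) by rules.
-/

set_option autoImplicit false
set_option linter.unusedSimpArgs false
set_option linter.unusedSectionVars false

namespace Pool.Agent.helper62

open Turing

lemma Run.append {Q K A : Type} [DecidableEq K] {L1 L2 : List (List (Rule Q K A))}
    {q q' q'' : Q} {S S' S'' : K → List A} (h1 : Run L1 q S q' S') (h2 : Run L2 q' S' q'' S'') :
    Run (L1 ++ L2) q S q'' S'' := by
  induction h1 with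
  | nil => exact h2
  | cons ρ hρ hs hr _ ih => exact Run.cons ρ hρ hs hr (ih h2)

lemma Run.split {Q K A : Type} [DecidableEq K] {L2 : List (List (Rule Q K A))} :
    ∀ {L1 : List (List (Rule Q K A))}
    {q q'' : Q} {S S'' : K → List A} (_ : Run (L1 ++ L2) q S q'' S''),
    ∃ q' S', Run L1 q S q' S' ∧ Run L2 q' S' q'' S'' := by
  intro L1
  induction L1 with
  | nil => intro q q'' S S'' h; exact ⟨q, S, Run.nil _ _, h⟩
  | cons R L1 ih =>
    intro q q'' S S'' h
    cases h with
    | cons ρ hρ hs hr h =>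
      obtain ⟨q', S', h1, h2⟩ := ih h
      exact ⟨q', S', Run.cons ρ hρ hs hr h1, h2⟩

section sim

variable {K : Type} [DecidableEq K] {Γ : K → Type} {Λ σ : Type}

/-- States of the simulating machine. -/
inductive VQ (Γ : K → Type) (Λ σ : Type) where
  | g0 | g1 | g2 | h | ld
  | run (s : TM2.Stmt Γ Λ σ) (v : σ)
  | acc

/-- symbols -/
abbrev VA (Γ : K → Type) : Type := Σ k, Γ k

/-- stack contents -/
def stkOf (S : ∀ k, List (Γ k)) : K → List (VA Γ) := fun k => (S k).map (Sigma.mk k)

lemma stkOf_head (S : ∀ k, List (Γ k)) (k : K) :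
    (stkOf S k).head? = ((S k).head?).map (Sigma.mk k) := by
  simp [stkOf]

lemma stkOf_update (S : ∀ k, List (Γ k)) (k : K) (l : List (Γ k)) :
    stkOf (Function.update S k l) = Function.update (stkOf S) k (l.map (Sigma.mk k)) := by
  funext k'
  by_cases hk : k' = k
  · subst hk; simp [stkOf]
  · simp [stkOf, Function.update_of_ne hk]

lemma stkOf_head_some {S : ∀ k, List (Γ k)} {k : K} {g : Γ k}
    (h : (stkOf S k).head? = some ⟨k, g⟩) : (S k).head? = some g := by
  rw [stkOf_head] at h
  cases hS : (S k).head? with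
  | none => rw [hS] at h; simp at h
  | some g' => rw [hS] at h; simp at h; rw [h]

lemma stkOf_head_none {S : ∀ k, List (Γ k)} {k : K}
    (h : (stkOf S k).head? = none) : (S k).head? = none := by
  rw [stkOf_head] at h
  simpa using h

/-- symbols pushed by a statement -/
def pushes (vs : List σ) : TM2.Stmt Γ Λ σ → List (VA Γ)
  | .push k f q => vs.map (fun v => ⟨k, f v⟩) ++ pushes vs q
  | .peek _ _ q => pushes vs q
  | .pop _ _ q => pushes vs q
  | .load _ q => pushes vs q
  | .branch _ q₁ q₂ => pushes vs q₁ ++ pushes vs q₂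
  | .goto _ => []
  | .halt => []

/-- the part of a list of symbols belonging to stack `k` -/
def symsAt (as : List (VA Γ)) (k : K) : List (Γ k) :=
  as.filterMap (fun a => if h : a.1 = k then some (h ▸ a.2) else none)

lemma mem_symsAt {as : List (VA Γ)} {k : K} {g : Γ k} : g ∈ symsAt as k ↔ ⟨k, g⟩ ∈ as := by
  simp only [symsAt, List.mem_filterMap]
  constructor
  · rintro ⟨⟨k', g'⟩, h, h'⟩
    by_cases hk : k' = k
    · subst hk
      simp at h'
      rw [← h']; exact h
    · simp [hk] at h'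
  · intro h
    exact ⟨⟨k, g⟩, h, by simp⟩

variable (M : Λ → TM2.Stmt Γ Λ σ) (as : List (VA Γ)) (k₁ : K) (tt : Γ k₁)

/-- The rules for a statement. -/
def rulesOf (s : TM2.Stmt Γ Λ σ) (v : σ) : List (Rule (VQ Γ Λ σ) K (VA Γ)) :=
  match s with
  | .push k f q => [⟨.run (.push k f q) v, .push k ⟨k, f v⟩, .run q v⟩]
  | .peek k f q => (symsAt as k).map (fun g =>
      ⟨.run (.peek k f q) v, .peek k (some ⟨k, g⟩), .run q (f v (some g))⟩) ++
      [⟨.run (.peek k f q) v, .peek k none, .run q (f v none)⟩]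
  | .pop k f q => (symsAt as k).map (fun g =>
      ⟨.run (.pop k f q) v, .pop k ⟨k, g⟩, .run q (f v (some g))⟩) ++
      [⟨.run (.pop k f q) v, .peek k none, .run q (f v none)⟩]
  | .load a q => [⟨.run (.load a q) v, .nop, .run q (a v)⟩]
  | .branch f q₁ q₂ => [⟨.run (.branch f q₁ q₂) v, .nop, .run (cond (f v) q₁ q₂) v⟩]
  | .goto f => [⟨.run (.goto f) v, .nop, .run (M (f v)) v⟩]
  | .halt => [⟨.run .halt v, .peek k₁ (some ⟨k₁, tt⟩), .acc⟩]

lemma src_rulesOf {s : TM2.Stmt Γ Λ σ} {v : σ} {ρ : Rule (VQ Γ Λ σ) K (VA Γ)}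
    (h : ρ ∈ rulesOf M as k₁ tt s v) : ρ.src = .run s v := by
  cases s <;> simp only [rulesOf, List.mem_append, List.mem_map, List.mem_singleton] at h
  all_goals first
    | (subst h; rfl)
    | (rcases h with ⟨g, _, rfl⟩ | rfl <;> rfl)

/-- All main rules. -/
noncomputable def mainRules (ls : List Λ) (vs : List σ) : List (Rule (VQ Γ Λ σ) K (VA Γ)) :=
  ls.flatMap (fun l => (TM2.stmts₁ (M l)).toList.flatMap (fun s =>
    vs.flatMap (fun v => rulesOf M as k₁ tt s v))) ++
    (vs.flatMap (fun v => rulesOf M as k₁ tt .halt v) ++ [⟨.acc, .nop, .acc⟩])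

lemma mem_mainRules {ls : List Λ} {vs : List σ} {ρ : Rule (VQ Γ Λ σ) K (VA Γ)} :
    ρ ∈ mainRules M as k₁ tt ls vs ↔
    (∃ l ∈ ls, ∃ s ∈ TM2.stmts₁ (M l), ∃ v ∈ vs, ρ ∈ rulesOf M as k₁ tt s v) ∨
      (∃ v ∈ vs, ρ ∈ rulesOf M as k₁ tt .halt v) ∨ ρ = ⟨.acc, .nop, .acc⟩ := by
  simp only [mainRules, List.mem_append, List.mem_flatMap, Finset.mem_toList, List.mem_singleton]

lemma rulesOf_of_mem {ls : List Λ} {vs : List σ} {ρ : Rule (VQ Γ Λ σ) K (VA Γ)}
    (h : ρ ∈ mainRules M as k₁ tt ls vs) {s : TM2.Stmt Γ Λ σ} {v : σ} (hs : ρ.src = .run s v) :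
    ρ ∈ rulesOf M as k₁ tt s v := by
  rcases (mem_mainRules M as k₁ tt).1 h with ⟨l, _, s', _, v', _, h'⟩ | ⟨v', _, h'⟩ | h'
  · have := src_rulesOf M as k₁ tt h'
    rw [hs] at this
    simp only [VQ.run.injEq] at this
    rw [this.1, this.2]
    exact h'
  · have := src_rulesOf M as k₁ tt h'
    rw [hs] at this
    simp only [VQ.run.injEq] at this
    rw [this.1, this.2]
    exact h'
  · rw [h'] at hs
    cases hs

lemma main_sound {ls : List Λ} {vs : List σ} : ∀ (n : ℕ) (s : TM2.Stmt Γ Λ σ) (v : σ)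
    (S : ∀ k, List (Γ k)) (Sa : K → List (VA Γ)),
    Run (List.replicate n (mainRules M as k₁ tt ls vs)) (.run s v) (stkOf S) .acc Sa →
    ∃ (j : ℕ) (v' : σ) (S' : ∀ k, List (Γ k)),
      (flip bind (TM2.step M))^[j] (some (TM2.stepAux s v S)) = some ⟨none, v', S'⟩ ∧
      (S' k₁).head? = some tt := by
  intro n
  induction n with
  | zero => intro s v S Sa h; cases h
  | succ n ih =>
    intro s v S Sa h
    rw [List.replicate_succ] at h
    cases h with
    | cons ρ hρ hs hr h =>
      have hρ' := rulesOf_of_mem M as k₁ tt hρ hs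
      cases s with
      | push k f q =>
        simp only [rulesOf, List.mem_singleton] at hρ'
        subst hρ'
        change _ = _ at hr
        have e1 : Function.update (stkOf S) k (⟨k, f v⟩ :: stkOf S k) =
            stkOf (Function.update S k (f v :: S k)) := by
          rw [stkOf_update]; rfl
        rw [e1] at hr
        subst hr
        exact ih q v _ Sa h
      | peek k f q =>
        simp only [rulesOf, List.mem_append, List.mem_map, List.mem_singleton] at hρ'
        rcases hρ' with ⟨g, _, rfl⟩ | rfl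
        · obtain ⟨hr1, rfl⟩ := hr
          have := stkOf_head_some hr1
          rw [TM2.stepAux, this]
          exact ih q _ S Sa h
        · obtain ⟨hr1, rfl⟩ := hr
          have := stkOf_head_none hr1
          rw [TM2.stepAux, this]
          exact ih q _ S Sa h
      | pop k f q =>
        simp only [rulesOf, List.mem_append, List.mem_map, List.mem_singleton] at hρ'
        rcases hρ' with ⟨g, _, rfl⟩ | rfl
        · obtain ⟨hr1, hr2⟩ := hr
          have := stkOf_head_some hr1
          have e1 : Function.update (stkOf S) k (stkOf S k).tail =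
              stkOf (Function.update S k (S k).tail) := by
            rw [stkOf_update]; simp [stkOf, List.map_tail]
          rw [e1] at hr2
          subst hr2
          rw [TM2.stepAux, this]
          exact ih q _ _ Sa h
        · obtain ⟨hr1, rfl⟩ := hr
          have := stkOf_head_none hr1
          have e1 : Function.update S k (S k).tail = S := by
            have hS : (S k) = [] := by simpa using this
            have ht : (S k).tail = S k := by rw [hS]; rfl
            rw [ht, Function.update_eq_self]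
          rw [TM2.stepAux, this, e1]
          exact ih q _ S Sa h
      | load a q =>
        simp only [rulesOf, List.mem_singleton] at hρ'
        subst hρ'
        change _ = _ at hr
        subst hr
        exact ih q _ S Sa h
      | branch f q₁ q₂ =>
        simp only [rulesOf, List.mem_singleton] at hρ'
        subst hρ'
        change _ = _ at hr
        subst hr
        have := ih _ _ S Sa h
        rw [TM2.stepAux]
        cases hf : f v <;> rw [hf] at this <;> exact this
      | goto f =>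
        simp only [rulesOf, List.mem_singleton] at hρ'
        subst hρ'
        change _ = _ at hr
        subst hr
        obtain ⟨j, v', S', h1, h2⟩ := ih _ _ S Sa h
        refine ⟨j + 1, v', S', ?_, h2⟩
        rw [Function.iterate_succ_apply]
        exact h1
      | halt =>
        simp only [rulesOf, List.mem_singleton] at hρ'
        subst hρ'
        obtain ⟨hr1, rfl⟩ := hr
        exact ⟨0, v, S, rfl, stkOf_head_some hr1⟩

def size : TM2.Stmt Γ Λ σ → ℕ
  | .push _ _ q => size q + 1
  | .peek _ _ q => size q + 1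
  | .pop _ _ q => size q + 1
  | .load _ q => size q + 1
  | .branch _ q₁ q₂ => size q₁ + size q₂ + 1
  | .goto _ => 1
  | .halt => 0

/-- the state for a configuration -/
def cfgState (c : TM2.Cfg Γ Λ σ) : VQ Γ Λ σ :=
  match c.l with
  | some l => .run (M l) c.var
  | none => .run .halt c.var

/-- all symbols are listed -/
def SymOK (S : ∀ k, List (Γ k)) : Prop := ∀ k, ∀ g ∈ S k, (⟨k, g⟩ : VA Γ) ∈ as

lemma SymOK.update {S : ∀ k, List (Γ k)} (h : SymOK as S) (k : K) (l : List (Γ k))
    (hl : ∀ g ∈ l, (⟨k, g⟩ : VA Γ) ∈ as) : SymOK as (Function.update S k l) := by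
  intro k' g hg
  by_cases hk : k' = k
  · subst hk; simp at hg; exact hl g hg
  · rw [Function.update_of_ne hk] at hg; exact h k' g hg

lemma main_complete_stmt {ls : List Λ} {vs : List σ} (hls : ∀ l, l ∈ ls) (hvs : ∀ v, v ∈ vs)
    (l : Λ) : ∀ (s : TM2.Stmt Γ Λ σ), s ∈ TM2.stmts₁ (M l) → (∀ a ∈ pushes vs s, a ∈ as) →
    ∀ (v : σ) (S : ∀ k, List (Γ k)), SymOK as S →
    ∃ n ≤ size s, Run (List.replicate n (mainRules M as k₁ tt ls vs)) (.run s v) (stkOf S)
      (cfgState M (TM2.stepAux s v S)) (stkOf (TM2.stepAux s v S).stk) ∧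
      SymOK as (TM2.stepAux s v S).stk := by
  intro s
  have hmem : ∀ (s : TM2.Stmt Γ Λ σ) (v : σ) (ρ : Rule (VQ Γ Λ σ) K (VA Γ)),
      s ∈ TM2.stmts₁ (M l) → ρ ∈ rulesOf M as k₁ tt s v → ρ ∈ mainRules M as k₁ tt ls vs :=
    fun s v ρ h1 h2 => (mem_mainRules M as k₁ tt).2 (Or.inl ⟨l, hls l, s, h1, v, hvs v, h2⟩)
  induction s with
  | push k f q ih =>
    intro hs hp v S hS
    have hq : q ∈ TM2.stmts₁ (M l) := TM2.stmts₁_trans hs (by simp [TM2.stmts₁, TM2.stmts₁_self])
    have hS' : SymOK as (Function.update S k (f v :: S k)) := by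
      apply hS.update
      intro g hg
      rcases List.mem_cons.1 hg with rfl | hg
      · exact hp _ (by simp only [pushes, List.mem_append, List.mem_map]
                       exact Or.inl ⟨v, hvs v, rfl⟩)
      · exact hS k g hg
    obtain ⟨n, hn, hrun, hok⟩ := ih hq (fun a ha => hp a (by simp [pushes, ha])) v _ hS'
    refine ⟨n + 1, by simpa [size] using hn, ?_, hok⟩
    rw [List.replicate_succ]
    refine Run.cons ⟨.run (.push k f q) v, .push k ⟨k, f v⟩, .run q v⟩
      (hmem _ v _ hs (by simp [rulesOf])) rfl ?_ hrun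
    change _ = _
    rw [stkOf_update]; rfl
  | peek k f q ih =>
    intro hs hp v S hS
    have hq : q ∈ TM2.stmts₁ (M l) := TM2.stmts₁_trans hs (by simp [TM2.stmts₁, TM2.stmts₁_self])
    obtain ⟨n, hn, hrun, hok⟩ := ih hq (fun a ha => hp a (by simpa [pushes] using ha))
      (f v (S k).head?) _ hS
    refine ⟨n + 1, by simpa [size] using hn, ?_, hok⟩
    rw [List.replicate_succ]
    cases hh : (S k).head? with
    | none =>
      rw [hh] at hrun
      refine Run.cons ⟨.run (.peek k f q) v, .peek k none, .run q (f v none)⟩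
        (hmem _ v _ hs (by simp [rulesOf])) rfl ⟨?_, rfl⟩ (by rw [TM2.stepAux, hh]; exact hrun)
      rw [stkOf_head, hh]; rfl
    | some g =>
      rw [hh] at hrun
      have hg : (⟨k, g⟩ : VA Γ) ∈ as := hS k g (List.mem_of_mem_head? hh)
      refine Run.cons ⟨.run (.peek k f q) v, .peek k (some ⟨k, g⟩), .run q (f v (some g))⟩
        (hmem _ v _ hs ?_) rfl ⟨?_, rfl⟩ (by rw [TM2.stepAux, hh]; exact hrun)
      · simp only [rulesOf, List.mem_append, List.mem_map]
        exact Or.inl ⟨g, mem_symsAt.2 hg, rfl⟩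
      · rw [stkOf_head, hh]; rfl
  | pop k f q ih =>
    intro hs hp v S hS
    have hq : q ∈ TM2.stmts₁ (M l) := TM2.stmts₁_trans hs (by simp [TM2.stmts₁, TM2.stmts₁_self])
    have hS' : SymOK as (Function.update S k (S k).tail) := by
      apply hS.update
      intro g hg
      exact hS k g (List.mem_of_mem_tail hg)
    obtain ⟨n, hn, hrun, hok⟩ := ih hq (fun a ha => hp a (by simpa [pushes] using ha))
      (f v (S k).head?) _ hS'
    refine ⟨n + 1, by simpa [size] using hn, ?_, hok⟩
    rw [List.replicate_succ]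
    cases hh : (S k).head? with
    | none =>
      rw [hh] at hrun
      refine Run.cons ⟨.run (.pop k f q) v, .peek k none, .run q (f v none)⟩
        (hmem _ v _ hs (by simp [rulesOf])) rfl ⟨?_, ?_⟩ (by rw [TM2.stepAux, hh]; exact hrun)
      · rw [stkOf_head, hh]; rfl
      · have hS : (S k) = [] := by simpa using hh
        have ht : (S k).tail = S k := by rw [hS]; rfl
        rw [ht, Function.update_eq_self]
    | some g =>
      rw [hh] at hrun
      have hg : (⟨k, g⟩ : VA Γ) ∈ as := hS k g (List.mem_of_mem_head? hh)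
      refine Run.cons ⟨.run (.pop k f q) v, .pop k ⟨k, g⟩, .run q (f v (some g))⟩
        (hmem _ v _ hs ?_) rfl ⟨?_, ?_⟩ (by rw [TM2.stepAux, hh]; exact hrun)
      · simp only [rulesOf, List.mem_append, List.mem_map]
        exact Or.inl ⟨g, mem_symsAt.2 hg, rfl⟩
      · rw [stkOf_head, hh]; rfl
      · rw [stkOf_update]; simp [stkOf, List.map_tail]
  | load a q ih =>
    intro hs hp v S hS
    have hq : q ∈ TM2.stmts₁ (M l) := TM2.stmts₁_trans hs (by simp [TM2.stmts₁, TM2.stmts₁_self])
    obtain ⟨n, hn, hrun, hok⟩ := ih hq (fun a ha => hp a (by simpa [pushes] using ha)) (a v) _ hS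
    refine ⟨n + 1, by simpa [size] using hn, ?_, hok⟩
    rw [List.replicate_succ]
    exact Run.cons ⟨.run (.load a q) v, .nop, .run q (a v)⟩
      (hmem _ v _ hs (by simp [rulesOf])) rfl rfl hrun
  | branch f q₁ q₂ ih₁ ih₂ =>
    intro hs hp v S hS
    have hq₁ : q₁ ∈ TM2.stmts₁ (M l) :=
      TM2.stmts₁_trans hs (by simp [TM2.stmts₁, TM2.stmts₁_self])
    have hq₂ : q₂ ∈ TM2.stmts₁ (M l) :=
      TM2.stmts₁_trans hs (by simp [TM2.stmts₁, TM2.stmts₁_self])
    cases hf : f v with
    | true =>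
      obtain ⟨n, hn, hrun, hok⟩ := ih₁ hq₁ (fun a ha => hp a (by simp [pushes, ha])) v _ hS
      refine ⟨n + 1, by simp only [size]; omega, ?_, by simpa [TM2.stepAux, hf] using hok⟩
      rw [List.replicate_succ]
      refine Run.cons ⟨.run (.branch f q₁ q₂) v, .nop, .run (cond (f v) q₁ q₂) v⟩
        (hmem _ v _ hs (by simp [rulesOf])) rfl rfl ?_
      simpa [TM2.stepAux, hf] using hrun
    | false =>
      obtain ⟨n, hn, hrun, hok⟩ := ih₂ hq₂ (fun a ha => hp a (by simp [pushes, ha])) v _ hS
      refine ⟨n + 1, by simp only [size]; omega, ?_, by simpa [TM2.stepAux, hf] using hok⟩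
      rw [List.replicate_succ]
      refine Run.cons ⟨.run (.branch f q₁ q₂) v, .nop, .run (cond (f v) q₁ q₂) v⟩
        (hmem _ v _ hs (by simp [rulesOf])) rfl rfl ?_
      simpa [TM2.stepAux, hf] using hrun
  | goto f =>
    intro hs hp v S hS
    refine ⟨1, le_rfl, ?_, hS⟩
    exact Run.cons ⟨.run (.goto f) v, .nop, .run (M (f v)) v⟩
      (hmem _ v _ hs (by simp [rulesOf])) rfl rfl (Run.nil _ _)
  | halt =>
    intro hs hp v S hS
    exact ⟨0, le_rfl, Run.nil _ _, hS⟩

/-- Simulation of several steps. -/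
lemma main_complete_steps {ls : List Λ} {vs : List σ} (hls : ∀ l, l ∈ ls) (hvs : ∀ v, v ∈ vs)
    (has : ∀ l, ∀ a ∈ pushes vs (M l), a ∈ as) (B : ℕ) (hB : ∀ l, size (M l) ≤ B) :
    ∀ (j : ℕ) (c c' : TM2.Cfg Γ Λ σ), (flip bind (TM2.step M))^[j] (some c) = some c' →
    SymOK as c.stk →
    ∃ n ≤ j * B, Run (List.replicate n (mainRules M as k₁ tt ls vs)) (cfgState M c) (stkOf c.stk)
      (cfgState M c') (stkOf c'.stk) ∧ SymOK as c'.stk := by
  intro j
  induction j with
  | zero =>
    intro c c' h hS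
    simp only [Function.iterate_zero, id_eq, Option.some.injEq] at h
    subst h
    exact ⟨0, by simp, Run.nil _ _, hS⟩
  | succ j ih =>
    intro c c' h hS
    rw [Function.iterate_succ_apply] at h
    obtain ⟨l, v, S⟩ := c
    cases l with
    | none =>
      exfalso
      have : flip bind (TM2.step M) (some ⟨none, v, S⟩) = none := rfl
      rw [this] at h
      have h0 : ∀ j, (flip bind (TM2.step M))^[j] none = none := by
        intro j
        induction j with
        | zero => rfl
        | succ j ih => rw [Function.iterate_succ_apply]; exact ih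
      rw [h0] at h
      cases h
    | some l =>
      have : flip bind (TM2.step M) (some ⟨some l, v, S⟩) = some (TM2.stepAux (M l) v S) := rfl
      rw [this] at h
      obtain ⟨n1, hn1, hrun1, hok1⟩ := main_complete_stmt M as k₁ tt hls hvs l (M l)
        TM2.stmts₁_self (has l) v S hS
      obtain ⟨n2, hn2, hrun2, hok2⟩ := ih _ c' h hok1
      refine ⟨n1 + n2, ?_, ?_, hok2⟩
      · have := hB l
        rw [Nat.succ_mul]
        omega
      · rw [List.replicate_add]
        exact Run.append hrun1 hrun2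

/-! ### The initial phase -/

variable (k₀ : K) (enc : Bool → Γ k₀) (l₀ : Λ) (v₀ : σ)

def pushR (b : Bool) (q q' : VQ Γ Λ σ) : Rule (VQ Γ Λ σ) K (VA Γ) :=
  ⟨q, .push k₀ ⟨k₀, enc b⟩, q'⟩

def lvA1 : List (Rule (VQ Γ Λ σ) K (VA Γ)) :=
  [pushR k₀ enc false .g0 .g1, ⟨.g0, .nop, .h⟩, ⟨.h, .nop, .h⟩]
def lvA2 : List (Rule (VQ Γ Λ σ) K (VA Γ)) :=
  [pushR k₀ enc true .g1 .g2, pushR k₀ enc false .g1 .g2, ⟨.h, .nop, .h⟩]
def lvA3 : List (Rule (VQ Γ Λ σ) K (VA Γ)) :=
  [pushR k₀ enc true .g2 .g0, ⟨.h, .nop, .h⟩]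
def lvB : List (Rule (VQ Γ Λ σ) K (VA Γ)) :=
  [pushR k₀ enc false .g0 .ld, pushR k₀ enc false .h .ld]
def lvC (b : Bool) : List (Rule (VQ Γ Λ σ) K (VA Γ)) := [pushR k₀ enc b .ld .ld]
def lvD : List (Rule (VQ Γ Λ σ) K (VA Γ)) := [⟨.ld, .nop, .run (M l₀) v₀⟩]

def guessLevels (q : ℕ) : List (List (Rule (VQ Γ Λ σ) K (VA Γ))) :=
  (List.replicate q [lvA1 k₀ enc, lvA2 k₀ enc, lvA3 k₀ enc]).flatten

def inputLevels (x : List Bool) : List (List (Rule (VQ Γ Λ σ) K (VA Γ))) :=
  x.reverse.flatMap (fun b => [lvC k₀ enc false, lvC k₀ enc true, lvC k₀ enc b,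
    lvC k₀ enc true, lvC k₀ enc true, lvC k₀ enc true])

/-- Stack contents with one nonempty stack. -/
def st0 (l : List Bool) : K → List (VA Γ) :=
  stkOf (Function.update (fun _ => []) k₀ (l.map enc))

lemma st0_self (l : List Bool) : st0 k₀ enc l k₀ = l.map (fun b => ⟨k₀, enc b⟩) := by
  simp [st0, stkOf]

lemma st0_push (l : List Bool) (b : Bool) :
    Function.update (st0 k₀ enc l) k₀ (⟨k₀, enc b⟩ :: st0 k₀ enc l k₀) = st0 k₀ enc (b :: l) := by
  unfold st0
  rw [stkOf_update, stkOf_update]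
  funext k
  by_cases hk : k = k₀
  · subst hk; simp
  · simp [Function.update_of_ne hk]

lemma st0_nil : st0 k₀ enc [] = fun _ => [] := by
  funext k
  by_cases hk : k = k₀
  · subst hk; simp [st0, stkOf]
  · simp [st0, stkOf, Function.update_of_ne hk]

def trip (w : List Bool) : List Bool := w.flatMap (fun b => [true, b, false])

lemma run_cons_iff {Q K A : Type} [DecidableEq K] {R : List (Rule Q K A)}
    {L : List (List (Rule Q K A))} {q q'' : Q} {S S'' : K → List A} :
    Run (R :: L) q S q'' S'' ↔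
      ∃ ρ ∈ R, ρ.src = q ∧ ∃ S', ρ.op.Rel S S' ∧ Run L ρ.dst S' q'' S'' := by
  constructor
  · intro h
    cases h with
    | cons ρ hρ hs hr h => exact ⟨ρ, hρ, hs, _, hr, h⟩
  · rintro ⟨ρ, hρ, hs, S', hr, h⟩
    exact Run.cons ρ hρ hs hr h

lemma run_nil_iff {Q K A : Type} [DecidableEq K]
    {q q'' : Q} {S S'' : K → List A} :
    Run ([] : List (List (Rule Q K A))) q S q'' S'' ↔ q'' = q ∧ S'' = S := by
  constructor
  · intro h; cases h; exact ⟨rfl, rfl⟩
  · rintro ⟨rfl, rfl⟩; exact Run.nil _ _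

lemma guess_h : ∀ (q : ℕ) (S S' : K → List (VA Γ)) (z : VQ Γ Λ σ),
    Run (guessLevels k₀ enc q) .h S z S' ↔ z = .h ∧ S' = S := by
  intro q
  induction q with
  | zero => intro S S' z; simpa [guessLevels] using run_nil_iff
  | succ q ih =>
    intro S S' z
    have e : (guessLevels k₀ enc (q+1) : List (List (Rule (VQ Γ Λ σ) K (VA Γ)))) =
      lvA1 k₀ enc :: lvA2 k₀ enc :: lvA3 k₀ enc :: guessLevels k₀ enc q := by
      simp [guessLevels, List.replicate_succ]
    rw [e]
    simp only [run_cons_iff, lvA1, lvA2, lvA3, List.mem_cons, List.not_mem_nil, or_false,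
      exists_eq_or_imp, exists_eq_left, pushR, Op.Rel, reduceCtorEq, false_and, false_or, true_and]
    simp [ih]

lemma guess_iff : ∀ (q : ℕ) (w : List Bool) (S' : K → List (VA Γ)) (z : VQ Γ Λ σ),
    Run (guessLevels k₀ enc q) .g0 (st0 k₀ enc (trip w)) z S' ↔
    ∃ w', (z = .g0 ∧ w'.length = q ∨ z = .h ∧ w'.length < q) ∧
      S' = st0 k₀ enc (trip (w' ++ w)) := by
  intro q
  induction q with
  | zero =>
    intro w S' z
    have : (guessLevels k₀ enc 0 : List (List (Rule (VQ Γ Λ σ) K (VA Γ)))) = [] := by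
      simp [guessLevels]
    rw [this, run_nil_iff]
    constructor
    · rintro ⟨rfl, rfl⟩
      exact ⟨[], Or.inl ⟨rfl, rfl⟩, rfl⟩
    · rintro ⟨w', ⟨h1, h2⟩ | ⟨h1, h2⟩, h3⟩
      · have : w' = [] := by simpa using h2
        subst this
        exact ⟨h1, h3⟩
      · omega
  | succ q ih =>
    intro w S' z
    have e : (guessLevels k₀ enc (q+1) : List (List (Rule (VQ Γ Λ σ) K (VA Γ)))) =
      lvA1 k₀ enc :: lvA2 k₀ enc :: lvA3 k₀ enc :: guessLevels k₀ enc q := by
      simp [guessLevels, List.replicate_succ]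
    rw [e]
    simp only [run_cons_iff, lvA1, lvA2, lvA3, List.mem_cons, List.not_mem_nil, or_false,
      exists_eq_or_imp, exists_eq_left, pushR, Op.Rel, reduceCtorEq, false_and, false_or, true_and,
      st0_push, or_false, guess_h]
    have ht : ∀ b, st0 k₀ enc (true :: b :: false :: trip w) = st0 k₀ enc (trip (b :: w)) := by
      intro b; simp [trip]
    rw [ht, ht, ih, ih]
    constructor
    · rintro ((⟨w', h, rfl⟩ | ⟨w', h, rfl⟩) | ⟨rfl, rfl⟩)
      · refine ⟨w' ++ [true], ?_, by simp⟩
        rcases h with ⟨h1, h2⟩ | ⟨h1, h2⟩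
        · left; exact ⟨h1, by simp [h2]⟩
        · right; exact ⟨h1, by simp; omega⟩
      · refine ⟨w' ++ [false], ?_, by simp⟩
        rcases h with ⟨h1, h2⟩ | ⟨h1, h2⟩
        · left; exact ⟨h1, by simp [h2]⟩
        · right; exact ⟨h1, by simp; omega⟩
      · exact ⟨[], Or.inr ⟨rfl, by simp⟩, by simp⟩
    · rintro ⟨w', h, rfl⟩
      rcases List.eq_nil_or_concat w' with rfl | ⟨w'', b, rfl⟩
      · rcases h with ⟨h1, h2⟩ | ⟨h1, h2⟩
        · simp at h2
        · right; exact ⟨h1, by simp⟩
      · left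
        have h' : z = VQ.g0 ∧ w''.length = q ∨ z = VQ.h ∧ w''.length < q := by
          rcases h with ⟨h1, h2⟩ | ⟨h1, h2⟩
          · left; exact ⟨h1, by simpa using h2⟩
          · right; exact ⟨h1, by simpa using h2⟩
        cases b
        · right; exact ⟨w'', h', by simp⟩
        · left; exact ⟨w'', h', by simp⟩

lemma push_iff : ∀ (l : List Bool) (l' : List Bool) (z : VQ Γ Λ σ) (S' : K → List (VA Γ)),
    Run (l.map (lvC k₀ enc)) .ld (st0 k₀ enc l') z S' ↔
    z = .ld ∧ S' = st0 k₀ enc (l.reverse ++ l') := by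
  intro l
  induction l with
  | nil => intro l' z S'; simpa using run_nil_iff
  | cons b l ih =>
    intro l' z S'
    rw [List.map_cons, run_cons_iff]
    simp only [lvC, List.mem_cons, List.not_mem_nil, or_false, exists_eq_left, pushR, Op.Rel,
      true_and, st0_push]
    rw [ih (b :: l') z S']
    simp

/-- the bits to be pushed for the input -/
def pushWord (x : List Bool) : List Bool :=
  x.reverse.flatMap (fun b => [false, true, b, true, true, true])

lemma inputLevels_eq (x : List Bool) :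
    (inputLevels k₀ enc x : List (List (Rule (VQ Γ Λ σ) K (VA Γ)))) =
      (pushWord x).map (lvC k₀ enc) := by
  simp [inputLevels, pushWord, List.map_flatMap]

/-- All levels. -/
noncomputable def levels (main : List (Rule (VQ Γ Λ σ) K (VA Γ))) (q : ℕ) (x : List Bool) (N : ℕ) :
    List (List (Rule (VQ Γ Λ σ) K (VA Γ))) :=
  guessLevels k₀ enc q ++ (lvB k₀ enc :: (inputLevels k₀ enc x ++
    (lvD M l₀ v₀ :: List.replicate N main)))

/-- the content of the input stack after the initial phase -/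
def initWord (x w : List Bool) : List Bool := (pushWord x).reverse ++ false :: trip w

theorem levels_iff (main : List (Rule (VQ Γ Λ σ) K (VA Γ))) (q : ℕ) (x : List Bool) (N : ℕ)
    (z : VQ Γ Λ σ) (Sa : K → List (VA Γ)) :
    Run (levels M k₀ enc l₀ v₀ main q x N) .g0 (fun _ => []) z Sa ↔
    ∃ w : List Bool, w.length ≤ q ∧
      Run (List.replicate N main) (.run (M l₀) v₀) (st0 k₀ enc (initWord x w)) z Sa := by
  have hB : ∀ (z' : VQ Γ Λ σ) (w : List Bool), (z' = .g0 ∨ z' = .h) →
      (Run (lvB k₀ enc :: (inputLevels k₀ enc x ++ (lvD M l₀ v₀ :: List.replicate N main)))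
        z' (st0 k₀ enc (trip w)) z Sa ↔
      Run (List.replicate N main) (.run (M l₀) v₀) (st0 k₀ enc (initWord x w)) z Sa) := by
    intro z' w hz'
    have h1 : Run (lvB k₀ enc :: (inputLevels k₀ enc x ++ (lvD M l₀ v₀ :: List.replicate N main)))
        z' (st0 k₀ enc (trip w)) z Sa ↔
        Run (inputLevels k₀ enc x ++ (lvD M l₀ v₀ :: List.replicate N main))
        .ld (st0 k₀ enc (false :: trip w)) z Sa := by
      rw [run_cons_iff]
      rcases hz' with rfl | rfl <;>
      simp only [lvB, List.mem_cons, List.not_mem_nil, or_false, exists_eq_or_imp,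
        exists_eq_left, pushR, Op.Rel, reduceCtorEq, false_and, false_or, or_false, true_and,
        st0_push]
    rw [h1]
    constructor
    · intro h
      obtain ⟨z1, S1, h2, h3⟩ := h.split
      rw [inputLevels_eq, push_iff] at h2
      obtain ⟨rfl, rfl⟩ := h2
      rw [run_cons_iff] at h3
      simp only [lvD, List.mem_cons, List.not_mem_nil, or_false, exists_eq_left, Op.Rel,
        true_and] at h3
      exact h3
    · intro h
      refine Run.append (q' := .ld) (S' := st0 k₀ enc (initWord x w)) ?_ ?_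
      · rw [inputLevels_eq, push_iff]
        exact ⟨rfl, rfl⟩
      · rw [run_cons_iff]
        simpa only [lvD, List.mem_cons, List.not_mem_nil, or_false, exists_eq_left, Op.Rel,
          true_and] using h
  constructor
  · intro h
    obtain ⟨z1, S1, h2, h3⟩ := h.split
    rw [← st0_nil k₀ enc] at h2
    have h2' := (guess_iff k₀ enc q [] S1 z1).1 (by simpa [trip] using h2)
    obtain ⟨w, hw, rfl⟩ := h2'
    rw [List.append_nil] at h3
    refine ⟨w, by omega, ?_⟩
    refine (hB z1 w ?_).1 h3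
    rcases hw with ⟨h, _⟩ | ⟨h, _⟩
    · exact Or.inl h
    · exact Or.inr h
  · rintro ⟨w, hw, h⟩
    rcases hw.lt_or_eq with hw' | hw'
    · refine Run.append (q' := .h) (S' := st0 k₀ enc (trip w)) ?_ ((hB _ w (Or.inr rfl)).2 h)
      rw [← st0_nil k₀ enc]
      have := (guess_iff k₀ enc q [] (st0 k₀ enc (trip w)) (.h : VQ Γ Λ σ)).2
        ⟨w, Or.inr ⟨rfl, hw'⟩, by simp⟩
      simpa [trip] using this
    · refine Run.append (q' := .g0) (S' := st0 k₀ enc (trip w)) ?_ ((hB _ w (Or.inl rfl)).2 h)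
      rw [← st0_nil k₀ enc]
      have := (guess_iff k₀ enc q [] (st0 k₀ enc (trip w)) (.g0 : VQ Γ Λ σ)).2
        ⟨w, Or.inl ⟨rfl, hw'⟩, by simp⟩
      simpa [trip] using this

end sim

end Pool.Agent.helper62
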