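import Pool.Agent.helper62.Levels

/-!
The complete program: reading the input, computing polynomials in unary, writing the documents.
-/

set_option autoImplicit false
set_option linter.unusedSimpArgs false
set_option linter.unusedSectionVars false

namespace Pool.Agent.helper62

open Function Prog

/-! ### Length of the stacks -/

lemma Prog.Exec.length_le {I : Type} [DecidableEq I] {p : Prog I} {S S' : I → List Bool} {n : ℕ}
    (h : Exec p S S' n) (k : I) : (S' k).length ≤ (S k).length + n := by
  have hupd : ∀ (S : I → List Bool) (k' : I) (l : List Bool) (b : Bool), S k' = b :: l →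
      ((update S k' l) k).length ≤ (S k).length := by
    intro S k' l b h
    by_cases hk : k = k'
    · subst hk; rw [update_self, h]; simp
    · rw [update_of_ne hk]
  induction h with
  | skip S => omega
  | push k' b S =>
    by_cases hk : k = k'
    · subst hk; rw [update_self]; simp
    · rw [update_of_ne hk]; omega
  | seq _ _ ih1 ih2 => omega
  | loop_nil _ => omega
  | loop_false h _ _ ih1 ih2 => have := hupd _ _ _ _ h; omega
  | loop_true h _ _ ih1 ih2 => have := hupd _ _ _ _ h; omega
  | ifp_nil _ _ ih => omega
  | ifp_false h _ ih => have := hupd _ _ _ _ h; omega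
  | ifp_true h _ ih => have := hupd _ _ _ _ h; omega

lemma Prog.Runs.length_le {I : Type} [DecidableEq I] {p : Prog I} {S S' : I → List Bool} {n : ℕ}
    (h : Runs p S S' n) (k : I) : (S' k).length ≤ (S k).length + n := by
  obtain ⟨m, hm, h⟩ := h
  have := h.length_le k
  omega

/-! ### Reading the input -/

def inpProg : Prog Stk :=
  .loop .kinp .skip
    (.seq (.ifp .kinp .skip (.seq (.push .kx false) (.push .kl true))
      (.seq (.push .kx true) (.push .kl true))) (.ifp .kinp .skip .skip .skip))

lemma trip_cons (b : Bool) (y : List Bool) : trip (b :: y) = true :: b :: false :: trip y := by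
  simp [trip]

lemma runs_inp : ∀ (y : List Bool) (r : Regs), r.inp = trip y →
    Runs inpProg (mkSt r) (mkSt { r with inp := [], x := y.reverse ++ r.x, l := r.l + y.length })
      (6 * y.length + 1) := by
  intro y
  induction y with
  | nil =>
    intro r h
    refine (Runs.loop_nil (k := Stk.kinp) (S := mkSt r) h).mono' ?_ (by simp)
    have h' : r.inp = [] := h
    cases r
    simp only at h'
    subst h'
    rfl
  | cons b y ih =>
    intro r h
    rw [trip_cons] at h
    have hS : mkSt r .kinp = true :: b :: false :: trip y := h
    have h1 : Runs (.ifp .kinp .skip (.seq (.push .kx false) (.push .kl true))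
        (.seq (.push .kx true) (.push .kl true)))
        (mkSt { r with inp := b :: false :: trip y })
        (mkSt { r with inp := false :: trip y, x := b :: r.x, l := r.l + 1 }) (1 + (1 + 1)) := by
      refine Runs.ifp (b := b) (l := false :: trip y) rfl ?_
      rw [set_inp]
      cases b
      · have g1 := Runs.push .kx false (mkSt { r with inp := false :: trip y })
        rw [set_x] at g1
        exact g1.seq (push_l { r with inp := false :: trip y, x := false :: r.x })
      · have g1 := Runs.push .kx true (mkSt { r with inp := false :: trip y })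
        rw [set_x] at g1
        exact g1.seq (push_l { r with inp := false :: trip y, x := true :: r.x })
    have h2 : Runs (.ifp .kinp .skip .skip .skip)
        (mkSt { r with inp := false :: trip y, x := b :: r.x, l := r.l + 1 })
        (mkSt { r with inp := trip y, x := b :: r.x, l := r.l + 1 }) (1 + 1) := by
      refine Runs.ifp (b := false) (l := trip y) rfl ?_
      rw [set_inp]
      exact Runs.skip _
    have h3 := ih { r with inp := trip y, x := b :: r.x, l := r.l + 1 } rfl
    refine (Runs.loop_cons hS (by rw [set_inp]; exact h1.seq h2) h3).mono' ?_ ?_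
    · congr 1
      simp only [List.reverse_cons, List.append_assoc, List.cons_append, List.nil_append,
        List.length_cons, Nat.add_assoc, Nat.add_comm 1]
    · simp only [List.length_cons]; omega

/-! ### Polynomials -/

lemma pour_l2_l (r : Regs) :
    Runs (pour .kl2 .kl) (mkSt r) (mkSt { r with l2 := 0, l := r.l2 + r.l })
      (2 * r.l2 + 1) := by
  have := Runs.pour (k := Stk.kl2) (k' := Stk.kl) (by decide) (List.replicate r.l2 true)
    (mkSt r) rfl
  rw [zero_l2, mk_l, replicate_append_replicate', set_l, List.length_replicate] at this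
  exact this

lemma pour_b_a (r : Regs) :
    Runs (pour .kb .ka) (mkSt r) (mkSt { r with b := 0, a := r.b + r.a })
      (2 * r.b + 1) := by
  have := Runs.pour (k := Stk.kb) (k' := Stk.ka) (by decide) (List.replicate r.b true)
    (mkSt r) rfl
  rw [zero_b, mk_a, replicate_append_replicate', set_a, List.length_replicate] at this
  exact this

lemma pour_a_cc (r : Regs) :
    Runs (pour .ka .kcc) (mkSt r) (mkSt { r with a := 0, cc := r.a + r.cc })
      (2 * r.a + 1) := by
  have := Runs.pour (k := Stk.ka) (k' := Stk.kcc) (by decide) (List.replicate r.a true)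
    (mkSt r) rfl
  rw [zero_a, mk_cc, replicate_append_replicate', set_cc, List.length_replicate] at this
  exact this

lemma pour_a_nn (r : Regs) :
    Runs (pour .ka .knn) (mkSt r) (mkSt { r with a := 0, nn := r.a + r.nn })
      (2 * r.a + 1) := by
  have := Runs.pour (k := Stk.ka) (k' := Stk.knn) (by decide) (List.replicate r.a true)
    (mkSt r) rfl
  rw [zero_a, mk_nn, replicate_append_replicate', set_nn, List.length_replicate] at this
  exact this

lemma pour_a_dd (r : Regs) :
    Runs (pour .ka .kdd) (mkSt r) (mkSt { r with a := 0, dd := r.a + r.dd })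
      (2 * r.a + 1) := by
  have := Runs.pour (k := Stk.ka) (k' := Stk.kdd) (by decide) (List.replicate r.a true)
    (mkSt r) rfl
  rw [zero_a, mk_dd, replicate_append_replicate', set_dd, List.length_replicate] at this
  exact this

/-- add the content of `kl` to `kb` -/
def addL : Prog Stk :=
  .seq (.loop .kl .skip (.seq (.push .kb true) (.push .kl2 true))) (pour .kl2 .kl)

lemma runs_addL (r : Regs) (h : r.l2 = 0) :
    Runs addL (mkSt r) (mkSt { r with b := r.b + r.l }) (5 * r.l + 2) := by
  have h1 := Runs.loop_unary (k := Stk.kl) (pf := .skip)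
    (pt := .seq (.push .kb true) (.push .kl2 true)) (t := 2) r.l
    (fun j => mkSt { r with l := r.l - j, b := r.b + j, l2 := j })
    (fun j _ => rfl) (fun j _ => by
      have e1 : update (mkSt { r with l := r.l - j, b := r.b + j, l2 := j }) Stk.kl
          (List.replicate (r.l - (j + 1)) true) =
          mkSt { r with l := r.l - (j + 1), b := r.b + j, l2 := j } := set_l _ _
      rw [e1]
      exact (push_b _).seq (push_l2 _))
  have h2 := pour_l2_l { r with l := r.l - r.l, b := r.b + r.l, l2 := r.l }
  have e0 : mkSt { r with l := r.l - 0, b := r.b + 0, l2 := 0 } = mkSt r := by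
    cases r
    simp only at h
    subst h
    rfl
  simp only [e0] at h1
  refine (h1.seq h2).mono' ?_ (by simp only; omega)
  congr 1
  simp only [Nat.sub_self, Nat.add_zero]
  rw [← h]

/-- multiply `ka` by the content of `kl` -/
def mulL : Prog Stk := .seq (.loop .ka .skip addL) (pour .kb .ka)

lemma runs_mulL (r : Regs) (h : r.l2 = 0) (hb : r.b = 0) :
    Runs mulL (mkSt r) (mkSt { r with a := r.a * r.l })
      (r.a * (5 * r.l + 3) + 1 + (2 * (r.a * r.l) + 1)) := by
  have h1 := Runs.loop_unary (k := Stk.ka) (pf := .skip) (pt := addL) (t := 5 * r.l + 2) r.a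
    (fun j => mkSt { r with a := r.a - j, b := j * r.l })
    (fun j _ => rfl) (fun j _ => by
      have e1 : update (mkSt { r with a := r.a - j, b := j * r.l }) Stk.ka
          (List.replicate (r.a - (j + 1)) true) =
          mkSt { r with a := r.a - (j + 1), b := j * r.l } := set_a _ _
      rw [e1]
      have h2 := runs_addL { r with a := r.a - (j + 1), b := j * r.l } h
      rw [Nat.succ_mul]
      exact h2)
  have h2 := pour_b_a { r with a := r.a - r.a, b := r.a * r.l }
  have e0 : mkSt { r with a := r.a - 0, b := 0 * r.l } = mkSt r := by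
    rw [Nat.zero_mul]
    cases r
    simp only at hb
    subst hb
    rfl
  simp only [e0] at h1
  refine (h1.seq h2).mono' ?_ le_rfl
  congr 1
  simp only [Nat.sub_self, Nat.add_zero]
  rw [← hb]

/-- push `n` units on `ka` -/
def addA : ℕ → Prog Stk
  | 0 => .skip
  | n + 1 => .seq (.push .ka true) (addA n)

lemma runs_addA : ∀ (n : ℕ) (r : Regs),
    Runs (addA n) (mkSt r) (mkSt { r with a := r.a + n }) (n + 1) := by
  intro n
  induction n with
  | zero => intro r; exact Runs.skip _
  | succ n ih =>
    intro r
    refine ((push_a r).seq (ih _)).mono' ?_ (by omega)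
    congr 1
    simp only [Nat.add_assoc, Nat.add_comm 1]

/-- Every polynomial can be computed in unary. -/
lemma exists_polyProg (p : Polynomial ℕ) : ∃ (prog : Prog Stk) (c : Polynomial ℕ), ∀ r : Regs,
    r.a = 0 → r.b = 0 → r.l2 = 0 →
    Runs prog (mkSt r) (mkSt { r with a := p.eval r.l }) (c.eval r.l) := by
  induction p using Polynomial.recOnHorner with
  | M0 =>
    refine ⟨.skip, 1, fun r ha _ _ => ?_⟩
    rw [Polynomial.eval_zero, Polynomial.eval_one]
    refine (Runs.skip _).mono' ?_ le_rfl
    congr 1
    rw [← ha]
  | MC p a _ _ ih =>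
    obtain ⟨prog, c, hc⟩ := ih
    refine ⟨.seq prog (addA a), c + ((a + 1 : ℕ) : Polynomial ℕ), fun r ha hb hl => ?_⟩
    have h1 := hc r ha hb hl
    have h2 := runs_addA a { r with a := p.eval r.l }
    rw [Polynomial.eval_add, Polynomial.eval_C, Polynomial.eval_add, Polynomial.eval_natCast,
      Nat.cast_id]
    exact h1.seq h2
  | MX p _ ih =>
    obtain ⟨prog, c, hc⟩ := ih
    refine ⟨.seq prog mulL, c + (p * (5 * Polynomial.X + 3) + 1 + (2 * (p * Polynomial.X) + 1)),
      fun r ha hb hl => ?_⟩
    have h1 := hc r ha hb hl
    have h2 := runs_mulL { r with a := p.eval r.l } hl hb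
    simp only [Polynomial.eval_add, Polynomial.eval_mul, Polynomial.eval_X, Polynomial.eval_one,
      Polynomial.eval_ofNat]
    exact h1.seq h2

/-! ### Output -/

/-- Write the (reversed) content of `ko` on `kout`, coding each bit by `g`. -/
def outProg (g : Bool → List Bool) : Prog Stk :=
  .loop .ko (Prog.pushes .kout (g false).reverse) (Prog.pushes .kout (g true).reverse)

lemma runs_out (g : Bool → List Bool) : ∀ (y : List Bool) (r : Regs), r.o = y →
    Runs (outProg g) (mkSt r) (mkSt { r with o := [], out := y.reverse.flatMap g ++ r.out })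
      (y.length * ((g false).length + (g true).length + 2) + 1) := by
  intro y
  induction y with
  | nil =>
    intro r h
    refine (Runs.loop_nil (k := Stk.ko) (S := mkSt r) h).mono' ?_ (by simp)
    cases r
    simp only at h
    subst h
    rfl
  | cons b y ih =>
    intro r h
    have hS : mkSt r .ko = b :: y := h
    have h1 : Runs (if b then (Prog.pushes .kout (g true).reverse) else
        (Prog.pushes .kout (g false).reverse)) (update (mkSt r) .ko y)
        (mkSt { r with o := y, out := g b ++ r.out })
        ((g false).length + (g true).length + 1) := by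
      rw [set_o]
      cases b
      · have g1 := Runs.pushes (k := Stk.kout) (g false).reverse (mkSt { r with o := y })
        rw [set_out, List.reverse_reverse, List.length_reverse] at g1
        exact g1.mono (by omega)
      · have g1 := Runs.pushes (k := Stk.kout) (g true).reverse (mkSt { r with o := y })
        rw [set_out, List.reverse_reverse, List.length_reverse] at g1
        exact g1.mono (by omega)
    have h3 := ih { r with o := y, out := g b ++ r.out } rfl
    refine (Runs.loop_cons hS h1 h3).mono' ?_ ?_
    · congr 1
      simp only [List.reverse_cons, List.flatMap_append, List.flatMap_cons, List.flatMap_nil,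
        List.append_assoc, List.append_nil]
    · rw [List.length_cons, Nat.succ_mul]; omega

/-! ### The complete program -/

/-- all registers empty -/
def zr : Regs := ⟨[], [], [], [], [], 0, 0, 0, 0, 0, 0, 0, 0, 0, 0, 0, 0⟩

lemma clear_x (r : Regs) :
    Runs (clear .kx) (mkSt r) (mkSt { r with x := [] }) (2 * r.x.length + 1) := by
  have := Runs.clear (k := Stk.kx) r.x (mkSt r) rfl
  rw [set_x] at this
  exact this
lemma clear_l (r : Regs) :
    Runs (clear .kl) (mkSt r) (mkSt { r with l := 0 }) (2 * r.l + 1) := by
  have := Runs.clear (k := Stk.kl) (List.replicate r.l true) (mkSt r) rfl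
  rw [zero_l, List.length_replicate] at this
  exact this
lemma clear_cc (r : Regs) :
    Runs (clear .kcc) (mkSt r) (mkSt { r with cc := 0 }) (2 * r.cc + 1) := by
  have := Runs.clear (k := Stk.kcc) (List.replicate r.cc true) (mkSt r) rfl
  rw [zero_cc, List.length_replicate] at this
  exact this
lemma clear_nn (r : Regs) :
    Runs (clear .knn) (mkSt r) (mkSt { r with nn := 0 }) (2 * r.nn + 1) := by
  have := Runs.clear (k := Stk.knn) (List.replicate r.nn true) (mkSt r) rfl
  rw [zero_nn, List.length_replicate] at this
  exact this
lemma clear_dd (r : Regs) :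
    Runs (clear .kdd) (mkSt r) (mkSt { r with dd := 0 }) (2 * r.dd + 1) := by
  have := Runs.clear (k := Stk.kdd) (List.replicate r.dd true) (mkSt r) rfl
  rw [zero_dd, List.length_replicate] at this
  exact this

/-- **The writer.** -/
theorem exists_writer (M1 M2 : Mode) (D1 D2 : Doc) (e1 e2 : List Bool) (g : Bool → List Bool)
    (q N m : Polynomial ℕ) (hm : ∀ n, 3 * q.eval n + 6 * n + 2 + N.eval n ≤ m.eval n) :
    ∃ (prog : Prog Stk) (c : Polynomial ℕ), ∀ x : List Bool,
      Runs prog (mkSt { zr with inp := trip x })
        (mkSt { zr with out := (docBits M1 D1 e1 (m.eval x.length) (q.eval x.length)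
          (N.eval x.length) x ++ docBits M2 D2 e2 (m.eval x.length) (q.eval x.length)
          (N.eval x.length) x).flatMap g }) (c.eval x.length) := by
  obtain ⟨pq, cq, hq⟩ := exists_polyProg q
  obtain ⟨pn, cn, hn⟩ := exists_polyProg N
  obtain ⟨pm, cm, hm'⟩ := exists_polyProg m
  obtain ⟨c1, h1⟩ := runs_pass M1 D1 e1
  obtain ⟨c2, h2⟩ := runs_pass M2 D2 e2
  let ca : Polynomial ℕ := (6 * Polynomial.X + 1) + ((cq + (2 * q + 1)) + ((cn + (2 * N + 1)) +
    ((cm + (2 * m + 1)) + (c1.comp m + c2.comp m))))
  refine ⟨.seq (.seq inpProg (.seq (.seq pq (pour .ka .kcc)) (.seq (.seq pn (pour .ka .knn))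
    (.seq (.seq pm (pour .ka .kdd)) (.seq (passProg M1 D1 e1) (passProg M2 D2 e2))))))
    (.seq (outProg g) (.seq (clear .kx) (.seq (clear .kl) (.seq (clear .kcc) (.seq (clear .knn)
      (clear .kdd)))))), ca + ((ca * (((g false).length + (g true).length + 2 : ℕ) :
        Polynomial ℕ) + 1) + ((2 * Polynomial.X + 1) + ((2 * Polynomial.X + 1) + ((2 * q + 1) +
          ((2 * N + 1) + (2 * m + 1)))))), fun x => ?_⟩
  have s1 : Runs inpProg (mkSt { zr with inp := trip x })
      (mkSt { zr with x := x.reverse, l := x.length }) (6 * x.length + 1) :=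
    (runs_inp x { zr with inp := trip x } rfl).mono' (by simp [zr]) le_rfl
  have s2 : Runs (.seq pq (pour .ka .kcc)) (mkSt { zr with x := x.reverse, l := x.length })
      (mkSt { zr with x := x.reverse, l := x.length, cc := q.eval x.length })
      (cq.eval x.length + (2 * q.eval x.length + 1)) :=
    ((hq { zr with x := x.reverse, l := x.length } rfl rfl rfl).seq
      (pour_a_cc { zr with x := x.reverse, l := x.length, a := q.eval x.length })).mono'
      (by simp [zr]) le_rfl
  have s3 : Runs (.seq pn (pour .ka .knn))
      (mkSt { zr with x := x.reverse, l := x.length, cc := q.eval x.length })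
      (mkSt { zr with
        x := x.reverse, l := x.length, cc := q.eval x.length, nn := N.eval x.length })
      (cn.eval x.length + (2 * N.eval x.length + 1)) :=
    ((hn { zr with x := x.reverse, l := x.length, cc := q.eval x.length } rfl rfl rfl).seq
      (pour_a_nn { zr with
        x := x.reverse, l := x.length, cc := q.eval x.length, a := N.eval x.length })).mono'
      (by simp [zr]) le_rfl
  have s4 : Runs (.seq pm (pour .ka .kdd))
      (mkSt { zr with
        x := x.reverse, l := x.length, cc := q.eval x.length, nn := N.eval x.length })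
      (mkSt { zr with
        x := x.reverse, l := x.length, cc := q.eval x.length, nn := N.eval x.length,
        dd := m.eval x.length })
      (cm.eval x.length + (2 * m.eval x.length + 1)) :=
    ((hm' { zr with
        x := x.reverse, l := x.length, cc := q.eval x.length, nn := N.eval x.length }
        rfl rfl rfl).seq
      (pour_a_dd { zr with
        x := x.reverse, l := x.length, cc := q.eval x.length, nn := N.eval x.length,
        a := m.eval x.length })).mono'
      (by simp [zr]) le_rfl
  have hbnd : 3 * q.eval x.length + 6 * x.reverse.length + 2 + N.eval x.length ≤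
      m.eval x.length := by
    rw [List.length_reverse]; exact hm _
  generalize hR : ({ zr with
    x := x.reverse, l := x.length, cc := q.eval x.length, nn := N.eval x.length,
    dd := m.eval x.length } : Regs) = R at s4
  have Rtmp : R.tmp = 0 := by rw [← hR]; rfl
  have Rp : R.p = 0 := by rw [← hR]; rfl
  have Ri : R.i = 0 := by rw [← hR]; rfl
  have Rx2 : R.x2 = [] := by rw [← hR]; rfl
  have Rc2 : R.c2 = 0 := by rw [← hR]; rfl
  have Rn2 : R.n2 = 0 := by rw [← hR]; rfl
  have Rdd : R.dd = m.eval x.length := by rw [← hR]
  have Rcc : R.cc = q.eval x.length := by rw [← hR]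
  have Rnn : R.nn = N.eval x.length := by rw [← hR]
  have Rl : R.l = x.length := by rw [← hR]
  have Rx : R.x = x.reverse := by rw [← hR]
  have Ro : R.o = [] := by rw [← hR]; rfl
  have Rout : R.out = [] := by rw [← hR]; rfl
  have s5 := h1 (m.eval x.length) R Rtmp Rp Ri Rx2 Rc2 Rn2 (by rw [Rdd]) (by
    rw [Rcc, Rnn, Rx]; exact hbnd)
  rw [Rdd, Rcc, Rnn, Rx, List.reverse_reverse] at s5
  generalize hd1 : docBits M1 D1 e1 (m.eval x.length) (q.eval x.length) (N.eval x.length) x = d1
    at s5 ⊢
  have s6 := h2 (m.eval x.length) (app R d1) Rtmp Rp Ri Rx2 Rc2 Rn2 (by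
    change R.dd ≤ _; rw [Rdd]) (by
    change 3 * R.cc + 6 * R.x.length + 2 + R.nn ≤ _
    rw [Rcc, Rnn, Rx]; exact hbnd)
  rw [app_app] at s6
  have s6' : Runs (passProg M2 D2 e2) (mkSt (app R d1)) (mkSt (app R (d1 ++
      docBits M2 D2 e2 (m.eval x.length) (q.eval x.length) (N.eval x.length) x)))
      (c2.eval (m.eval x.length)) := by
    have i1 : (app R d1).dd = m.eval x.length := Rdd
    have i2 : (app R d1).cc = q.eval x.length := Rcc
    have i3 : (app R d1).nn = N.eval x.length := Rnn
    have i4 : (app R d1).x.reverse = x := by
      change R.x.reverse = x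
      rw [Rx, List.reverse_reverse]
    rw [i1, i2, i3, i4] at s6
    exact s6
  generalize hd2 : docBits M2 D2 e2 (m.eval x.length) (q.eval x.length) (N.eval x.length) x = d2
    at s6' ⊢
  have sA := s1.seq (s2.seq (s3.seq (s4.seq (s5.seq s6'))))
  have sA' := sA.mono (t' := ca.eval x.length) (by
    simp only [ca, Polynomial.eval_add, Polynomial.eval_mul, Polynomial.eval_X,
      Polynomial.eval_one, Polynomial.eval_ofNat, Polynomial.eval_comp]
    exact le_rfl)
  have hlen : (app R (d1 ++ d2)).o.length ≤ ca.eval x.length := by
    have := sA'.length_le Stk.ko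
    rw [mk_o, mk_o] at this
    have e0 : ({ zr with inp := trip x } : Regs).o.length = 0 := rfl
    rw [e0, Nat.zero_add] at this
    exact this
  have s7 := runs_out g (app R (d1 ++ d2)).o (app R (d1 ++ d2)) rfl
  have t7 : ({ app R (d1 ++ d2) with
      o := [], out := (app R (d1 ++ d2)).o.reverse.flatMap g ++ (app R (d1 ++ d2)).out } : Regs) =
      { R with out := (d1 ++ d2).flatMap g } := by
    simp only [app, Ro, Rout, List.append_nil, List.reverse_reverse]
  rw [t7] at s7
  have s8 := clear_x { R with out := (d1 ++ d2).flatMap g }
  have s9 := clear_l { R with out := (d1 ++ d2).flatMap g, x := [] }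
  have s10 := clear_cc { R with out := (d1 ++ d2).flatMap g, x := [], l := 0 }
  have s11 := clear_nn { R with out := (d1 ++ d2).flatMap g, x := [], l := 0, cc := 0 }
  have s12 := clear_dd { R with out := (d1 ++ d2).flatMap g, x := [], l := 0, cc := 0, nn := 0 }
  refine (sA'.seq (s7.seq (s8.seq (s9.seq (s10.seq (s11.seq s12)))))).mono' ?_ ?_
  · rw [← hR]
    rfl
  · simp only [Polynomial.eval_add, Polynomial.eval_mul, Polynomial.eval_X,
      Polynomial.eval_one, Polynomial.eval_ofNat, Polynomial.eval_natCast, Nat.cast_id]
    have g1 := Nat.mul_le_mul_right ((g false).length + (g true).length + 2) hlen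
    have i1 : 2 * R.x.length = 2 * x.length := by rw [Rx, List.length_reverse]
    rw [i1, Rl, Rcc, Rnn, Rdd]
    omega

end Pool.Agent.helper62
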